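import Mathlib

/-!
# The curves of genus one on a conic bundle with eight degenerate fibres (helper436)
-/

set_option autoImplicit false

namespace Pool.Agent.H436.CB

section alg

variable {F : Type*} [Field F] [CharZero F]

/-- the coefficients of the scaled polynomial -/
def fk (π : Fin 9 → F) (k : Fin 9) : F := π k * π 0 ^ (k : ℕ)

/-- a coefficient -/
def ρ2 (π : Fin 9 → F) : F := (fk π 2 + π 1) / 2
/-- a coefficient -/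
def cc (π : Fin 9 → F) : F := π 1 ^ 2 * (fk π 2 + 3 * π 1) / 2
/-- a coefficient -/
def cd (π : Fin 9 → F) : F := π 1 * (fk π 5 + fk π 3 * (π 1 - fk π 2) / 2)
/-- a coefficient -/
def ce (π : Fin 9 → F) : F :=
  π 1 ^ 2 * ρ2 π ^ 2 + π 1 * (ρ2 π * fk π 4 - ρ2 π ^ 3 + fk π 3 ^ 2 / 4 - fk π 6)

/-- the coefficients of the function -/
def S3 (π : Fin 9 → F) (x Y : F) : F := ρ2 π * x ^ 2 + 1 + Y / π 1
/-- the coefficients of the function -/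
def R3 (π : Fin 9 → F) (x : F) : F := fk π 3 * x / 2 + π 1
/-- the coefficients of the function -/
def R4 (π : Fin 9 → F) (x Y : F) : F :=
  (x ^ 2 * (fk π 4 - ρ2 π ^ 2) + 2 * π 1 * S3 π x Y + π 1) / 2
/-- the coefficients of the function -/
def S4 (π : Fin 9 → F) (x Y : F) : F :=
  x ^ 2 * (2 * ρ2 π * R3 π x - fk π 5 * x) / (2 * π 1) - S3 π x Y
/-- the remainder -/
def C7 (π : Fin 9 → F) (x Y : F) : F :=
  fk π 7 * x ^ 5 - 2 * x ^ 2 * R3 π x * R4 π x Y + 2 * π 1 * S3 π x Y * S4 π x Y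
/-- the remainder -/
def C8 (π : Fin 9 → F) (x Y : F) : F :=
  fk π 8 * x ^ 6 - x ^ 2 * R4 π x Y ^ 2 + π 1 * S4 π x Y ^ 2

/-- the polynomial identity -/
lemma poly_id {A f2 f3 f4 f5 f6 f7 f8 r2 i y r3 s3 r4 s4 c7 c8 T : F} (hA : A ≠ 0)
    (hr2 : r2 = (f2 + A) / 2) (hr3 : r3 = f3 / 2 + A * i) (hs3 : s3 = r2 + i ^ 2 + y / A)
    (hr4 : r4 = (f4 - r2 ^ 2 + 2 * A * s3 + A * i ^ 2) / 2)
    (hs4 : s4 = (2 * r2 * r3 - f5) / (2 * A) - i * s3)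
    (hc7 : c7 = f7 - 2 * r3 * r4 + 2 * A * s3 * s4) (hc8 : c8 = f8 - r4 ^ 2 + A * s4 ^ 2)
    (hy : y ^ 2 = A ^ 2 * i ^ 4 + A ^ 2 * (f2 + 3 * A) / 2 * i ^ 2 +
      A * (f5 + f3 * (A - f2) / 2) * i +
      (A ^ 2 * r2 ^ 2 + A * (r2 * f4 - r2 ^ 3 + f3 ^ 2 / 4 - f6))) :
    (1 + r2 * T ^ 2 + r3 * T ^ 3 + r4 * T ^ 4) ^ 2 -
      A * (T + i * T ^ 2 + s3 * T ^ 3 + s4 * T ^ 4) ^ 2 =
    1 + f2 * T ^ 2 + f3 * T ^ 3 + f4 * T ^ 4 + f5 * T ^ 5 + f6 * T ^ 6 + f7 * T ^ 7 +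
      f8 * T ^ 8 - T ^ 7 * (c7 + c8 * T) := by
  have e2 : 2 * r2 - A = f2 := by rw [hr2]; ring
  have e3 : 2 * r3 - 2 * A * i = f3 := by rw [hr3]; ring
  have e4 : 2 * r4 + r2 ^ 2 - A * (2 * s3 + i ^ 2) = f4 := by rw [hr4]; ring
  have e5 : 2 * r2 * r3 - A * (2 * s4 + 2 * i * s3) = f5 := by rw [hs4]; field_simp; ring
  have hy' : (A * (s3 - r2 - i ^ 2)) ^ 2 = y ^ 2 := by
    rw [hs3]; field_simp; ring
  have e6 : 2 * r2 * r4 + r3 ^ 2 - A * (2 * i * s4 + s3 ^ 2) = f6 := by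
    rw [hy] at hy'
    apply mul_left_cancel₀ hA
    have h5 : f5 = 2 * r2 * r3 - A * (2 * s4 + 2 * i * s3) := e5.symm
    have h4 : f4 = 2 * r4 + r2 ^ 2 - A * (2 * s3 + i ^ 2) := e4.symm
    have h3 : f3 = 2 * r3 - 2 * A * i := e3.symm
    have h2 : f2 = 2 * r2 - A := e2.symm
    rw [h5, h4, h3, h2] at hy'
    linear_combination -hy'
  rw [hc7, hc8]
  linear_combination T ^ 2 * e2 + T ^ 3 * e3 + T ^ 4 * e4 + T ^ 5 * e5 + T ^ 6 * e6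

/-- **The new point.** -/
lemma new_pt {π : Fin 9 → F} {x Y : F} (hA : π 1 ≠ 0) (hx : x ≠ 0)
    (hY : Y ^ 2 = π 1 ^ 2 + cc π * x ^ 2 + cd π * x ^ 3 + ce π * x ^ 4)
    (h8 : C8 π x Y ≠ 0) {T : F} (hT : T = -(x * C7 π x Y / C8 π x Y)) :
    ∃ R S : F, R ^ 2 - π 1 * S ^ 2 = 1 + fk π 2 * T ^ 2 + fk π 3 * T ^ 3 + fk π 4 * T ^ 4 +
      fk π 5 * T ^ 5 + fk π 6 * T ^ 6 + fk π 7 * T ^ 7 + fk π 8 * T ^ 8 := by
  obtain ⟨i, hi⟩ : ∃ i, i = 1 / x := ⟨_, rfl⟩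
  have hix : i * x = 1 := by rw [hi]; field_simp
  obtain ⟨y, hy⟩ : ∃ y, y = Y * i ^ 2 := ⟨_, rfl⟩
  obtain ⟨r2, hr2⟩ : ∃ r2, r2 = (fk π 2 + π 1) / 2 := ⟨_, rfl⟩
  obtain ⟨r3, hr3⟩ : ∃ r3, r3 = fk π 3 / 2 + π 1 * i := ⟨_, rfl⟩
  obtain ⟨s3, hs3⟩ : ∃ s3, s3 = r2 + i ^ 2 + y / π 1 := ⟨_, rfl⟩
  obtain ⟨r4, hr4⟩ : ∃ r4, r4 = (fk π 4 - r2 ^ 2 + 2 * π 1 * s3 + π 1 * i ^ 2) / 2 := ⟨_, rfl⟩
  obtain ⟨s4, hs4⟩ : ∃ s4, s4 = (2 * r2 * r3 - fk π 5) / (2 * π 1) - i * s3 := ⟨_, rfl⟩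
  obtain ⟨c7, hc7⟩ : ∃ c7, c7 = fk π 7 - 2 * r3 * r4 + 2 * π 1 * s3 * s4 := ⟨_, rfl⟩
  obtain ⟨c8, hc8⟩ : ∃ c8, c8 = fk π 8 - r4 ^ 2 + π 1 * s4 ^ 2 := ⟨_, rfl⟩
  have hrr : ρ2 π = r2 := hr2.symm
  have k3 : S3 π x Y = x ^ 2 * s3 := by
    rw [S3, hrr, hs3, hy]
    have h1 : x ^ 2 * i ^ 2 = 1 := by rw [← mul_pow, mul_comm x i, hix, one_pow]
    field_simp
    linear_combination (-π 1 - Y) * h1
  have kR3 : R3 π x = x * r3 := by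
    rw [R3, hr3]
    linear_combination -π 1 * hix
  have kR4 : R4 π x Y = x ^ 2 * r4 := by
    rw [R4, k3, hrr, hr4]
    have h1 : x ^ 2 * i ^ 2 = 1 := by rw [← mul_pow, mul_comm x i, hix, one_pow]
    linear_combination -π 1 / 2 * h1
  have k4 : S4 π x Y = x ^ 3 * s4 := by
    rw [S4, kR3, k3, hrr, hs4]
    linear_combination x ^ 2 * s3 * hix
  have k7 : C7 π x Y = x ^ 5 * c7 := by
    rw [C7, kR3, kR4, k3, k4, hc7]; ring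
  have k8 : C8 π x Y = x ^ 6 * c8 := by
    rw [C8, kR4, k4, hc8]; ring
  have hc8' : c8 ≠ 0 := by
    intro h0
    apply h8
    rw [k8, h0, mul_zero]
  have hT0 : c7 + c8 * T = 0 := by
    rw [hT, k7, k8]
    field_simp
    ring
  have hyq : y ^ 2 = π 1 ^ 2 * i ^ 4 + π 1 ^ 2 * (fk π 2 + 3 * π 1) / 2 * i ^ 2 +
      π 1 * (fk π 5 + fk π 3 * (π 1 - fk π 2) / 2) * i +
      (π 1 ^ 2 * r2 ^ 2 + π 1 * (r2 * fk π 4 - r2 ^ 3 + fk π 3 ^ 2 / 4 - fk π 6)) := by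
    rw [hy, mul_pow, hY]
    unfold cc cd ce
    rw [hrr]
    have h2 : x ^ 2 * i ^ 2 = 1 := by rw [← mul_pow, mul_comm x i, hix, one_pow]
    have h3 : x ^ 3 * i ^ 4 = i := by
      linear_combination (x ^ 2 * i ^ 3 + x * i ^ 2 + i) * hix
    have h4 : x ^ 4 * i ^ 4 = 1 := by rw [← mul_pow, mul_comm x i, hix, one_pow]
    linear_combination (π 1 ^ 2 * (fk π 2 + 3 * π 1) / 2 * i ^ 2) * h2 +
      π 1 * (fk π 5 + fk π 3 * (π 1 - fk π 2) / 2) * h3 +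
      (π 1 ^ 2 * r2 ^ 2 + π 1 * (r2 * fk π 4 - r2 ^ 3 + fk π 3 ^ 2 / 4 - fk π 6)) * h4
  have key := poly_id (T := T) hA hr2 hr3 hs3 hr4 hs4 hc7 hc8 hyq
  rw [hT0, mul_zero, sub_zero] at key
  exact ⟨_, _, key⟩

end alg

end Pool.Agent.H436.CB
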