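import Pool.Agent.H436.CB.Mov

/-!
# Conditions along a line, and moves (helper436)

A condition is a vector of ten numbers: the entries `0, ..., 8` are the coefficients of a
polynomial `g` of degree at most eight in one variable, the entry `9` is the constant `a`.
The condition at the parameter `u` says that `g(u) / g(0)` is a norm from `F(√a)`.
-/

set_option autoImplicit false
set_option linter.unusedVariables false
set_option linter.unusedSectionVars false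
set_option linter.deprecated false
set_option linter.unusedSimpArgs false

open Filter Topology Pool.Agent.Y720.MZ

namespace Pool.Agent.H436.CB

section alg

variable {F : Type*} [Field F] [CharZero F]

/-- the shift of the parameter -/
def nc (g : Fin 10 → F) : F := -g 1 / (8 * g 0)

/-- the normalized coefficients -/
def nk (g : Fin 10 → F) : Fin 9 → F :=
  ![0, g 9, (28 * nc g ^ 2 * g 0 + 7 * nc g * g 1 + g 2) / g 0,
    (56 * nc g ^ 3 * g 0 + 21 * nc g ^ 2 * g 1 + 6 * nc g * g 2 + g 3) / g 0,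
    (70 * nc g ^ 4 * g 0 + 35 * nc g ^ 3 * g 1 + 15 * nc g ^ 2 * g 2 + 5 * nc g * g 3 + g 4) / g 0,
    (56 * nc g ^ 5 * g 0 + 35 * nc g ^ 4 * g 1 + 20 * nc g ^ 3 * g 2 + 10 * nc g ^ 2 * g 3 +
      4 * nc g * g 4 + g 5) / g 0,
    (28 * nc g ^ 6 * g 0 + 21 * nc g ^ 5 * g 1 + 15 * nc g ^ 4 * g 2 + 10 * nc g ^ 3 * g 3 +
      6 * nc g ^ 2 * g 4 + 3 * nc g * g 5 + g 6) / g 0,
    (8 * nc g ^ 7 * g 0 + 7 * nc g ^ 6 * g 1 + 6 * nc g ^ 5 * g 2 + 5 * nc g ^ 4 * g 3 +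
      4 * nc g ^ 3 * g 4 + 3 * nc g ^ 2 * g 5 + 2 * nc g * g 6 + g 7) / g 0,
    (nc g ^ 8 * g 0 + nc g ^ 7 * g 1 + nc g ^ 6 * g 2 + nc g ^ 5 * g 3 +
      nc g ^ 4 * g 4 + nc g ^ 3 * g 5 + nc g ^ 2 * g 6 + nc g * g 7 + g 8) / g 0]

/-- the value of the polynomial -/
def gv {R : Type*} [CommRing R] (g : Fin 10 → R) (u : R) : R :=
  g 0 + g 1 * u + g 2 * u ^ 2 + g 3 * u ^ 3 + g 4 * u ^ 4 + g 5 * u ^ 5 + g 6 * u ^ 6 +
    g 7 * u ^ 7 + g 8 * u ^ 8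

/-- the covariant for degree eight -/
def Φg {R : Type*} [CommRing R] (g : Fin 10 → R) : R :=
  7 * g 1 ^ 3 - 24 * g 0 * g 1 * g 2 + 32 * g 0 ^ 2 * g 3

/-- the covariant for degree four -/
def Tg {R : Type*} [CommRing R] (g : Fin 10 → R) : R :=
  g 1 ^ 3 - 4 * g 0 * g 1 * g 2 + 8 * g 0 ^ 2 * g 3

/-- the Hessian for degree four -/
def Hg {R : Type*} [CommRing R] (g : Fin 10 → R) : R := 8 * g 0 * g 2 - 3 * g 1 ^ 2

/-- the discriminant for degree two -/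
def Dg {R : Type*} [CommRing R] (g : Fin 10 → R) : R := g 1 ^ 2 - 4 * g 0 * g 2

/-- the covariant for degree six -/
def Ψg {R : Type*} [CommRing R] (g : Fin 10 → R) : R :=
  5 * g 1 ^ 3 - 18 * g 0 * g 1 * g 2 + 27 * g 0 ^ 2 * g 3

/-- the condition at a parameter -/
def Sol (g : Fin 10 → F) (u : F) : Prop := ∃ R S : F, g 0 * (R ^ 2 - g 9 * S ^ 2) = gv g u

lemma nk_one (g : Fin 10 → F) : nk g 1 = g 9 := rfl

lemma nk_three {g : Fin 10 → F} (h0 : g 0 ≠ 0) : nk g 3 * (32 * g 0 ^ 3) = Φg g := by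
  change (56 * nc g ^ 3 * g 0 + 21 * nc g ^ 2 * g 1 + 6 * nc g * g 2 + g 3) / g 0 * _ = _
  rw [nc, Φg]
  field_simp
  ring

/-- the normalization -/
lemma norm_id {g : Fin 10 → F} (h0 : g 0 ≠ 0) {u : F} (hu : 1 + nc g * u ≠ 0) :
    g 0 * pv (nk g) u = (1 + nc g * u) ^ 8 * gv g (u / (1 + nc g * u)) := by
  have h1 : 8 * nc g * g 0 + g 1 = 0 := by
    rw [nc]; field_simp; ring
  obtain ⟨c, hc⟩ : ∃ c, c = nc g := ⟨_, rfl⟩
  obtain ⟨d, hd⟩ : ∃ d, d = 1 + c * u := ⟨_, rfl⟩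
  have e1 : (1 + nc g * u) ^ 8 * gv g (u / (1 + nc g * u)) =
      g 0 * d ^ 8 + g 1 * u * d ^ 7 + g 2 * u ^ 2 * d ^ 6 + g 3 * u ^ 3 * d ^ 5 +
      g 4 * u ^ 4 * d ^ 4 + g 5 * u ^ 5 * d ^ 3 + g 6 * u ^ 6 * d ^ 2 + g 7 * u ^ 7 * d +
      g 8 * u ^ 8 := by
    rw [← hc, ← hd] at hu ⊢
    unfold gv
    field_simp
  rw [e1]
  have e2 : g 0 * pv (nk g) u = g 0 + (28 * c ^ 2 * g 0 + 7 * c * g 1 + g 2) * u ^ 2 +
    (56 * c ^ 3 * g 0 + 21 * c ^ 2 * g 1 + 6 * c * g 2 + g 3) * u ^ 3 +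
    (70 * c ^ 4 * g 0 + 35 * c ^ 3 * g 1 + 15 * c ^ 2 * g 2 + 5 * c * g 3 + g 4) * u ^ 4 +
    (56 * c ^ 5 * g 0 + 35 * c ^ 4 * g 1 + 20 * c ^ 3 * g 2 + 10 * c ^ 2 * g 3 +
      4 * c * g 4 + g 5) * u ^ 5 +
    (28 * c ^ 6 * g 0 + 21 * c ^ 5 * g 1 + 15 * c ^ 4 * g 2 + 10 * c ^ 3 * g 3 +
      6 * c ^ 2 * g 4 + 3 * c * g 5 + g 6) * u ^ 6 +
    (8 * c ^ 7 * g 0 + 7 * c ^ 6 * g 1 + 6 * c ^ 5 * g 2 + 5 * c ^ 4 * g 3 +
      4 * c ^ 3 * g 4 + 3 * c ^ 2 * g 5 + 2 * c * g 6 + g 7) * u ^ 7 +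
    (c ^ 8 * g 0 + c ^ 7 * g 1 + c ^ 6 * g 2 + c ^ 5 * g 3 +
      c ^ 4 * g 4 + c ^ 3 * g 5 + c ^ 2 * g 6 + c * g 7 + g 8) * u ^ 8 := by
    rw [hc]
    unfold pv
    rw [show nk g 2 = (28 * nc g ^ 2 * g 0 + 7 * nc g * g 1 + g 2) / g 0 from rfl,
      show nk g 3 = (56 * nc g ^ 3 * g 0 + 21 * nc g ^ 2 * g 1 + 6 * nc g * g 2 + g 3) / g 0
        from rfl,
      show nk g 4 = (70 * nc g ^ 4 * g 0 + 35 * nc g ^ 3 * g 1 + 15 * nc g ^ 2 * g 2 +
        5 * nc g * g 3 + g 4) / g 0 from rfl,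
      show nk g 5 = (56 * nc g ^ 5 * g 0 + 35 * nc g ^ 4 * g 1 + 20 * nc g ^ 3 * g 2 +
        10 * nc g ^ 2 * g 3 + 4 * nc g * g 4 + g 5) / g 0 from rfl,
      show nk g 6 = (28 * nc g ^ 6 * g 0 + 21 * nc g ^ 5 * g 1 + 15 * nc g ^ 4 * g 2 +
        10 * nc g ^ 3 * g 3 + 6 * nc g ^ 2 * g 4 + 3 * nc g * g 5 + g 6) / g 0 from rfl,
      show nk g 7 = (8 * nc g ^ 7 * g 0 + 7 * nc g ^ 6 * g 1 + 6 * nc g ^ 5 * g 2 +
        5 * nc g ^ 4 * g 3 + 4 * nc g ^ 3 * g 4 + 3 * nc g ^ 2 * g 5 + 2 * nc g * g 6 + g 7) / g 0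
        from rfl,
      show nk g 8 = (nc g ^ 8 * g 0 + nc g ^ 7 * g 1 + nc g ^ 6 * g 2 + nc g ^ 5 * g 3 +
      nc g ^ 4 * g 4 + nc g ^ 3 * g 5 + nc g ^ 2 * g 6 + nc g * g 7 + g 8) / g 0 from rfl]
    field_simp
  rw [e2, hd]
  rw [← hc] at h1
  linear_combination -u * h1

end alg

section loc

variable {L : Type*} [NontriviallyNormedField L] [CompleteSpace L] [CharZero L]

lemma nc_cont {g₀ : Fin 10 → L} (h0 : g₀ 0 ≠ 0) :
    ContinuousAt (fun g : Fin 10 → L => nc g) g₀ := by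
  unfold nc
  exact ContinuousAt.div (continuous_apply 1).continuousAt.neg
    (continuousAt_const.mul (continuous_apply 0).continuousAt) (mul_ne_zero (by norm_num) h0)

lemma nk_cont {g₀ : Fin 10 → L} (h0 : g₀ 0 ≠ 0) (k : Fin 9) :
    ContinuousAt (fun g : Fin 10 → L => nk g k) g₀ := by
  have hp : ContinuousAt (fun g : Fin 10 → L => (nc g, g)) g₀ :=
    (nc_cont h0).prodMk continuousAt_id
  have e0 : ContinuousAt (fun g : Fin 10 → L => g 0) g₀ := (continuous_apply 0).continuousAt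
  have key : ∀ P : L × (Fin 10 → L) → L, Continuous P →
      ContinuousAt (fun g : Fin 10 → L => P (nc g, g) / g 0) g₀ := fun P hP =>
    ContinuousAt.div (ContinuousAt.comp (g := P) hP.continuousAt hp) e0 h0
  fin_cases k
  · exact continuousAt_const
  · exact (continuous_apply 9).continuousAt
  · exact key (fun e => 28 * e.1 ^ 2 * e.2 0 + 7 * e.1 * e.2 1 + e.2 2) (by fun_prop)
  · exact key (fun e => 56 * e.1 ^ 3 * e.2 0 + 21 * e.1 ^ 2 * e.2 1 + 6 * e.1 * e.2 2 + e.2 3)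
      (by fun_prop)
  · exact key (fun e => 70 * e.1 ^ 4 * e.2 0 + 35 * e.1 ^ 3 * e.2 1 + 15 * e.1 ^ 2 * e.2 2 +
      5 * e.1 * e.2 3 + e.2 4) (by fun_prop)
  · exact key (fun e => 56 * e.1 ^ 5 * e.2 0 + 35 * e.1 ^ 4 * e.2 1 + 20 * e.1 ^ 3 * e.2 2 +
      10 * e.1 ^ 2 * e.2 3 + 4 * e.1 * e.2 4 + e.2 5) (by fun_prop)
  · exact key (fun e => 28 * e.1 ^ 6 * e.2 0 + 21 * e.1 ^ 5 * e.2 1 + 15 * e.1 ^ 4 * e.2 2 +
      10 * e.1 ^ 3 * e.2 3 + 6 * e.1 ^ 2 * e.2 4 + 3 * e.1 * e.2 5 + e.2 6) (by fun_prop)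
  · exact key (fun e => 8 * e.1 ^ 7 * e.2 0 + 7 * e.1 ^ 6 * e.2 1 + 6 * e.1 ^ 5 * e.2 2 +
      5 * e.1 ^ 4 * e.2 3 + 4 * e.1 ^ 3 * e.2 4 + 3 * e.1 ^ 2 * e.2 5 + 2 * e.1 * e.2 6 + e.2 7)
      (by fun_prop)
  · exact key (fun e => e.1 ^ 8 * e.2 0 + e.1 ^ 7 * e.2 1 + e.1 ^ 6 * e.2 2 + e.1 ^ 5 * e.2 3 +
      e.1 ^ 4 * e.2 4 + e.1 ^ 3 * e.2 5 + e.1 ^ 2 * e.2 6 + e.1 * e.2 7 + e.2 8) (by fun_prop)

/-- uniform estimates for the normalization -/
lemma norm_unif {g₀ : Fin 10 → L} (h0 : g₀ 0 ≠ 0) {δ : ℝ} (hδ : 0 < δ) :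
    ∃ δ' : ℝ, 0 < δ' ∧ ∀ (g : Fin 10 → L) (t : L), (∀ k, ‖g k - g₀ k‖ < δ') → ‖t‖ < δ' →
      g 0 ≠ 0 ∧ (∀ k, ‖nk g k - nk g₀ k‖ < δ) ∧ 1 - nc g * t ≠ 0 ∧
      ‖t / (1 - nc g * t)‖ < δ := by
  have hfst : ContinuousAt (fun e : (Fin 10 → L) × L => e.1) (g₀, 0) := continuousAt_fst
  have hsnd : ContinuousAt (fun e : (Fin 10 → L) × L => e.2) (g₀, 0) := continuousAt_snd
  have hnc : ContinuousAt (fun e : (Fin 10 → L) × L => nc e.1) (g₀, 0) :=
    ContinuousAt.comp (f := fun e : (Fin 10 → L) × L => e.1) (g := nc) (nc_cont h0) hfst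
  have hnk : ∀ k, ContinuousAt (fun e : (Fin 10 → L) × L => nk e.1 k) (g₀, 0) := fun k =>
    ContinuousAt.comp (f := fun e : (Fin 10 → L) × L => e.1) (g := fun g => nk g k)
      (nk_cont h0 k) hfst
  have hd : ContinuousAt (fun e : (Fin 10 → L) × L => 1 - nc e.1 * e.2) (g₀, 0) :=
    continuousAt_const.sub (hnc.mul hsnd)
  have hd0 : (fun e : (Fin 10 → L) × L => 1 - nc e.1 * e.2) (g₀, 0) ≠ 0 := by
    simp
  have hq : ContinuousAt (fun e : (Fin 10 → L) × L => ‖e.2 / (1 - nc e.1 * e.2)‖) (g₀, 0) :=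
    (hsnd.div hd hd0).norm
  have h00 : ContinuousAt (fun e : (Fin 10 → L) × L => e.1 0) (g₀, 0) := by fun_prop
  have k1 := h00.eventually_ne (y := 0) h0
  have k2 := hd.eventually_ne hd0
  have k3 := hq.eventually_lt_const (u := δ) (by simpa using hδ)
  have k4 : ∀ᶠ e in 𝓝 ((g₀, 0) : (Fin 10 → L) × L), ∀ k, ‖nk e.1 k - nk g₀ k‖ < δ := by
    rw [eventually_all]
    intro k
    exact (((hnk k).sub continuousAt_const).norm).eventually_lt_const (by simpa using hδ)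
  obtain ⟨δ', hδ', hb⟩ := Metric.eventually_nhds_iff_ball.1 (k1.and (k2.and (k3.and k4)))
  refine ⟨δ', hδ', fun g t hg ht => ?_⟩
  obtain ⟨j1, j2, j3, j4⟩ := hb (g, t) (by
    rw [Metric.mem_ball, Prod.dist_eq]
    refine max_lt ?_ ?_
    · rw [dist_pi_lt_iff hδ']
      intro k
      rw [dist_eq_norm]
      exact hg k
    · rw [dist_eq_norm, sub_zero]; exact ht)
  exact ⟨j1, j4, j2, j3⟩

/-- continuity of the change of the parameter -/
lemma mob_cont {c t : L} (h : 1 - c * t ≠ 0) {η : ℝ} (hη : 0 < η) :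
    ∃ δ : ℝ, 0 < δ ∧ ∀ u : L, ‖u - t / (1 - c * t)‖ < δ → 1 + c * u ≠ 0 ∧
      ‖u / (1 + c * u) - t‖ < η := by
  set u₀ := t / (1 - c * t) with hu₀
  have h1 : 1 + c * u₀ = 1 / (1 - c * t) := by
    rw [hu₀]; field_simp; ring
  have h2 : 1 + c * u₀ ≠ 0 := by
    rw [h1]; exact one_div_ne_zero h
  have h3 : u₀ / (1 + c * u₀) = t := by
    rw [h1, hu₀, div_div_div_cancel_right₀ h, div_one]
  have c1 : ContinuousAt (fun u : L => 1 + c * u) u₀ := by fun_prop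
  have c2 : ContinuousAt (fun u : L => ‖u / (1 + c * u) - t‖) u₀ :=
    ((continuousAt_id.div c1 h2).sub continuousAt_const).norm
  obtain ⟨δ, hδ, hb⟩ := Metric.eventually_nhds_iff_ball.1
    ((c1.eventually_ne h2).and (c2.eventually_lt_const (u := η) (by
      dsimp only
      rw [h3, sub_self, norm_zero]; exact hη)))
  refine ⟨δ, hδ, fun u hu => hb u ?_⟩
  rw [Metric.mem_ball, dist_eq_norm]
  exact hu

end loc

section glob

variable {K : Type*} [Field K] [CharZero K] {V : Type*} [Finite V] {L : V → Type*}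
  [∀ v, NontriviallyNormedField (L v)] [∀ v, CompleteSpace (L v)] [∀ v, CharZero (L v)]
  {s : ∀ v, K →+* L v}

/-- small moves of the parameter: for all rational data close to given local data and all small
local parameters there is a close rational parameter with the property -/
def Mv (s : ∀ v, K →+* L v) {ι : Type*} (Q : (ι → K) → K → Prop) (θ₀ : ∀ v, ι → L v) : Prop :=
  ∃ δ : ℝ, 0 < δ ∧ ∀ θ : ι → K, (∀ v k, ‖s v (θ k) - θ₀ v k‖ < δ) →
    ∀ t : ∀ v, L v, (∀ v, ‖t v‖ < δ) → ∀ η : ℝ, 0 < η →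
      ∃ u : K, Q θ u ∧ ∀ v, ‖s v u - t v‖ < η

/-- the moves for one condition of degree at most eight -/
def M8 (s : ∀ v, K →+* L v) : Prop :=
  ∀ θ₀ : ∀ v, Fin 10 → L v, (∀ v, θ₀ v 9 ≠ 0) → (∀ v, θ₀ v 0 ≠ 0) → (∀ v, Φg (θ₀ v) ≠ 0) →
    Mv s Sol θ₀

lemma nc_map {L : Type*} [Field L] [CharZero L] (φ : K →+* L) (g : Fin 10 → K) :
    φ (nc g) = nc (fun k => φ (g k)) := by
  simp only [nc, map_div₀, map_neg, map_mul, map_ofNat]

lemma nk_map {L : Type*} [Field L] [CharZero L] (φ : K →+* L) (g : Fin 10 → K) (k : Fin 9) :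
    φ (nk g k) = nk (fun k => φ (g k)) k := by
  fin_cases k
  · exact map_zero φ
  · rfl
  all_goals
    dsimp only [nk]
    simp [nc_map, map_div₀, map_add, map_mul, map_pow, map_ofNat]

/-- the solution of a condition from the solution of the normalized condition -/
lemma sol_of_pv {g : Fin 10 → K} (hg0 : g 0 ≠ 0) {τ u R S : K} (hcu : 1 + nc g * u ≠ 0)
    (k1 : R ^ 2 - Function.update (nk g) 0 τ 1 * S ^ 2 = pv (Function.update (nk g) 0 τ) u) :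
    Sol g (u / (1 + nc g * u)) := by
  refine ⟨R / (1 + nc g * u) ^ 4, S / (1 + nc g * u) ^ 4, ?_⟩
  have e1 : pv (Function.update (nk g) 0 τ) u = pv (nk g) u := by
    unfold pv
    rw [Function.update_of_ne (by decide), Function.update_of_ne (by decide),
      Function.update_of_ne (by decide), Function.update_of_ne (by decide),
      Function.update_of_ne (by decide), Function.update_of_ne (by decide),
      Function.update_of_ne (by decide)]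
  have e3 : Function.update (nk g) 0 τ 1 = g 9 := by
    rw [Function.update_of_ne (by decide)]
    rfl
  rw [e1, e3] at k1
  have e2 := norm_id hg0 hcu
  rw [← k1] at e2
  obtain ⟨d, hd⟩ : ∃ d, d = 1 + nc g * u := ⟨_, rfl⟩
  rw [← hd] at hcu e2 ⊢
  have h8 : d ^ 8 ≠ 0 := pow_ne_zero 8 hcu
  apply mul_left_cancel₀ h8
  rw [← e2]
  field_simp

/-- **Moves along a line.** -/
theorem M8_of_HW [Nonempty V] (HWs : HW s) (hden : Dn s) : M8 s := by
  intro g₀ hA h0 h3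
  have h3' : ∀ v, nk (g₀ v) 3 ≠ 0 := by
    intro v h
    apply h3 v
    rw [← nk_three (h0 v), h, zero_mul]
  choose τ₀ hτ₀ hIO using fun v => io_gen (n := nk (g₀ v)) (by rw [nk_one]; exact hA v) (h3' v)
  obtain ⟨δ₁, hδ₁, hmv⟩ := mv_par HWs (π₀ := fun v => Function.update (nk (g₀ v)) 0 (τ₀ v))
    (fun v => by rw [Function.update_of_ne (by decide), nk_one]; exact hA v)
    (fun v => by rw [Function.update_self]; exact hτ₀ v) hIO
  choose δn hδn hn using fun v => norm_unif (h0 v) hδ₁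
  obtain ⟨δ₂, hδ₂, hm₂⟩ := fin_min hδn
  obtain ⟨τ, hτ⟩ := hden τ₀ δ₁ hδ₁
  refine ⟨δ₂, hδ₂, fun g hg t ht η hη => ?_⟩
  have hh := fun v => hn v (fun k => s v (g k)) (t v) (fun k => (hg v k).trans_le (hm₂ v))
    ((ht v).trans_le (hm₂ v))
  choose δm hδm hmc using fun v => mob_cont (hh v).2.2.1 hη
  obtain ⟨δ₃, hδ₃, hm₃⟩ := fin_min hδm
  obtain ⟨u, R, S, k1, k2⟩ := hmv (Function.update (nk g) 0 τ) (fun v k => by
      by_cases hk : k = 0
      · subst hk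
        rw [Function.update_self, Function.update_self]
        exact hτ v
      · rw [Function.update_of_ne hk, Function.update_of_ne hk, nk_map]
        exact (hh v).2.1 k)
    (fun v => t v / (1 - nc (fun k => s v (g k)) * t v)) (fun v => (hh v).2.2.2) δ₃ hδ₃
  obtain ⟨v₀⟩ := ‹Nonempty V›
  have hg0 : g 0 ≠ 0 := by
    intro h
    apply (hh v₀).1
    rw [h, map_zero]
  have hu : ∀ v, _ := fun v => hmc v (s v u) ((k2 v).trans_le (hm₃ v))
  have hcu : 1 + nc g * u ≠ 0 := by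
    intro h
    apply (hu v₀).1
    rw [← nc_map, ← map_mul, ← map_one (s v₀), ← map_add, h, map_zero]
  refine ⟨u / (1 + nc g * u), sol_of_pv hg0 hcu k1, fun v => ?_⟩
  have h4 := (hu v).2
  rw [← nc_map] at h4
  rw [map_div₀, map_add, map_mul, map_one]
  exact h4

end glob

end Pool.Agent.H436.CB
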