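import Pool.Agent.H436.CB.Sys

/-!
# The fibres (helper436)
-/

set_option autoImplicit false
set_option linter.unusedVariables false
set_option linter.unusedSectionVars false
set_option linter.deprecated false
set_option linter.unusedSimpArgs false

open Filter Topology Pool.Agent.Y720.MZ

namespace Pool.Agent.H436.CB

universe u w

section loc

variable {L : Type*} [NontriviallyNormedField L] [CharZero L]

/-- elements of norm one, different from minus one -/
lemma one_near {A : L} (hA : A ≠ 0) {x y : L} (h : x ^ 2 - A * y ^ 2 = 1) {η : ℝ} (hη : 0 < η) :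
    ∃ x' y' : L, x' ^ 2 - A * y' ^ 2 = 1 ∧ x' ≠ -1 ∧ ‖x' - x‖ < η ∧ ‖y' - y‖ < η := by
  by_cases hx : x = -1
  · subst hx
    have hy : y = 0 := by
      have h1 : A * y ^ 2 = 0 := by linear_combination -h
      exact pow_eq_zero_iff (two_ne_zero) |>.1 ((mul_eq_zero.1 h1).resolve_left hA)
    subst hy
    have c0 : ContinuousAt (fun m : L => 1 - A * m ^ 2) 0 := by fun_prop
    have h0 : (fun m : L => 1 - A * m ^ 2) 0 ≠ 0 := by simp
    have c1 : ContinuousAt (fun m : L => ‖-((1 + A * m ^ 2) / (1 - A * m ^ 2)) - -1‖) 0 :=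
      ((ContinuousAt.div (by fun_prop) c0 h0).neg.sub continuousAt_const).norm
    have c2 : ContinuousAt (fun m : L => ‖-(2 * m / (1 - A * m ^ 2)) - 0‖) 0 :=
      ((ContinuousAt.div (by fun_prop) c0 h0).neg.sub continuousAt_const).norm
    obtain ⟨ρ, hρ, hb⟩ := Metric.eventually_nhds_iff_ball.1 ((c0.eventually_ne h0).and
      ((c1.eventually_lt_const (u := η) (by simpa using hη)).and
        (c2.eventually_lt_const (u := η) (by simpa using hη))))
    obtain ⟨m, hm0, hm⟩ := NormedField.exists_norm_lt L hρ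
    obtain ⟨g1, g2, g3⟩ := hb m (by rwa [mem_ball_zero_iff])
    have hm0' : m ≠ 0 := norm_pos_iff.1 hm0
    refine ⟨-((1 + A * m ^ 2) / (1 - A * m ^ 2)), -(2 * m / (1 - A * m ^ 2)), ?_, ?_, g2, g3⟩
    · field_simp
      ring
    · intro h1
      have h2 : (1 + A * m ^ 2) / (1 - A * m ^ 2) = 1 := neg_inj.1 h1
      rw [div_eq_one_iff_eq g1] at h2
      apply mul_ne_zero (mul_ne_zero two_ne_zero hA) (pow_ne_zero 2 hm0')
      linear_combination h2
  · exact ⟨x, y, h, hx, by rwa [sub_self, norm_zero], by rwa [sub_self, norm_zero]⟩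

/-- continuity of the parametrization -/
lemma one_cont {A : L} {x y : L} (h : x ^ 2 - A * y ^ 2 = 1) (hx : x ≠ -1) {η : ℝ} (hη : 0 < η) :
    ∃ δ : ℝ, 0 < δ ∧ ∀ m : L, ‖m - y / (1 + x)‖ < δ → 1 - A * m ^ 2 ≠ 0 ∧
      ‖(1 + A * m ^ 2) / (1 - A * m ^ 2) - x‖ < η ∧ ‖2 * m / (1 - A * m ^ 2) - y‖ < η := by
  have hx1 : 1 + x ≠ 0 := by
    intro h0
    exact hx (by linear_combination h0)
  set m₀ := y / (1 + x) with hm₀
  have e1 : 1 - A * m₀ ^ 2 = 2 / (1 + x) := by
    rw [hm₀]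
    field_simp
    linear_combination h
  have e2 : 1 + A * m₀ ^ 2 = 2 * x / (1 + x) := by
    rw [hm₀]
    field_simp
    linear_combination -h
  have hd : 1 - A * m₀ ^ 2 ≠ 0 := by
    rw [e1]; exact div_ne_zero two_ne_zero hx1
  have v1 : (1 + A * m₀ ^ 2) / (1 - A * m₀ ^ 2) = x := by
    rw [e1, e2]; field_simp
  have v2 : 2 * m₀ / (1 - A * m₀ ^ 2) = y := by
    rw [e1, hm₀]; field_simp
  have c0 : ContinuousAt (fun m : L => 1 - A * m ^ 2) m₀ := by fun_prop
  have c1 : ContinuousAt (fun m : L => ‖(1 + A * m ^ 2) / (1 - A * m ^ 2) - x‖) m₀ :=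
    ((ContinuousAt.div (by fun_prop) c0 hd).sub continuousAt_const).norm
  have c2 : ContinuousAt (fun m : L => ‖2 * m / (1 - A * m ^ 2) - y‖) m₀ :=
    ((ContinuousAt.div (by fun_prop) c0 hd).sub continuousAt_const).norm
  obtain ⟨δ, hδ, hb⟩ := Metric.eventually_nhds_iff_ball.1 ((c0.eventually_ne hd).and
    ((c1.eventually_lt_const (u := η) (by dsimp only; rw [v1, sub_self, norm_zero]; exact hη)).and
      (c2.eventually_lt_const (u := η) (by
        dsimp only; rw [v2, sub_self, norm_zero]; exact hη))))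
  refine ⟨δ, hδ, fun m hm => hb m ?_⟩
  rw [Metric.mem_ball, dist_eq_norm]
  exact hm

/-- continuity of the multiplication -/
lemma mul_cont {A R₀ S₀ : L} (x y : L) {η : ℝ} (hη : 0 < η) :
    ∃ δ : ℝ, 0 < δ ∧ ∀ x' y' : L, ‖x' - x‖ < δ → ‖y' - y‖ < δ →
      ‖(R₀ * x' + A * S₀ * y') - (R₀ * x + A * S₀ * y)‖ < η ∧
      ‖(R₀ * y' + S₀ * x') - (R₀ * y + S₀ * x)‖ < η := by
  have c1 : ContinuousAt (fun e : L × L => ‖(R₀ * e.1 + A * S₀ * e.2) -
      (R₀ * x + A * S₀ * y)‖) (x, y) := by fun_prop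
  have c2 : ContinuousAt (fun e : L × L => ‖(R₀ * e.2 + S₀ * e.1) -
      (R₀ * y + S₀ * x)‖) (x, y) := by fun_prop
  obtain ⟨δ, hδ, hb⟩ := Metric.eventually_nhds_iff_ball.1
    ((c1.eventually_lt_const (u := η) (by dsimp only; rw [sub_self, norm_zero]; exact hη)).and
      (c2.eventually_lt_const (u := η) (by dsimp only; rw [sub_self, norm_zero]; exact hη)))
  refine ⟨δ, hδ, fun x' y' h1 h2 => hb (x', y') ?_⟩
  rw [Metric.mem_ball, Prod.dist_eq]
  refine max_lt ?_ ?_
  · rw [dist_eq_norm]; exact h1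
  · rw [dist_eq_norm]; exact h2

/-- nearby conics have nearby points -/
lemma con_near [CompleteSpace L] {A B R S : L} (hA : A ≠ 0) (hB : B ≠ 0)
    (h : R ^ 2 - A * S ^ 2 = B) {η : ℝ} (hη : 0 < η) :
    ∃ ρ : ℝ, 0 < ρ ∧ ∀ A' B' : L, ‖A' - A‖ < ρ → ‖B' - B‖ < ρ →
      ∃ R' S' : L, R' ^ 2 - A' * S' ^ 2 = B' ∧ ‖R' - R‖ < η ∧ ‖S' - S‖ < η := by
  by_cases hR : R = 0
  · have hS : S ≠ 0 := by
      rintro rfl
      apply hB
      rw [← h, hR]
      ring
    obtain ⟨δ, hδ, hs⟩ := exists_sqrt hS hη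
    have c0 : ContinuousAt (fun e : L × L => e.1) (A, B) := by fun_prop
    have hval : -B / A = S ^ 2 := by
      rw [← h, hR]
      field_simp
      ring
    have c1 : ContinuousAt (fun e : L × L => ‖-e.2 / e.1 - S ^ 2‖) (A, B) := by
      have : ContinuousAt (fun e : L × L => -e.2 / e.1) (A, B) :=
        ContinuousAt.div (by fun_prop) c0 hA
      exact (this.sub continuousAt_const).norm
    obtain ⟨ρ, hρ, hb⟩ := Metric.eventually_nhds_iff_ball.1 ((c0.eventually_ne hA).and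
      (c1.eventually_lt_const (u := δ) (by
        dsimp only; rw [hval, sub_self, norm_zero]; exact hδ)))
    refine ⟨ρ, hρ, fun A' B' h1 h2 => ?_⟩
    obtain ⟨g1, g2⟩ := hb (A', B') (by
      rw [Metric.mem_ball, Prod.dist_eq]
      refine max_lt ?_ ?_
      · rw [dist_eq_norm]; exact h1
      · rw [dist_eq_norm]; exact h2)
    dsimp only at g1 g2
    obtain ⟨S', k1, k2⟩ := hs _ g2
    refine ⟨0, S', ?_, by rw [hR, sub_self, norm_zero]; exact hη, k1⟩
    rw [k2]
    field_simp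
    ring
  · obtain ⟨δ, hδ, hs⟩ := exists_sqrt hR hη
    have hval : B + A * S ^ 2 = R ^ 2 := by rw [← h]; ring
    have c1 : ContinuousAt (fun e : L × L => ‖e.2 + e.1 * S ^ 2 - R ^ 2‖) (A, B) := by fun_prop
    obtain ⟨ρ, hρ, hb⟩ := Metric.eventually_nhds_iff_ball.1
      (c1.eventually_lt_const (u := δ) (by
        dsimp only; rw [hval, sub_self, norm_zero]; exact hδ))
    refine ⟨ρ, hρ, fun A' B' h1 h2 => ?_⟩
    have g2 := hb (A', B') (by
      rw [Metric.mem_ball, Prod.dist_eq]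
      refine max_lt ?_ ?_
      · rw [dist_eq_norm]; exact h1
      · rw [dist_eq_norm]; exact h2)
    dsimp only at g2
    obtain ⟨R', k1, k2⟩ := hs _ g2
    refine ⟨R', S, ?_, k1, by rw [sub_self, norm_zero]; exact hη⟩
    rw [k2]
    ring

end loc

section glob

variable {K : Type*} [Field K] [CharZero K] {V : Type*} [Finite V] {L : V → Type*}
  [∀ v, NontriviallyNormedField (L v)] [∀ v, CompleteSpace (L v)] [∀ v, CharZero (L v)]
  {s : ∀ v, K →+* L v} {α : Type*} [Fintype α] {I : Type*} [Fintype I]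

/-- weak approximation for elements of norm one -/
lemma one_wa (hden : Dn s) {a : K} (ha : a ≠ 0) {x y : ∀ v, L v}
    (h : ∀ v, x v ^ 2 - s v a * y v ^ 2 = 1) {η : ℝ} (hη : 0 < η) :
    ∃ X Y : K, X ^ 2 - a * Y ^ 2 = 1 ∧ ∀ v, ‖s v X - x v‖ < η ∧ ‖s v Y - y v‖ < η := by
  by_cases hV : IsEmpty V
  · exact ⟨1, 0, by ring, fun v => (hV.false v).elim⟩
  rw [not_isEmpty_iff] at hV
  obtain ⟨v₀⟩ := hV
  choose x' y' g1 g2 g3 g4 using fun v => one_near ((map_ne_zero (s v)).2 ha) (h v) (half_pos hη)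
  choose δ hδ hd using fun v => one_cont (g1 v) (g2 v) (half_pos hη)
  obtain ⟨δ', hδ', hm⟩ := fin_min hδ
  obtain ⟨m, hm'⟩ := hden (fun v => y' v / (1 + x' v)) δ' hδ'
  have hk : ∀ v, _ := fun v => hd v (s v m) ((hm' v).trans_le (hm v))
  have hd0 : 1 - a * m ^ 2 ≠ 0 := by
    intro h0
    apply (hk v₀).1
    rw [← map_pow, ← map_mul, ← map_one (s v₀), ← map_sub, h0, map_zero]
  refine ⟨(1 + a * m ^ 2) / (1 - a * m ^ 2), 2 * m / (1 - a * m ^ 2), ?_, fun v => ⟨?_, ?_⟩⟩
  · field_simp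
    ring
  · have k1 := (hk v).2.1
    have k2 := g3 v
    have e1 : s v ((1 + a * m ^ 2) / (1 - a * m ^ 2)) =
        (1 + s v a * s v m ^ 2) / (1 - s v a * s v m ^ 2) := by
      simp only [map_div₀, map_add, map_sub, map_mul, map_pow, map_one]
    rw [e1]
    have := norm_sub_le_norm_sub_add_norm_sub
      ((1 + s v a * s v m ^ 2) / (1 - s v a * s v m ^ 2)) (x' v) (x v)
    linarith
  · have k1 := (hk v).2.2
    have k2 := g4 v
    have e1 : s v (2 * m / (1 - a * m ^ 2)) = 2 * s v m / (1 - s v a * s v m ^ 2) := by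
      simp only [map_div₀, map_add, map_sub, map_mul, map_pow, map_one, map_ofNat]
    rw [e1]
    have := norm_sub_le_norm_sub_add_norm_sub
      (2 * s v m / (1 - s v a * s v m ^ 2)) (y' v) (y v)
    linarith

/-- weak approximation on the fibres -/
lemma cn_wa (hden : Dn s) {a c : K} (ha : a ≠ 0) (hc : c ≠ 0) {R₀ S₀ : K}
    (h₀ : R₀ ^ 2 - a * S₀ ^ 2 = c) {R S : ∀ v, L v}
    (h : ∀ v, R v ^ 2 - s v a * S v ^ 2 = s v c) {η : ℝ} (hη : 0 < η) :
    ∃ X Y : K, X ^ 2 - a * Y ^ 2 = c ∧ ∀ v, ‖s v X - R v‖ < η ∧ ‖s v Y - S v‖ < η := by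
  have hcv : ∀ v, s v c ≠ 0 := fun v => (map_ne_zero (s v)).2 hc
  have h₀v : ∀ v, s v R₀ ^ 2 - s v a * s v S₀ ^ 2 = s v c := fun v => by
    rw [← h₀]; simp only [map_sub, map_mul, map_pow]
  set x : ∀ v, L v := fun v => (s v R₀ * R v - s v a * s v S₀ * S v) / s v c with hx
  set y : ∀ v, L v := fun v => (s v R₀ * S v - s v S₀ * R v) / s v c with hy
  have hxy : ∀ v, x v ^ 2 - s v a * y v ^ 2 = 1 := by
    intro v
    have h1 : (s v R₀ * R v - s v a * s v S₀ * S v) ^ 2 -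
        s v a * (s v R₀ * S v - s v S₀ * R v) ^ 2 = s v c ^ 2 := by
      linear_combination (R v ^ 2 - s v a * S v ^ 2) * h₀v v + s v c * h v
    simp only [hx, hy]
    have hcv' := hcv v
    field_simp
    linear_combination h1
  choose δ hδ hd using fun v => mul_cont (A := s v a) (R₀ := s v R₀) (S₀ := s v S₀) (x v) (y v) hη
  obtain ⟨δ', hδ', hm⟩ := fin_min hδ
  obtain ⟨X, Y, h1, h2⟩ := one_wa hden ha hxy hδ'
  refine ⟨R₀ * X + a * S₀ * Y, R₀ * Y + S₀ * X, ?_, fun v => ?_⟩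
  · linear_combination (X ^ 2 - a * Y ^ 2) * h₀ + c * h1
  · obtain ⟨k1, k2⟩ := hd v (s v X) (s v Y) ((h2 v).1.trans_le (hm v)) ((h2 v).2.trans_le (hm v))
    have e1 : s v R₀ * x v + s v a * s v S₀ * y v = R v := by
      simp only [hx, hy]
      have hcv' := hcv v
      field_simp
      linear_combination R v * h₀v v
    have e2 : s v R₀ * y v + s v S₀ * x v = S v := by
      simp only [hx, hy]
      have hcv' := hcv v
      field_simp
      linear_combination S v * h₀v v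
    rw [e1] at k1
    rw [e2] at k2
    simp only [map_add, map_mul]
    exact ⟨k1, k2⟩

/-- the local points of the system over a point of the base -/
def Xv {F : Type*} [Field F] (A B : I → MvPolynomial α F) (z : α → F) (R S : I → F) : Prop :=
  ∀ i, R i ^ 2 - MvPolynomial.eval z (A i) * S i ^ 2 = MvPolynomial.eval z (B i)

/-- local points over nearby points of the base -/
lemma fib_near {v : V} {A B : I → MvPolynomial α K} {z₀ : α → L v} {R S : I → L v}
    (hA : ∀ i, MvPolynomial.eval z₀ (MvPolynomial.map (s v) (A i)) ≠ 0)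
    (hB : ∀ i, MvPolynomial.eval z₀ (MvPolynomial.map (s v) (B i)) ≠ 0)
    (h : Xv (fun i => MvPolynomial.map (s v) (A i)) (fun i => MvPolynomial.map (s v) (B i))
      z₀ R S) {η : ℝ} (hη : 0 < η) :
    ∃ ρ : ℝ, 0 < ρ ∧ ∀ z : α → L v, (∀ i, ‖z i - z₀ i‖ < ρ) → ∃ R' S' : I → L v,
      Xv (fun i => MvPolynomial.map (s v) (A i)) (fun i => MvPolynomial.map (s v) (B i)) z R' S' ∧
        ∀ i, ‖R' i - R i‖ < η ∧ ‖S' i - S i‖ < η := by
  choose δ hδ hd using fun i => con_near (hA i) (hB i) (h i) hη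
  have h1 : ∀ᶠ z in 𝓝 z₀, ∀ i, ‖MvPolynomial.eval z (MvPolynomial.map (s v) (A i)) -
      MvPolynomial.eval z₀ (MvPolynomial.map (s v) (A i))‖ < δ i ∧
      ‖MvPolynomial.eval z (MvPolynomial.map (s v) (B i)) -
      MvPolynomial.eval z₀ (MvPolynomial.map (s v) (B i))‖ < δ i := by
    rw [eventually_all]
    intro i
    have c1 : ContinuousAt (fun z => ‖MvPolynomial.eval z (MvPolynomial.map (s v) (A i)) -
      MvPolynomial.eval z₀ (MvPolynomial.map (s v) (A i))‖) z₀ :=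
      (((MvPolynomial.continuous_eval _).sub continuous_const).norm).continuousAt
    have c2 : ContinuousAt (fun z => ‖MvPolynomial.eval z (MvPolynomial.map (s v) (B i)) -
      MvPolynomial.eval z₀ (MvPolynomial.map (s v) (B i))‖) z₀ :=
      (((MvPolynomial.continuous_eval _).sub continuous_const).norm).continuousAt
    exact (c1.eventually_lt_const (u := δ i) (by
      dsimp only; rw [sub_self, norm_zero]; exact hδ i)).and
      (c2.eventually_lt_const (u := δ i) (by dsimp only; rw [sub_self, norm_zero]; exact hδ i))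
  obtain ⟨ρ, hρ, hb⟩ := Metric.eventually_nhds_iff_ball.1 h1
  refine ⟨ρ, hρ, fun z hz => ?_⟩
  have hk := hb z (by
    rw [Metric.mem_ball, dist_pi_lt_iff hρ]
    intro i
    rw [dist_eq_norm]
    exact hz i)
  choose R' S' k1 k2 k3 using fun i => hd i _ _ (hk i).1 (hk i).2
  exact ⟨R', S', k1, fun i => ⟨k2 i, k3 i⟩⟩

/-- the local point is a limit of rational points -/
def Lim (s : ∀ v, K →+* L v) (A B : I → MvPolynomial α K) (z : ∀ v, α → L v)
    (R S : ∀ v, I → L v) : Prop :=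
  ∀ η : ℝ, 0 < η → ∃ (z' : α → K) (R' S' : I → K), Xv A B z' R' S' ∧
    ∀ v, (∀ j, ‖s v (z' j) - z v j‖ < η) ∧
      ∀ i, ‖s v (R' i) - R v i‖ < η ∧ ‖s v (S' i) - S v i‖ < η

/-- **The closure of the rational points and the closure of their projections.** -/
theorem cls_base [Nonempty V] (hden : Dn s) {A B : I → MvPolynomial α K}
    {z : ∀ v, α → L v} {R S : ∀ v, I → L v}
    (hA : ∀ v i, MvPolynomial.eval (z v) (MvPolynomial.map (s v) (A i)) ≠ 0)
    (hB : ∀ v i, MvPolynomial.eval (z v) (MvPolynomial.map (s v) (B i)) ≠ 0)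
    (h : ∀ v, Xv (fun i => MvPolynomial.map (s v) (A i))
      (fun i => MvPolynomial.map (s v) (B i)) (z v) (R v) (S v)) :
    Lim s A B z R S ↔
      ∀ η : ℝ, 0 < η → ∃ z' : α → K, Pz A B z' ∧ ∀ v j, ‖s v (z' j) - z v j‖ < η := by
  constructor
  · intro hc η hη
    obtain ⟨v₀⟩ := ‹Nonempty V›
    obtain ⟨ρ, hρ, hb⟩ := ne_near (∏ i, A i * B i) (v := v₀) (z₀ := z v₀) (by
      rw [map_prod, map_prod]
      refine Finset.prod_ne_zero_iff.2 fun i _ => ?_
      rw [map_mul, map_mul]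
      exact mul_ne_zero (hA v₀ i) (hB v₀ i))
    obtain ⟨z', R', S', h1, h2⟩ := hc (min η ρ) (lt_min hη hρ)
    have h3 : MvPolynomial.eval z' (∏ i, A i * B i) ≠ 0 := by
      intro h3
      apply hb (fun i => s v₀ (z' i)) (fun i => ((h2 v₀).1 i).trans_le (min_le_right _ _))
      rw [eval_map_s, h3, map_zero]
    rw [map_prod] at h3
    refine ⟨z', fun i => ?_, fun v i => ((h2 v).1 i).trans_le (min_le_left _ _)⟩
    have h4 := Finset.prod_ne_zero_iff.1 h3 i (Finset.mem_univ i)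
    rw [map_mul] at h4
    exact ⟨left_ne_zero_of_mul h4, right_ne_zero_of_mul h4, R' i, S' i, h1 i⟩
  · intro hc η hη
    choose ρ hρ hb using fun v => fib_near (hA v) (hB v) (h v) (half_pos hη)
    obtain ⟨ρ', hρ', hm⟩ := fin_min hρ
    obtain ⟨z', g1, g3⟩ := hc (min η ρ') (lt_min hη hρ')
    choose R₁ S₁ k1 k2 using fun v => hb v (fun i => s v (z' i))
      (fun i => (g3 v i).trans_le ((min_le_right _ _).trans (hm v)))
    have hi : ∀ i, ∃ X Y : K, X ^ 2 - MvPolynomial.eval z' (A i) * Y ^ 2 =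
        MvPolynomial.eval z' (B i) ∧ ∀ v, ‖s v X - R₁ v i‖ < η / 2 ∧ ‖s v Y - S₁ v i‖ < η / 2 := by
      intro i
      obtain ⟨g4, g5, R₀, S₀, g6⟩ := g1 i
      refine cn_wa hden g4 g5 g6 (R := fun v => R₁ v i) (S := fun v => S₁ v i) (fun v => ?_)
        (half_pos hη)
      have := k1 v i
      rw [eval_map_s, eval_map_s] at this
      exact this
    choose X Y j1 j2 using hi
    refine ⟨z', X, Y, j1, fun v => ⟨fun i => (g3 v i).trans_le (min_le_left _ _), fun i => ?_⟩⟩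
    have a1 := norm_sub_le_norm_sub_add_norm_sub (s v (X i)) (R₁ v i) (R v i)
    have a2 := norm_sub_le_norm_sub_add_norm_sub (s v (Y i)) (S₁ v i) (S v i)
    have a3 := j2 i v
    have a4 := k2 v i
    exact ⟨by linarith [a3.1, a4.1], by linarith [a3.2, a4.2]⟩

end glob

section main

variable {K : Type u} [Field K] [CharZero K] {α : Type w} [Fintype α] [DecidableEq α]
  {I : Type*} [Fintype I]

/-- **Main theorem.** The closure of the rational points of a tame fibre product of conic bundles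
is open and closed and a union of fibres, outside a divisor. -/
theorem main_cl {A B : I → MvPolynomial α K} (hA : ∀ i, A i ≠ 0) (hB : ∀ i, B i ≠ 0)
    (hc : ∀ i j, (A i).degreeOf j = 0 ∨ (B i).degreeOf j = 0)
    (hT : ∀ j, Tame fun i => (A i).degreeOf j + (B i).degreeOf j) :
    ∃ N : MvPolynomial α K, N ≠ 0 ∧ ∀ (V : Type) [Finite V] [Nonempty V] (L : V → Type)
    [∀ v, NontriviallyNormedField (L v)] [∀ v, CompleteSpace (L v)] [∀ v, CharZero (L v)]
    (s : ∀ v, K →+* L v), M8 s → Dn s → ∃ U : Set (∀ v, α → L v), IsOpen U ∧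
    ∀ (z : ∀ v, α → L v) (R S : ∀ v, I → L v),
      (∀ v, MvPolynomial.eval (z v) (MvPolynomial.map (s v) N) ≠ 0) →
      (∀ v, Xv (fun i => MvPolynomial.map (s v) (A i))
        (fun i => MvPolynomial.map (s v) (B i)) (z v) (R v) (S v)) →
      (Lim s A B z R S ↔ z ∈ U) := by
  obtain ⟨N, hN, h⟩ := main_int hA hB hc hT
  refine ⟨N, hN, ?_⟩
  intro V _ _ L _ _ _ s h8 hden
  have : Fintype V := Fintype.ofFinite V
  refine ⟨{z | (∀ v, MvPolynomial.eval (z v) (MvPolynomial.map (s v) N) ≠ 0) ∧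
    ∀ η : ℝ, 0 < η → ∃ z' : α → K, Pz A B z' ∧ ∀ v i, ‖s v (z' i) - z v i‖ < η}, ?_, ?_⟩
  · rw [Metric.isOpen_iff]
    rintro z ⟨hNz, hcl⟩
    obtain ⟨⟨ε, hε, hint⟩, -, -⟩ := h V L s h8 hden z hNz
    choose κ hκ hb using fun v => ne_near (s := s) (v := v) N (hNz v)
    obtain ⟨κ', hκ', hm⟩ := fin_min hκ
    refine ⟨min ε κ', lt_min hε hκ', fun x hx => ?_⟩
    have hnear : ∀ v i, ‖x v i - z v i‖ < min ε κ' := by
      intro v i
      rw [Metric.mem_ball, dist_pi_lt_iff (lt_min hε hκ')] at hx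
      have h3 := hx v
      rw [dist_pi_lt_iff (lt_min hε hκ')] at h3
      rw [← dist_eq_norm]; exact h3 i
    refine ⟨fun v => hb v (x v) fun i => (hnear v i).trans_le ((min_le_right _ _).trans (hm v)),
      fun η hη => ?_⟩
    obtain ⟨z₁, hz₁, hn₁⟩ := hcl ε hε
    exact hint z₁ hz₁ hn₁ x (fun v i => (hnear v i).trans_le (min_le_left _ _)) η hη
  · intro z R S hNz hX
    obtain ⟨-, hA', hB'⟩ := h V L s h8 hden z hNz
    rw [cls_base hden hA' hB' hX]
    constructor
    · intro hcl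
      exact ⟨hNz, hcl⟩
    · rintro ⟨-, hcl⟩
      exact hcl

end main

end Pool.Agent.H436.CB
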