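import Pool.Agent.H436.CB.Alg
import Pool.Graph.R_seed8.Y720.WL.Nt

/-!
# The difference of the points at infinity has infinite order for general parameters (helper436)
-/

set_option autoImplicit false
set_option linter.unusedVariables false
set_option linter.unusedSectionVars false
set_option linter.deprecated false

open WeierstrassCurve Filter Topology Polynomial Pool.Agent.Y720.MZ

namespace Pool.Agent.H436.CB

section poly

variable {K : Type*} [Field K] [CharZero K]

/-- **The multiples by powers of two are different for all but finitely many values.** -/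
theorem itd_fin {a b c N D E : Polynomial K} {k : ℕ} (hk : k ≠ 0) (hD : D = X ^ k * E)
    (hE : E.eval 0 ≠ 0) (hN : N.eval 0 ≠ 0) (B : ℕ) :
    {s : K | ¬((∀ i ≤ B, (itd (a.eval s) (b.eval s) (c.eval s) (N.eval s, D.eval s) i).2 ≠ 0) ∧
      ∀ i ≤ B, ∀ j ≤ B, i ≠ j →
        (itd (a.eval s) (b.eval s) (c.eval s) (N.eval s, D.eval s) i).1 *
          (itd (a.eval s) (b.eval s) (c.eval s) (N.eval s, D.eval s) j).2 -
        (itd (a.eval s) (b.eval s) (c.eval s) (N.eval s, D.eval s) j).1 *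
          (itd (a.eval s) (b.eval s) (c.eval s) (N.eval s, D.eval s) i).2 ≠ 0)}.Finite := by
  classical
  set q : ℕ → Polynomial K × Polynomial K := fun i => itd a b c (N, D) i with hq
  have hev : ∀ (s : K) (i : ℕ), itd (a.eval s) (b.eval s) (c.eval s) (N.eval s, D.eval s) i =
      ((q i).1.eval s, (q i).2.eval s) := by
    intro s i
    exact itd_map (Polynomial.evalRingHom s) a b c (N, D) i
  choose G hG1 hG2 using fun i : ℕ => itd_pole (a := a) (b := b) (c := c) (N := N) hD i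
  have hst := fun i => hG2 i (Polynomial.evalRingHom 0) (by simp [hk]) (by
    rw [Polynomial.coe_evalRingHom]; exact hN)
  simp only [Polynomial.coe_evalRingHom] at hst
  have hst2 : ∀ i, ((q i).1.eval 0 ≠ 0) ∧ (G i).eval 0 * N.eval 0 =
      4 ^ i * E.eval 0 * (q i).1.eval 0 := fun i => hst i
  have hG0 : ∀ i, (G i).eval 0 ≠ 0 := by
    intro i h0
    have h1 := (hst2 i).2
    rw [h0, zero_mul] at h1
    exact mul_ne_zero (mul_ne_zero (pow_ne_zero i (by norm_num)) hE) (hst2 i).1 h1.symm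
  have hXk : (X : Polynomial K) ^ k ≠ 0 := pow_ne_zero k X_ne_zero
  have h1 : ∀ i, (q i).2 = X ^ k * G i := fun i => hG1 i
  have hq2 : ∀ i, (q i).2 ≠ 0 := by
    intro i h0
    rw [h1 i] at h0
    have h2 := (mul_eq_zero.1 h0).resolve_left hXk
    exact hG0 i (by rw [h2, Polynomial.eval_zero])
  have hqij : ∀ i j, i ≠ j → (q i).1 * (q j).2 - (q j).1 * (q i).2 ≠ 0 := by
    intro i j hij h0
    rw [h1, h1] at h0
    have h3 : X ^ k * ((q i).1 * G j - (q j).1 * G i) = 0 := by
      linear_combination h0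
    have h4 := (mul_eq_zero.1 h3).resolve_left hXk
    have h5 := congrArg (Polynomial.eval 0) h4
    rw [Polynomial.eval_sub, Polynomial.eval_mul, Polynomial.eval_mul, Polynomial.eval_zero] at h5
    obtain ⟨n1, m1⟩ := hst2 i
    obtain ⟨n2, m2⟩ := hst2 j
    have h6 : (4 : K) ^ i ≠ 4 ^ j := by
      intro h
      have h7 : ((4 ^ i : ℕ) : K) = ((4 ^ j : ℕ) : K) := by push_cast; exact h
      have h8 : (4 : ℕ) ^ i = 4 ^ j := Nat.cast_injective h7
      exact hij (Nat.pow_right_injective (le_refl 2 |>.trans (by norm_num)) h8)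
    have h8 : ((q i).1.eval 0 * (q j).1.eval 0 * E.eval 0) * (4 ^ j - 4 ^ i) = 0 := by
      linear_combination N.eval 0 * h5 - (q i).1.eval 0 * m2 + (q j).1.eval 0 * m1
    exact mul_ne_zero (mul_ne_zero (mul_ne_zero n1 n2) hE) (sub_ne_zero.2 h6.symm) h8
  -- finiteness
  have hfin1 : {s : K | ∃ i ≤ B, (q i).2.eval s = 0}.Finite := by
    have : {s : K | ∃ i ≤ B, (q i).2.eval s = 0} = ⋃ i ∈ Finset.range (B + 1),
        {s | (q i).2.IsRoot s} := by
      ext s
      simp
    rw [this]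
    exact Set.Finite.biUnion (Finset.finite_toSet _) fun i _ =>
      Polynomial.finite_setOf_isRoot (hq2 i)
  have hfin2 : {s : K | ∃ i ≤ B, ∃ j ≤ B, i ≠ j ∧
      ((q i).1 * (q j).2 - (q j).1 * (q i).2).eval s = 0}.Finite := by
    have : {s : K | ∃ i ≤ B, ∃ j ≤ B, i ≠ j ∧
        ((q i).1 * (q j).2 - (q j).1 * (q i).2).eval s = 0} ⊆
        ⋃ i ∈ Finset.range (B + 1), ⋃ j ∈ Finset.range (B + 1),
        {s | i ≠ j ∧ ((q i).1 * (q j).2 - (q j).1 * (q i).2).IsRoot s} := by
      rintro s ⟨i, hi, j, hj, hij, h⟩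
      simp only [Set.mem_iUnion]
      exact ⟨i, Finset.mem_range.2 (by omega), j, Finset.mem_range.2 (by omega), hij, h⟩
    refine (Set.Finite.biUnion (Finset.finite_toSet _) fun i _ =>
      Set.Finite.biUnion (Finset.finite_toSet _) fun j _ => ?_).subset this
    by_cases hij : i = j
    · refine Set.finite_empty.subset ?_
      rintro s ⟨h, -⟩
      exact absurd hij h
    · exact (Polynomial.finite_setOf_isRoot (hqij i j hij)).subset fun s h => h.2
  refine (hfin1.union hfin2).subset ?_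
  intro s hs
  rw [Set.mem_setOf_eq, not_and_or] at hs
  simp only [hev] at hs
  rcases hs with hs | hs
  · push Not at hs
    left
    exact hs
  · push Not at hs
    obtain ⟨i, hi, j, hj, hij, h⟩ := hs
    right
    refine ⟨i, hi, j, hj, hij, ?_⟩
    rw [Polynomial.eval_sub, Polynomial.eval_mul, Polynomial.eval_mul]
    exact h

end poly

section th

variable {F : Type*} [Field F] [CharZero F]

/-- the data of the curve of genus one -/
def th8 (π : Fin 9 → F) : F × (Fin 4 → F) := (π 1, ![0, cc π, cd π, ce π])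

lemma tA_th (π : Fin 9 → F) : tA (th8 π) = cc π := rfl

lemma tB_th (π : Fin 9 → F) : tB (th8 π) = -4 * π 1 ^ 2 * ce π := by
  change (0 : F) * _ - 4 * π 1 ^ 2 * ce π = _
  ring

lemma tC_th (π : Fin 9 → F) : tC (th8 π) =
    π 1 ^ 2 * cd π ^ 2 - 4 * π 1 ^ 2 * cc π * ce π := by
  change (0 : F) ^ 2 * _ + π 1 ^ 2 * cd π ^ 2 - 4 * π 1 ^ 2 * cc π * ce π = _
  ring

lemma tX_th (π : Fin 9 → F) : tX (th8 π) = -cc π := by
  change (0 : F) ^ 2 / _ - cc π = _
  ring

lemma tY_th {π : Fin 9 → F} (hA : π 1 ≠ 0) : tY (th8 π) = π 1 * cd π := by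
  change (0 * xs (π 1) 0 (cc π) + 2 * π 1 ^ 2 * cd π) / (2 * π 1) = _
  field_simp
  ring

end th

section gen

variable {F : Type*} [Field F] [CharZero F]

/-- the coefficients as polynomials -/
noncomputable def pρ (n : Fin 9 → F) : Polynomial F := C (1 / 2) * (C (n 2) * X ^ 2 + C (n 1))
/-- the coefficients as polynomials -/
noncomputable def pa (n : Fin 9 → F) : Polynomial F :=
  C (n 1 ^ 2 / 2) * (C (n 2) * X ^ 2 + C (3 * n 1))
/-- the coefficients as polynomials -/
noncomputable def pe (n : Fin 9 → F) : Polynomial F :=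
  C (n 1 ^ 2) * pρ n ^ 2 + C (n 1) * (pρ n * (C (n 4) * X ^ 4) - pρ n ^ 3 +
    C (n 3 ^ 2 / 4) * X ^ 6 - C (n 6) * X ^ 6)
/-- the coefficients as polynomials -/
noncomputable def pg (n : Fin 9 → F) : Polynomial F :=
  C (n 1) * (C (n 5) * X ^ 2 + C (n 3 / 2) * (C (n 1) - C (n 2) * X ^ 2))
/-- the coefficients as polynomials -/
noncomputable def pb (n : Fin 9 → F) : Polynomial F := C (-4 * n 1 ^ 2) * pe n
/-- the coefficients as polynomials -/
noncomputable def pc (n : Fin 9 → F) : Polynomial F :=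
  C (n 1 ^ 2) * (X ^ 3 * pg n) ^ 2 - C (4 * n 1 ^ 2) * (pa n * pe n)
/-- the numerator -/
noncomputable def pN (n : Fin 9 → F) : Polynomial F :=
  pa n ^ 4 - 2 * (pb n * pa n ^ 2) + 8 * (pc n * pa n) + pb n ^ 2 -
    4 * (pa n * pc n)

variable {n : Fin 9 → F}

lemma pa_eval (s : F) : (pa n).eval s = cc (Function.update n 0 s) := by
  simp [pa, cc, fk]
  ring

lemma pg_eval (s : F) : s ^ 3 * (pg n).eval s = cd (Function.update n 0 s) := by
  simp [pg, cd, fk]
  ring

lemma pρ_eval (s : F) : (pρ n).eval s = ρ2 (Function.update n 0 s) := by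
  simp [pρ, ρ2, fk]
  ring

lemma pe_eval (s : F) : (pe n).eval s = ce (Function.update n 0 s) := by
  rw [ce, ← pρ_eval]
  simp only [pe, fk, Polynomial.eval_sub, Polynomial.eval_add, Polynomial.eval_mul,
    Polynomial.eval_C, Polynomial.eval_pow, Polynomial.eval_X, Function.update_self]
  rw [Function.update_of_ne (by decide), Function.update_of_ne (by decide),
    Function.update_of_ne (by decide), Function.update_of_ne (by decide)]
  simp only [Fin.isValue, show ((3 : Fin 9) : ℕ) = 3 from rfl, show ((4 : Fin 9) : ℕ) = 4 from rfl,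
    show ((6 : Fin 9) : ℕ) = 6 from rfl]
  ring

lemma pb_eval (s : F) : (pb n).eval s = -4 * n 1 ^ 2 * ce (Function.update n 0 s) := by
  rw [← pe_eval, pb, Polynomial.eval_mul, Polynomial.eval_C]

lemma pc_eval (s : F) : (pc n).eval s = n 1 ^ 2 * cd (Function.update n 0 s) ^ 2 -
    4 * n 1 ^ 2 * cc (Function.update n 0 s) * ce (Function.update n 0 s) := by
  rw [← pe_eval, ← pg_eval, ← pa_eval]
  simp only [pc, Polynomial.eval_sub, Polynomial.eval_mul, Polynomial.eval_C,
    Polynomial.eval_pow, Polynomial.eval_X]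
  ring

lemma pa_zero : (pa n).eval 0 = 3 / 2 * n 1 ^ 3 := by
  simp [pa]
  ring

lemma pe_zero : (pe n).eval 0 = n 1 ^ 4 / 8 := by
  simp [pe, pρ]
  ring

lemma pb_zero : (pb n).eval 0 = -n 1 ^ 6 / 2 := by
  rw [pb, Polynomial.eval_mul, pe_zero, Polynomial.eval_C]
  ring

lemma pc_zero : (pc n).eval 0 = -3 / 4 * n 1 ^ 9 := by
  simp only [pc, Polynomial.eval_sub, Polynomial.eval_mul, pe_zero, pa_zero, Polynomial.eval_C,
    Polynomial.eval_pow, Polynomial.eval_X]
  ring

lemma pN_zero : (pN n).eval 0 = 49 / 16 * n 1 ^ 12 := by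
  simp only [pN, Polynomial.eval_add, Polynomial.eval_sub, Polynomial.eval_mul, pa_zero, pb_zero,
    pc_zero, Polynomial.eval_pow, Polynomial.eval_ofNat]
  ring

lemma dsc_zero : (dsc (pa n) (pb n) (pc n)).eval 0 = 49 / 8 * n 1 ^ 18 := by
  simp only [dsc, Polynomial.eval_add, Polynomial.eval_sub, Polynomial.eval_mul, pa_zero, pb_zero,
    pc_zero, Polynomial.eval_pow, Polynomial.eval_ofNat]
  ring

lemma pg_zero : (pg n).eval 0 = n 1 ^ 2 * n 3 / 2 := by
  simp [pg]
  ring

lemma dsc_eval (s : F) : (dsc (pa n) (pb n) (pc n)).eval s =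
    dsc (tA (th8 (Function.update n 0 s))) (tB (th8 (Function.update n 0 s)))
      (tC (th8 (Function.update n 0 s))) := by
  have e1 : Function.update n 0 s 1 = n 1 := Function.update_of_ne (by decide) _ _
  rw [tA_th, tB_th, tC_th, e1, ← pa_eval, ← pb_eval, ← pe_eval, ← pg_eval]
  have h : (pc n).eval s = n 1 ^ 2 * (s ^ 3 * (pg n).eval s) ^ 2 -
      4 * n 1 ^ 2 * (pa n).eval s * (pe n).eval s := by
    rw [pc_eval, ← pg_eval, ← pa_eval, ← pe_eval]
  rw [← h]
  simp only [dsc, Polynomial.eval_sub, Polynomial.eval_add, Polynomial.eval_mul,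
    Polynomial.eval_pow, Polynomial.eval_ofNat]

end gen

section main

lemma dbl_aux {F : Type*} [Field F] {a b c y ℓ : F}
    (h : ℓ * (2 * y) = 3 * (-a) ^ 2 + 2 * a * -a + b)
    (hc : y ^ 2 = (-a) ^ 3 + a * (-a) ^ 2 + b * -a + c) :
    (ℓ ^ 2 - a - -a - -a) * (4 * y ^ 2) = a ^ 4 - 2 * (b * a ^ 2) + 8 * (c * a) + b ^ 2 -
        4 * (a * c) := by
  have e3 : (ℓ * (2 * y)) ^ 2 = (3 * (-a) ^ 2 + 2 * a * -a + b) ^ 2 := by rw [h]
  linear_combination e3 + 4 * a * hc

variable {F : Type*} [NontriviallyNormedField F] [CompleteSpace F] [CharZero F]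

/-- **The difference of the points at infinity has infinite order for general parameters.** -/
theorem io_gen {n : Fin 9 → F} (hA : n 1 ≠ 0) (h3 : n 3 ≠ 0) :
    ∃ τ : F, τ ≠ 0 ∧ IOt (th8 (Function.update n 0 τ)) := by
  letI : DecidableEq F := Classical.decEq F
  set D : Polynomial F := C (4 * n 1 ^ 2) * (X ^ 3 * pg n) ^ 2 with hD
  set E : Polynomial F := C (4 * n 1 ^ 2) * pg n ^ 2 with hE
  have hDE : D = X ^ 6 * E := by rw [hD, hE]; ring
  have hg0 : (pg n).eval 0 ≠ 0 := by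
    rw [pg_zero]
    exact div_ne_zero (mul_ne_zero (pow_ne_zero 2 hA) h3) two_ne_zero
  have hE0 : E.eval 0 ≠ 0 := by
    rw [hE, Polynomial.eval_mul, Polynomial.eval_C, Polynomial.eval_pow]
    exact mul_ne_zero (mul_ne_zero (by norm_num) (pow_ne_zero 2 hA)) (pow_ne_zero 2 hg0)
  have hN0 : (pN n).eval 0 ≠ 0 := by
    rw [pN_zero]
    exact mul_ne_zero (by norm_num) (pow_ne_zero _ hA)
  have hdp : dsc (pa n) (pb n) (pc n) ≠ 0 := by
    intro h
    have h1 := dsc_zero (n := n)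
    rw [h, Polynomial.eval_zero] at h1
    exact mul_ne_zero (by norm_num) (pow_ne_zero _ hA) h1.symm
  have hgp : pg n ≠ 0 := by
    intro h
    rw [h, Polynomial.eval_zero] at hg0
    exact hg0 rfl
  have hcnt := Set.countable_iUnion fun m => (itd_fin (a := pa n) (b := pb n) (c := pc n)
    (N := pN n) (D := D) (E := E) (k := 6) (by norm_num) hDE hE0 hN0 m).countable
  have hfin1 : {u : F | (dsc (pa n) (pb n) (pc n)).eval u = 0}.Finite :=
    Polynomial.finite_setOf_isRoot hdp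
  have hfin2 : {u : F | (pg n).eval u = 0}.Finite := Polynomial.finite_setOf_isRoot hgp
  have hfin3 : ({0} : Set F).Finite := Set.finite_singleton 0
  have hdense := Set.Countable.dense_compl F
    (hcnt.union (hfin1.countable.union (hfin2.countable.union hfin3.countable)))
  obtain ⟨τ, hτ⟩ := hdense.nonempty
  rw [Set.mem_compl_iff, Set.mem_union, Set.mem_union, Set.mem_union, not_or, not_or, not_or] at hτ
  obtain ⟨g1, g2, g3, g4⟩ := hτ
  have hτ0 : τ ≠ 0 := g4
  have hgτ : (pg n).eval τ ≠ 0 := g3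
  have hdτ : (dsc (pa n) (pb n) (pc n)).eval τ ≠ 0 := g2
  refine ⟨τ, hτ0, ?_, ?_⟩
  · rw [← dsc_eval]; exact hdτ
  · intro h m hm h0
    set π := Function.update n 0 τ with hπ
    have e1 : π 1 = n 1 := Function.update_of_ne (by decide) _ _
    have hy : tY (th8 π) = n 1 * (τ ^ 3 * (pg n).eval τ) := by
      rw [tY_th (by rw [e1]; exact hA), pg_eval, e1]
    have hy0 : 2 * tY (th8 π) ≠ 0 := by
      rw [hy]
      exact mul_ne_zero two_ne_zero (mul_ne_zero hA (mul_ne_zero (pow_ne_zero 3 hτ0) hgτ))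
    obtain ⟨h2, e2⟩ := dbl_mk h hy0
      (ℓ := (3 * tX (th8 π) ^ 2 + 2 * tA (th8 π) * tX (th8 π) + tB (th8 π)) /
        (2 * tY (th8 π))) (div_mul_cancel₀ _ hy0)
    set S : Pt (tA (th8 π)) (tB (th8 π)) (tC (th8 π)) := .some _ _ h with hS
    have h4 : m • (S + S) = 0 := by rw [smul_add, h0, add_zero]
    have g5 : (∀ i ≤ m, (itd ((pa n).eval τ) ((pb n).eval τ) ((pc n).eval τ)
      ((pN n).eval τ, D.eval τ) i).2 ≠ 0) ∧ ∀ i ≤ m, ∀ j ≤ m, i ≠ j →
        (itd ((pa n).eval τ) ((pb n).eval τ) ((pc n).eval τ)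
          ((pN n).eval τ, D.eval τ) i).1 *
          (itd ((pa n).eval τ) ((pb n).eval τ) ((pc n).eval τ)
          ((pN n).eval τ, D.eval τ) j).2 -
        (itd ((pa n).eval τ) ((pb n).eval τ) ((pc n).eval τ)
          ((pN n).eval τ, D.eval τ) j).1 *
          (itd ((pa n).eval τ) ((pb n).eval τ) ((pc n).eval τ)
          ((pN n).eval τ, D.eval τ) i).2 ≠ 0 := by
      by_contra hcon
      exact g1 (Set.mem_iUnion.2 ⟨m, hcon⟩)
    have ea : (pa n).eval τ = tA (th8 π) := by rw [pa_eval, tA_th]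
    have eb : (pb n).eval τ = tB (th8 π) := by rw [pb_eval, tB_th, e1]
    have ec : (pc n).eval τ = tC (th8 π) := by rw [pc_eval, tC_th, e1]
    rw [e2] at h4
    rw [ea, eb, ec] at g5
    refine nontor_of_itd h2 (N := (pN n).eval τ) (D := D.eval τ) ?_ g5.1 g5.2 m hm le_rfl h4
    have hcur := (cv_ns.1 h).1
    obtain ⟨ℓ, hℓ⟩ : ∃ ℓ, ℓ = (3 * tX (th8 π) ^ 2 + 2 * tA (th8 π) * tX (th8 π) +
        tB (th8 π)) / (2 * tY (th8 π)) := ⟨_, rfl⟩
    rw [← hℓ]
    have hℓ2 : ℓ * (2 * tY (th8 π)) = 3 * tX (th8 π) ^ 2 + 2 * tA (th8 π) * tX (th8 π) +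
        tB (th8 π) := by rw [hℓ]; exact div_mul_cancel₀ _ hy0
    have eD : D.eval τ = 4 * tY (th8 π) ^ 2 := by
      rw [hy, hD, Polynomial.eval_mul, Polynomial.eval_C, Polynomial.eval_pow,
        Polynomial.eval_mul, Polynomial.eval_pow, Polynomial.eval_X]
      ring
    have eN : (pN n).eval τ = tA (th8 π) ^ 4 - 2 * (tB (th8 π) * tA (th8 π) ^ 2) +
        8 * (tC (th8 π) * tA (th8 π)) + tB (th8 π) ^ 2 -
        4 * (tA (th8 π) * tC (th8 π)) := by
      simp only [pN, Polynomial.eval_sub, Polynomial.eval_add, Polynomial.eval_mul,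
        Polynomial.eval_pow, Polynomial.eval_ofNat, ea, eb, ec]
    have eX : tX (th8 π) = -tA (th8 π) := by rw [tX_th, tA_th]
    rw [eD, eN]
    rw [eX] at hcur hℓ2 ⊢
    exact dbl_aux hℓ2 hcur

end main

end Pool.Agent.H436.CB
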