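import Pool.Agent.H436.CB.Tree

/-!
# Generic moves (helper436)
-/

set_option autoImplicit false
set_option linter.unusedVariables false
set_option linter.unusedSectionVars false
set_option linter.deprecated false
set_option linter.unusedSimpArgs false

open Filter Topology Pool.Agent.Y720.MZ

namespace Pool.Agent.H436.CB

universe u w

section near

variable {K : Type*} [Field K] [CharZero K] {V : Type*} [Finite V] {L : V → Type*}
  [∀ v, NontriviallyNormedField (L v)] [∀ v, CompleteSpace (L v)] [∀ v, CharZero (L v)]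
  {s : ∀ v, K →+* L v} {α : Type*} [Fintype α]

/-- the values do not vanish close to the point -/
lemma ne_near (f : MvPolynomial α K) {v : V} {z₀ : α → L v}
    (h : MvPolynomial.eval z₀ (MvPolynomial.map (s v) f) ≠ 0) :
    ∃ ρ : ℝ, 0 < ρ ∧ ∀ x : α → L v, (∀ a, ‖x a - z₀ a‖ < ρ) →
      MvPolynomial.eval x (MvPolynomial.map (s v) f) ≠ 0 := by
  have hc : Continuous fun x : α → L v => MvPolynomial.eval x (MvPolynomial.map (s v) f) :=
    MvPolynomial.continuous_eval _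
  obtain ⟨ρ, hρ, hb⟩ := Metric.eventually_nhds_iff_ball.1
    (hc.continuousAt.eventually_ne h)
  refine ⟨ρ, hρ, fun x hx => hb x ?_⟩
  rw [Metric.mem_ball, dist_pi_lt_iff hρ]
  intro a
  rw [dist_eq_norm]
  exact hx a

lemma eval_map_s (v : V) (f : MvPolynomial α K) (z : α → K) :
    MvPolynomial.eval (fun a => s v (z a)) (MvPolynomial.map (s v) f) =
      s v (MvPolynomial.eval z f) := by
  induction f using MvPolynomial.induction_on with
  | C a => simp
  | add p q hp hq => simp only [map_add, hp, hq]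
  | mul_X p i hp => simp only [map_mul, MvPolynomial.map_X, MvPolynomial.eval_X, hp]

/-- moves for the values of polynomials -/
lemma Mv_ev [Nonempty V] {ι : Type*} [Fintype ι] (c : ι → MvPolynomial α K)
    {Q : (ι → K) → K → Prop} {z₀ : ∀ v, α → L v}
    (h : Mv s Q (fun v => evc (fun k => MvPolynomial.map (s v) (c k)) (z₀ v))) :
    Mv s (fun z u => Q (evc c z) u) z₀ := by
  refine pull (Q' := Q) (fun z => evc c z)
    (fun v z => evc (fun k => MvPolynomial.map (s v) (c k)) z) ?_ (fun _ _ => 1) (fun _ _ => 1)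
    (fun _ _ => 1) (fun _ _ => 1) ?_ ?_ ?_ ?_ ?_ ?_ ?_ ?_ h
  · intro v z k
    exact (eval_map_s v (c k) z).symm
  · intro v z y
    exact map_one _
  · intro v z y
    exact map_one _
  · intro v k
    exact (MvPolynomial.continuous_eval _).continuousAt
  · exact fun v e => analyticAt_const
  · exact fun v e => analyticAt_const
  · exact fun v => one_ne_zero
  · exact fun v => one_ne_zero
  · intro z y _ hy
    rw [mul_one, div_one]
    exact hy

end near

section gm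

variable {K : Type u} [Field K] [CharZero K] {α : Type w} [Fintype α]

/-- generic moves: outside the zeros of a polynomial, for all finite sets of places with the
required properties -/
def Gm (R : (α → K) → K → Prop) : Prop :=
  ∃ N : MvPolynomial α K, N ≠ 0 ∧ ∀ (V : Type) [Finite V] [Nonempty V] (L : V → Type)
    [∀ v, NontriviallyNormedField (L v)] [∀ v, CompleteSpace (L v)] [∀ v, CharZero (L v)]
    (s : ∀ v, K →+* L v), M8 s → Dn s → ∀ z₀ : ∀ v, α → L v,
    (∀ v, MvPolynomial.eval (z₀ v) (MvPolynomial.map (s v) N) ≠ 0) → Mv s R z₀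

lemma eval_mul_ne {L : Type*} [Field L] {φ : K →+* L} {z : α → L} {N N' : MvPolynomial α K}
    (h : MvPolynomial.eval z (MvPolynomial.map φ (N * N')) ≠ 0) :
    MvPolynomial.eval z (MvPolynomial.map φ N) ≠ 0 ∧
      MvPolynomial.eval z (MvPolynomial.map φ N') ≠ 0 := by
  rw [map_mul, map_mul] at h
  exact ⟨left_ne_zero_of_mul h, right_ne_zero_of_mul h⟩

lemma Gm.mono {R R' : (α → K) → K → Prop} (h : Gm R) {N' : MvPolynomial α K} (hN' : N' ≠ 0)
    (hR : ∀ z u, MvPolynomial.eval z N' ≠ 0 → R z u → R' z u) : Gm R' := by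
  obtain ⟨N, hN, h⟩ := h
  refine ⟨N * N', mul_ne_zero hN hN', ?_⟩
  intro V _ _ L _ _ _ s h8 hden z₀ h0
  obtain ⟨δ, hδ, hmv⟩ := h V L s h8 hden z₀ fun v => (eval_mul_ne (h0 v)).1
  obtain ⟨v₀⟩ := ‹Nonempty V›
  obtain ⟨ρ, hρ, hb⟩ := ne_near N' (eval_mul_ne (h0 v₀)).2
  refine ⟨min δ ρ, lt_min hδ hρ, fun z hz t ht η hη => ?_⟩
  obtain ⟨u, h1, h2⟩ := hmv z (fun v k => (hz v k).trans_le (min_le_left _ _)) t
    (fun v => (ht v).trans_le (min_le_left _ _)) η hη
  refine ⟨u, hR z u ?_ h1, h2⟩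
  intro h3
  apply hb (fun a => s v₀ (z a)) (fun a => (hz v₀ a).trans_le (min_le_right _ _))
  rw [eval_map_s, h3, map_zero]

lemma Gm.mono' {R R' : (α → K) → K → Prop} (h : Gm R) (hR : ∀ z u, R z u → R' z u) : Gm R' :=
  h.mono one_ne_zero fun z u _ => hR z u

lemma Gm_triv {R : (α → K) → K → Prop} (h : ∀ z u, R z u) : Gm R := by
  refine ⟨1, one_ne_zero, ?_⟩
  intro V _ _ L _ _ _ s h8 hden z₀ h0
  refine ⟨1, one_pos, fun z hz t ht η hη => ?_⟩
  obtain ⟨u, hu⟩ := hden t η hη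
  exact ⟨u, h z u, hu⟩

section cov

variable {L : Type*} [Field L] [CharZero L] (φ : K →+* L) (c : Fin 10 → MvPolynomial α K)
  (z : α → L)

lemma Φg_ev : MvPolynomial.eval z (MvPolynomial.map φ (Φg c)) =
    Φg (evc (fun k => MvPolynomial.map φ (c k)) z) := by
  simp only [Φg, evc, map_add, map_sub, map_mul, map_pow, map_ofNat]

lemma Tg_ev : MvPolynomial.eval z (MvPolynomial.map φ (Tg c)) =
    Tg (evc (fun k => MvPolynomial.map φ (c k)) z) := by
  simp only [Tg, evc, map_add, map_sub, map_mul, map_pow, map_ofNat]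

lemma Hg_ev : MvPolynomial.eval z (MvPolynomial.map φ (Hg c)) =
    Hg (evc (fun k => MvPolynomial.map φ (c k)) z) := by
  simp only [Hg, evc, map_add, map_sub, map_mul, map_pow, map_ofNat]

lemma Dg_ev : MvPolynomial.eval z (MvPolynomial.map φ (Dg c)) =
    Dg (evc (fun k => MvPolynomial.map φ (c k)) z) := by
  simp only [Dg, evc, map_add, map_sub, map_mul, map_pow, map_ofNat]

lemma Ψg_ev : MvPolynomial.eval z (MvPolynomial.map φ (Ψg c)) =
    Ψg (evc (fun k => MvPolynomial.map φ (c k)) z) := by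
  simp only [Ψg, evc, map_add, map_sub, map_mul, map_pow, map_ofNat]

end cov

/-- generic moves for one condition -/
lemma Gm8 {c : Fin 10 → MvPolynomial α K} (h9 : c 9 ≠ 0) (h0 : c 0 ≠ 0) (hΦ : Φg c ≠ 0) :
    Gm (fun z u => Sol (evc c z) u) := by
  refine ⟨c 9 * (c 0 * Φg c), mul_ne_zero h9 (mul_ne_zero h0 hΦ), ?_⟩
  intro V _ _ L _ _ _ s h8 hden z₀ hz
  refine Mv_ev (Q := Sol) c (h8 _ (fun v => ?_) (fun v => ?_) fun v => ?_)
  · exact (eval_mul_ne (hz v)).1
  · exact (eval_mul_ne (eval_mul_ne (hz v)).2).1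
  · rw [← Φg_ev]
    exact (eval_mul_ne (eval_mul_ne (hz v)).2).2

/-- two conditions -/
def two (c d : Fin 10 → MvPolynomial α K) : Fin 2 × Fin 10 → MvPolynomial α K :=
  fun ik => if ik.1 = 0 then c ik.2 else d ik.2

/-- three conditions -/
def three (c d e : Fin 10 → MvPolynomial α K) : Fin 3 × Fin 10 → MvPolynomial α K :=
  fun ik => if ik.1 = 0 then c ik.2 else if ik.1 = 1 then d ik.2 else e ik.2

/-- generic moves for two conditions of degree four -/
lemma Gm44 {c d : Fin 10 → MvPolynomial α K} (hc : Dl 4 c) (hd : Dl 4 d) (c9 : c 9 ≠ 0)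
    (c0 : c 0 ≠ 0) (cT : Tg c ≠ 0) (d9 : d 9 ≠ 0) (d0 : d 0 ≠ 0) (dH : Hg d ≠ 0) :
    Gm (fun z u => Sol (evc c z) u ∧ Sol (evc d z) u) := by
  refine ⟨c 9 * (c 0 * (Tg c * (d 9 * (d 0 * Hg d)))), mul_ne_zero c9 (mul_ne_zero c0
    (mul_ne_zero cT (mul_ne_zero d9 (mul_ne_zero d0 dH)))), ?_⟩
  intro V _ _ L _ _ _ s h8 hden z₀ hz
  have h1 : Mv s (fun z u => Sy2 4 4 (evc (two c d) z) u) z₀ := by
    refine Mv_ev (Q := Sy2 4 4) (two c d) (mv44 h8 (fun v => ?_) (fun v => ?_) (fun v => ?_)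
      (fun v => ?_) (fun v => ?_) fun v => ?_)
    · exact (eval_mul_ne (hz v)).1
    · exact (eval_mul_ne (eval_mul_ne (hz v)).2).1
    · have := (eval_mul_ne (eval_mul_ne (eval_mul_ne (hz v)).2).2).1
      rw [Tg_ev] at this
      exact this
    · exact (eval_mul_ne (eval_mul_ne (eval_mul_ne (eval_mul_ne (hz v)).2).2).2).1
    · exact (eval_mul_ne (eval_mul_ne (eval_mul_ne (eval_mul_ne (eval_mul_ne
        (hz v)).2).2).2).2).1
    · have := (eval_mul_ne (eval_mul_ne (eval_mul_ne (eval_mul_ne (eval_mul_ne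
        (hz v)).2).2).2).2).2
      rw [Hg_ev] at this
      exact this
  refine h1.mono fun z u h2 => ?_
  exact h2 (evc_Dl hc z) (evc_Dl hd z)

/-- generic moves for a condition of degree six and one of degree two -/
lemma Gm62 {c d : Fin 10 → MvPolynomial α K} (hc : Dl 6 c) (hd : Dl 2 d) (c9 : c 9 ≠ 0)
    (c0 : c 0 ≠ 0) (cΨ : Ψg c ≠ 0) (d9 : d 9 ≠ 0) (d0 : d 0 ≠ 0) :
    Gm (fun z u => Sol (evc c z) u ∧ Sol (evc d z) u) := by
  refine ⟨c 9 * (c 0 * (Ψg c * (d 9 * d 0))), mul_ne_zero c9 (mul_ne_zero c0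
    (mul_ne_zero cΨ (mul_ne_zero d9 d0))), ?_⟩
  intro V _ _ L _ _ _ s h8 hden z₀ hz
  have h1 : Mv s (fun z u => Sy2 6 2 (evc (two c d) z) u) z₀ := by
    refine Mv_ev (Q := Sy2 6 2) (two c d) (mv62 h8 (fun v => ?_) (fun v => ?_) (fun v => ?_)
      (fun v => ?_) (fun v => ?_))
    · exact (eval_mul_ne (hz v)).1
    · exact (eval_mul_ne (eval_mul_ne (hz v)).2).1
    · have := (eval_mul_ne (eval_mul_ne (eval_mul_ne (hz v)).2).2).1
      rw [Ψg_ev] at this
      exact this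
    · exact (eval_mul_ne (eval_mul_ne (eval_mul_ne (eval_mul_ne (hz v)).2).2).2).1
    · exact (eval_mul_ne (eval_mul_ne (eval_mul_ne (eval_mul_ne (hz v)).2).2).2).2
  refine h1.mono fun z u h2 => ?_
  exact h2 (evc_Dl hc z) (evc_Dl hd z)

/-- generic moves for a condition of degree four and two of degree two -/
lemma Gm422 {c d g : Fin 10 → MvPolynomial α K} (hc : Dl 4 c) (hd : Dl 2 d) (hg : Dl 2 g)
    (c9 : c 9 ≠ 0) (c0 : c 0 ≠ 0) (cT : Tg c ≠ 0) (d9 : d 9 ≠ 0) (d0 : d 0 ≠ 0)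
    (dD : Dg d ≠ 0) (g9 : g 9 ≠ 0) (g0 : g 0 ≠ 0) :
    Gm (fun z u => Sol (evc c z) u ∧ Sol (evc d z) u ∧ Sol (evc g z) u) := by
  refine ⟨c 9 * (c 0 * (Tg c * (d 9 * (d 0 * (Dg d * (g 9 * g 0)))))), mul_ne_zero c9
    (mul_ne_zero c0 (mul_ne_zero cT (mul_ne_zero d9 (mul_ne_zero d0 (mul_ne_zero dD
    (mul_ne_zero g9 g0)))))), ?_⟩
  intro V _ _ L _ _ _ s h8 hden z₀ hz
  have h1 : Mv s (fun z u => Sy3 4 2 2 (evc (three c d g) z) u) z₀ := by
    have e1 := fun v => (eval_mul_ne (hz v)).2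
    have e2 := fun v => (eval_mul_ne (e1 v)).2
    have e3 := fun v => (eval_mul_ne (e2 v)).2
    have e4 := fun v => (eval_mul_ne (e3 v)).2
    have e5 := fun v => (eval_mul_ne (e4 v)).2
    have e6 := fun v => (eval_mul_ne (e5 v)).2
    refine Mv_ev (Q := Sy3 4 2 2) (three c d g) (mv422 h8 (fun v => ?_) (fun v => ?_)
      (fun v => ?_) (fun v => ?_) (fun v => ?_) (fun v => ?_) (fun v => ?_) (fun v => ?_))
    · exact (eval_mul_ne (hz v)).1
    · exact (eval_mul_ne (e1 v)).1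
    · have := (eval_mul_ne (e2 v)).1
      rw [Tg_ev] at this
      exact this
    · exact (eval_mul_ne (e3 v)).1
    · exact (eval_mul_ne (e4 v)).1
    · have := (eval_mul_ne (e5 v)).1
      rw [Dg_ev] at this
      exact this
    · exact (eval_mul_ne (e6 v)).1
    · exact (eval_mul_ne (e6 v)).2
  refine h1.mono fun z u h2 => ?_
  exact h2 (evc_Dl hc z) (evc_Dl hd z) (evc_Dl hg z)

section tree

variable {e : α → K}

lemma cf_zero_ne {a f : MvPolynomial α K} (hf : f ≠ 0) : cf a f e 0 ≠ 0 := by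
  rw [cf, if_neg (by decide)]
  change gk f e 0 ≠ 0
  rw [gk_zero]
  exact hf

/-- one condition of degree at most eight -/
theorem tree8 {a f : MvPolynomial α K} (ha : a ≠ 0) (hf : f ≠ 0)
    (hd : ∀ z, (rst f z e).natDegree ≤ 8) : Gm (fun z u => So a f e z u) := by
  by_cases h : Φg (cf a f e) = 0
  · exact Gm_triv (So_Φ hd h)
  · exact (Gm8 (c := cf a f e) ha (cf_zero_ne hf) h).mono' fun z u h1 _ => h1

/-- two conditions of degree at most four -/
theorem tree44 {a f b g : MvPolynomial α K} (ha : a ≠ 0) (hf : f ≠ 0) (hb : b ≠ 0) (hg : g ≠ 0)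
    (hfd : ∀ z, (rst f z e).natDegree ≤ 4) (hgd : ∀ z, (rst g z e).natDegree ≤ 4) :
    Gm (fun z u => So a f e z u ∧ So b g e z u) := by
  have hfd8 : ∀ z, (rst f z e).natDegree ≤ 8 := fun z => (hfd z).trans (by norm_num)
  have hgd8 : ∀ z, (rst g z e).natDegree ≤ 8 := fun z => (hgd z).trans (by norm_num)
  by_cases h1 : Tg (cf a f e) = 0
  · exact (tree8 hb hg hgd8).mono' fun z u h => ⟨So_T hfd8 h1 z u, h⟩
  by_cases h2 : Hg (cf b g e) = 0
  · exact (tree8 ha hf hfd8).mono' fun z u h => ⟨h, So_H hgd8 h2 z u⟩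
  exact (Gm44 (cf_Dl hfd) (cf_Dl hgd) ha (cf_zero_ne hf) h1 hb (cf_zero_ne hg) h2).mono'
    fun z u h => ⟨fun _ => h.1, fun _ => h.2⟩

/-- one condition of degree at most six and one of degree at most two -/
theorem tree62 {a f b g : MvPolynomial α K} (ha : a ≠ 0) (hf : f ≠ 0) (hb : b ≠ 0) (hg : g ≠ 0)
    (hfd : ∀ z, (rst f z e).natDegree ≤ 6) (hgd : ∀ z, (rst g z e).natDegree ≤ 2) :
    Gm (fun z u => So a f e z u ∧ So b g e z u) := by
  have hfd8 : ∀ z, (rst f z e).natDegree ≤ 8 := fun z => (hfd z).trans (by norm_num)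
  have hgd8 : ∀ z, (rst g z e).natDegree ≤ 8 := fun z => (hgd z).trans (by norm_num)
  have hgd4 : ∀ z, (rst g z e).natDegree ≤ 4 := fun z => (hgd z).trans (by norm_num)
  by_cases h1 : Ψg (cf a f e) = 0
  · by_cases h2 : Tg (cq3 a f e) = 0
    · exact (tree8 hb hg hgd8).mono' fun z u h => ⟨So_cq3_T hf hfd8 h1 h2 z u, h⟩
    by_cases h3 : Hg (cf b g e) = 0
    · exact (tree8 ha hf hfd8).mono' fun z u h => ⟨h, So_H hgd8 h3 z u⟩
    exact (Gm44 (c := cq3 a f e) (Dl_mono (by norm_num) (cq3_Dl a f e)) (cf_Dl hgd4) ha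
      (mul_ne_zero (by norm_num) (pow_ne_zero 2 hf)) h2 hb (cf_zero_ne hg) h3).mono'
      fun z u h => ⟨So_of_cq3 hfd8 h1 h.1, fun _ => h.2⟩
  · exact (Gm62 (cf_Dl hfd) (cf_Dl hgd) ha (cf_zero_ne hf) h1 hb (cf_zero_ne hg)).mono'
      fun z u h => ⟨fun _ => h.1, fun _ => h.2⟩

/-- one condition of degree at most four and two of degree at most two -/
theorem tree422 {a f b g c h : MvPolynomial α K} (ha : a ≠ 0) (hf : f ≠ 0) (hb : b ≠ 0)
    (hg : g ≠ 0) (hc : c ≠ 0) (hh : h ≠ 0)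
    (hfd : ∀ z, (rst f z e).natDegree ≤ 4) (hgd : ∀ z, (rst g z e).natDegree ≤ 2)
    (hhd : ∀ z, (rst h z e).natDegree ≤ 2) :
    Gm (fun z u => So a f e z u ∧ So b g e z u ∧ So c h e z u) := by
  have hfd8 : ∀ z, (rst f z e).natDegree ≤ 8 := fun z => (hfd z).trans (by norm_num)
  have hgd4 : ∀ z, (rst g z e).natDegree ≤ 4 := fun z => (hgd z).trans (by norm_num)
  have hhd4 : ∀ z, (rst h z e).natDegree ≤ 4 := fun z => (hhd z).trans (by norm_num)
  by_cases h1 : Tg (cf a f e) = 0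
  · exact (tree44 hb hg hc hh hgd4 hhd4).mono' fun z u h => ⟨So_T hfd8 h1 z u, h⟩
  by_cases h2 : Dg (cf b g e) = 0
  · exact (tree44 ha hf hc hh hfd hhd4).mono' fun z u h => ⟨h.1, So_D hgd h2 z u, h.2⟩
  exact (Gm422 (cf_Dl hfd) (cf_Dl hgd) (cf_Dl hhd) ha (cf_zero_ne hf) h1 hb (cf_zero_ne hg) h2
    hc (cf_zero_ne hh)).mono' fun z u h => ⟨fun _ => h.1, fun _ => h.2.1, fun _ => h.2.2⟩

end tree

end gm

end Pool.Agent.H436.CB
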