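import Pool.Agent.H436.CB.Gen

/-!
# Local solutions (helper436)
-/

set_option autoImplicit false
set_option linter.unusedVariables false
set_option linter.unusedSectionVars false
set_option linter.deprecated false

open Filter Topology

namespace Pool.Agent.H436.CB

section loc

variable {L : Type*} [NontriviallyNormedField L] [CompleteSpace L] [CharZero L]

lemma C8_zero {π : Fin 9 → L} (hA : π 1 ≠ 0) : C8 π 0 (π 1) = 4 * π 1 := by
  simp only [C8, S4, S3, R4, R3]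
  field_simp
  ring

lemma C7_zero {π : Fin 9 → L} (hA : π 1 ≠ 0) : C7 π 0 (π 1) = -8 * π 1 := by
  simp only [C7, S4, S3, R4, R3]
  field_simp
  ring

lemma an_1 (e₀ : (Fin 9 → L) × L × L × L) (k : Fin 9) :
    AnalyticAt L (fun e : (Fin 9 → L) × L × L × L => e.1 k) e₀ :=
  ((ContinuousLinearMap.proj (R := L) (φ := fun _ : Fin 9 => L) k).comp
    (ContinuousLinearMap.fst L (Fin 9 → L) (L × L × L))).analyticAt e₀

lemma an_t (e₀ : (Fin 9 → L) × L × L × L) :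
    AnalyticAt L (fun e : (Fin 9 → L) × L × L × L => e.2.1) e₀ :=
  ((ContinuousLinearMap.fst L _ _).comp (ContinuousLinearMap.snd L (Fin 9 → L)
      (L × L × L))).analyticAt e₀

lemma an_x (e₀ : (Fin 9 → L) × L × L × L) :
    AnalyticAt L (fun e : (Fin 9 → L) × L × L × L => e.2.2.1) e₀ :=
  ((ContinuousLinearMap.fst L _ _).comp ((ContinuousLinearMap.snd L _ _).comp
        (ContinuousLinearMap.snd L (Fin 9 → L) (L × L × L)))).analyticAt e₀

lemma an_Y (e₀ : (Fin 9 → L) × L × L × L) :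
    AnalyticAt L (fun e : (Fin 9 → L) × L × L × L => e.2.2.2) e₀ :=
  ((ContinuousLinearMap.snd L _ _).comp ((ContinuousLinearMap.snd L _ _).comp
        (ContinuousLinearMap.snd L (Fin 9 → L) (L × L × L)))).analyticAt e₀

lemma an_fk (e₀ : (Fin 9 → L) × L × L × L) (k : Fin 9) :
    AnalyticAt L (fun e : (Fin 9 → L) × L × L × L => fk e.1 k) e₀ := by
  unfold fk
  have := an_1 e₀ k
  have := an_1 e₀ 0
  fun_prop

lemma an_ρ (e₀ : (Fin 9 → L) × L × L × L) :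
    AnalyticAt L (fun e : (Fin 9 → L) × L × L × L => ρ2 e.1) e₀ := by
  unfold ρ2
  have := an_1 e₀ 1
  have := an_fk e₀ 2
  fun_prop (disch := norm_num)

lemma an_cc (e₀ : (Fin 9 → L) × L × L × L) :
    AnalyticAt L (fun e : (Fin 9 → L) × L × L × L => cc e.1) e₀ := by
  unfold cc
  have := an_1 e₀ 1
  have := an_fk e₀ 2
  fun_prop (disch := norm_num)

lemma an_cd (e₀ : (Fin 9 → L) × L × L × L) :
    AnalyticAt L (fun e : (Fin 9 → L) × L × L × L => cd e.1) e₀ := by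
  unfold cd
  have := an_1 e₀ 1
  have := an_fk e₀ 2
  have := an_fk e₀ 3
  have := an_fk e₀ 5
  fun_prop (disch := norm_num)

lemma an_ce (e₀ : (Fin 9 → L) × L × L × L) :
    AnalyticAt L (fun e : (Fin 9 → L) × L × L × L => ce e.1) e₀ := by
  unfold ce
  have := an_1 e₀ 1
  have := an_ρ e₀
  have := an_fk e₀ 3
  have := an_fk e₀ 4
  have := an_fk e₀ 6
  fun_prop (disch := norm_num)

lemma an_S3 {e₀ : (Fin 9 → L) × L × L × L} (hA : e₀.1 1 ≠ 0) :
    AnalyticAt L (fun e : (Fin 9 → L) × L × L × L => S3 e.1 e.2.2.1 e.2.2.2) e₀ := by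
  unfold S3
  have := an_1 e₀ 1
  have := an_x e₀
  have := an_Y e₀
  have := an_ρ e₀
  fun_prop (disch := exact hA)

lemma an_R3 (e₀ : (Fin 9 → L) × L × L × L) :
    AnalyticAt L (fun e : (Fin 9 → L) × L × L × L => R3 e.1 e.2.2.1) e₀ := by
  unfold R3
  have := an_1 e₀ 1
  have := an_x e₀
  have := an_Y e₀
  have := an_fk e₀ 3
  fun_prop (disch := norm_num)

lemma an_R4 {e₀ : (Fin 9 → L) × L × L × L} (hA : e₀.1 1 ≠ 0) :
    AnalyticAt L (fun e : (Fin 9 → L) × L × L × L => R4 e.1 e.2.2.1 e.2.2.2) e₀ := by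
  unfold R4
  have := an_1 e₀ 1
  have := an_x e₀
  have := an_Y e₀
  have := an_ρ e₀
  have := an_S3 hA
  have := an_fk e₀ 4
  fun_prop (disch := norm_num)

lemma an_S4 {e₀ : (Fin 9 → L) × L × L × L} (hA : e₀.1 1 ≠ 0) :
    AnalyticAt L (fun e : (Fin 9 → L) × L × L × L => S4 e.1 e.2.2.1 e.2.2.2) e₀ := by
  unfold S4
  have := an_1 e₀ 1
  have := an_x e₀
  have := an_Y e₀
  have := an_ρ e₀
  have := an_S3 hA
  have := an_R3 e₀
  have := an_fk e₀ 5
  have h2 : 2 * e₀.1 1 ≠ 0 := mul_ne_zero two_ne_zero hA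
  fun_prop (disch := exact h2)

lemma an_C7 {e₀ : (Fin 9 → L) × L × L × L} (hA : e₀.1 1 ≠ 0) :
    AnalyticAt L (fun e : (Fin 9 → L) × L × L × L => C7 e.1 e.2.2.1 e.2.2.2) e₀ := by
  unfold C7
  have := an_1 e₀ 1
  have := an_x e₀
  have := an_Y e₀
  have := an_S3 hA
  have := an_R3 e₀
  have := an_S4 hA
  have := an_R4 hA
  have := an_fk e₀ 7
  fun_prop

lemma an_C8 {e₀ : (Fin 9 → L) × L × L × L} (hA : e₀.1 1 ≠ 0) :
    AnalyticAt L (fun e : (Fin 9 → L) × L × L × L => C8 e.1 e.2.2.1 e.2.2.2) e₀ := by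
  unfold C8
  have := an_1 e₀ 1
  have := an_x e₀
  have := an_Y e₀
  have := an_S4 hA
  have := an_R4 hA
  have := an_fk e₀ 8
  fun_prop

/-- the map -/
def G8 (e : (Fin 9 → L) × L × L × L) : (Fin 9 → L) × L × L × L :=
  (e.1, e.2.1, e.2.2.2 ^ 2 - e.1 1 ^ 2 - e.2.2.1 * (e.2.2.1 * (cc e.1 + cd e.1 * e.2.2.1 +
    ce e.1 * e.2.2.1 ^ 2)),
    e.2.1 * C8 e.1 e.2.2.1 e.2.2.2 + e.2.2.1 * (e.1 0 * C7 e.1 e.2.2.1 e.2.2.2))

/-- the derivative -/
noncomputable def G8' (π₀ : Fin 9 → L) :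
    ((Fin 9 → L) × L × L × L) →L[L] ((Fin 9 → L) × L × L × L) :=
  (ContinuousLinearMap.fst L _ _).prod
    (((ContinuousLinearMap.fst L _ _).comp (ContinuousLinearMap.snd L _ _)).prod
      (((2 * π₀ 1) • ((ContinuousLinearMap.snd L _ _).comp ((ContinuousLinearMap.snd L _ _).comp
        (ContinuousLinearMap.snd L (Fin 9 → L) (L × L × L)))) -
        (2 * π₀ 1) • ((ContinuousLinearMap.proj (R := L) (φ := fun _ : Fin 9 => L) 1).comp
    (ContinuousLinearMap.fst L (Fin 9 → L) (L × L × L)))).prod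
      ((4 * π₀ 1) • ((ContinuousLinearMap.fst L _ _).comp (ContinuousLinearMap.snd L (Fin 9 → L)
        (L × L × L))) +
        (π₀ 0 * (-8 * π₀ 1)) • ((ContinuousLinearMap.fst L _ _).comp
        ((ContinuousLinearMap.snd L _ _).comp
        (ContinuousLinearMap.snd L (Fin 9 → L) (L × L × L)))))))

lemma G8'_apply (π₀ : Fin 9 → L) (e : (Fin 9 → L) × L × L × L) :
    G8' π₀ e = (e.1, e.2.1, 2 * π₀ 1 * e.2.2.2 - 2 * π₀ 1 * e.1 1,
      4 * π₀ 1 * e.2.1 + π₀ 0 * (-8 * π₀ 1) * e.2.2.1) := rfl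

lemma hd_G8 {π₀ : Fin 9 → L} (hA : π₀ 1 ≠ 0) :
    HasStrictFDerivAt G8 (G8' π₀) ((π₀, 0, 0, π₀ 1) : (Fin 9 → L) × L × L × L) := by
  set e₀ : (Fin 9 → L) × L × L × L := (π₀, 0, 0, π₀ 1) with he₀
  have h1 : HasStrictFDerivAt (fun e : (Fin 9 → L) × L × L × L => e.1)
      (ContinuousLinearMap.fst L _ _) e₀ := hasStrictFDerivAt_fst
  have h11 : HasStrictFDerivAt (fun e : (Fin 9 → L) × L × L × L => e.1 1)
      ((ContinuousLinearMap.proj (R := L) (φ := fun _ : Fin 9 => L) 1).comp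
    (ContinuousLinearMap.fst L (Fin 9 → L) (L × L × L))) e₀ :=
      ((ContinuousLinearMap.proj (R := L) (φ := fun _ : Fin 9 => L) 1).comp
    (ContinuousLinearMap.fst L (Fin 9 → L) (L × L × L))).hasStrictFDerivAt
  have h2 : HasStrictFDerivAt (fun e : (Fin 9 → L) × L × L × L => e.2.1)
      ((ContinuousLinearMap.fst L _ _).comp (ContinuousLinearMap.snd L _ _)) e₀ :=
    ((ContinuousLinearMap.fst L _ _).comp (ContinuousLinearMap.snd L (Fin 9 → L)
      (L × L × L))).hasStrictFDerivAt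
  have h3 : HasStrictFDerivAt (fun e : (Fin 9 → L) × L × L × L => e.2.2.1)
      ((ContinuousLinearMap.fst L _ _).comp ((ContinuousLinearMap.snd L _ _).comp
        (ContinuousLinearMap.snd L (Fin 9 → L) (L × L × L)))) e₀ :=
    ((ContinuousLinearMap.fst L _ _).comp ((ContinuousLinearMap.snd L _ _).comp
        (ContinuousLinearMap.snd L (Fin 9 → L) (L × L × L)))).hasStrictFDerivAt
  have h4 : HasStrictFDerivAt (fun e : (Fin 9 → L) × L × L × L => e.2.2.2)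
      ((ContinuousLinearMap.snd L _ _).comp ((ContinuousLinearMap.snd L _ _).comp
        (ContinuousLinearMap.snd L (Fin 9 → L) (L × L × L)))) e₀ :=
    ((ContinuousLinearMap.snd L _ _).comp ((ContinuousLinearMap.snd L _ _).comp
        (ContinuousLinearMap.snd L (Fin 9 → L) (L × L × L)))).hasStrictFDerivAt
  have hA' : e₀.1 1 ≠ 0 := hA
  have hu : AnalyticAt L (fun e : (Fin 9 → L) × L × L × L => e.2.2.1 * (cc e.1 +
      cd e.1 * e.2.2.1 + ce e.1 * e.2.2.1 ^ 2)) e₀ := by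
    have := an_cc e₀
    have := an_cd e₀
    have := an_ce e₀
    have := an_x e₀
    fun_prop
  have hv : AnalyticAt L (fun e : (Fin 9 → L) × L × L × L =>
      e.1 0 * C7 e.1 e.2.2.1 e.2.2.2) e₀ := by
    have := an_C7 hA'
    have := an_1 e₀ 0
    fun_prop
  have k1 := ((h4.pow 2).sub (h11.pow 2)).sub (h3.mul hu.hasStrictFDerivAt)
  have k2 := (h2.mul (an_C8 hA').hasStrictFDerivAt).add (h3.mul hv.hasStrictFDerivAt)
  have k3 := h1.prodMk (h2.prodMk (k1.prodMk k2))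
  refine k3.congr_fderiv (ContinuousLinearMap.ext fun e => ?_)
  rw [G8'_apply]
  have c8 := C8_zero hA
  have c7 := C7_zero hA
  simp only [ContinuousLinearMap.prod_apply, ContinuousLinearMap.add_apply,
    ContinuousLinearMap.sub_apply, ContinuousLinearMap.smul_apply, ContinuousLinearMap.comp_apply,
    ContinuousLinearMap.coe_fst', ContinuousLinearMap.coe_snd', he₀, smul_eq_mul, c8, c7,
    zero_mul]
  refine Prod.ext rfl (Prod.ext rfl (Prod.ext ?_ ?_))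
  · simp
  · simp

/-- **Local solutions, uniformly.** -/
theorem loc_fill {π₀ : Fin 9 → L} (hA : π₀ 1 ≠ 0) (hτ : π₀ 0 ≠ 0) {δ : ℝ} (hδ : 0 < δ) :
    ∃ δ' : ℝ, 0 < δ' ∧ ∀ π : Fin 9 → L, (∀ k, ‖π k - π₀ k‖ < δ') → ∀ t : L, ‖t‖ < δ' →
      ∃ x Y : L, ‖x‖ < δ ∧ ‖Y - π₀ 1‖ < δ ∧
        Y ^ 2 = π 1 ^ 2 + cc π * x ^ 2 + cd π * x ^ 3 + ce π * x ^ 4 ∧
        C8 π x Y ≠ 0 ∧ t * C8 π x Y = -(π 0 * x * C7 π x Y) := by
  have hd := hd_G8 hA
  have hsurj : (G8' π₀).range = ⊤ := by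
    rw [LinearMap.range_eq_top]
    rintro ⟨a, b, c, d⟩
    refine ⟨(a, b, (d - 4 * π₀ 1 * b) / (π₀ 0 * (-8 * π₀ 1)),
      (c + 2 * π₀ 1 * a 1) / (2 * π₀ 1)), ?_⟩
    change G8' π₀ _ = _
    rw [G8'_apply]
    refine Prod.ext rfl (Prod.ext rfl (Prod.ext ?_ ?_))
    · field_simp
      ring
    · field_simp
      ring
  have hmap := hd.map_nhds_eq_of_surj hsurj
  set e₀ : (Fin 9 → L) × L × L × L := (π₀, 0, 0, π₀ 1) with he₀
  have hG0 : G8 e₀ = (π₀, 0, 0, 0) := by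
    refine Prod.ext rfl (Prod.ext rfl (Prod.ext ?_ ?_))
    · change π₀ 1 ^ 2 - π₀ 1 ^ 2 - 0 * _ = (0 : L)
      ring
    · change 0 * _ + 0 * _ = (0 : L)
      ring
  have hev : ∀ᶠ e in 𝓝 e₀, ‖e.2.2.1‖ < δ ∧ ‖e.2.2.2 - π₀ 1‖ < δ ∧ C8 e.1 e.2.2.1 e.2.2.2 ≠ 0 := by
    have c1 : ContinuousAt (fun e : (Fin 9 → L) × L × L × L => ‖e.2.2.1‖) e₀ := by fun_prop
    have c2 : ContinuousAt (fun e : (Fin 9 → L) × L × L × L => ‖e.2.2.2 - π₀ 1‖) e₀ := by fun_prop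
    have c3 := (an_C8 (e₀ := e₀) hA).continuousAt
    have d1 := c1.eventually_lt_const (u := δ) (by simpa [he₀] using hδ)
    have d2 := c2.eventually_lt_const (u := δ) (by simpa [he₀] using hδ)
    have d3 := c3.eventually_ne (y := 0) (by
      change C8 π₀ 0 (π₀ 1) ≠ 0
      rw [C8_zero hA]
      exact mul_ne_zero (by norm_num) hA)
    filter_upwards [d1, d2, d3] with e k1 k2 k3
    exact ⟨k1, k2, k3⟩
  have him : G8 '' {e | ‖e.2.2.1‖ < δ ∧ ‖e.2.2.2 - π₀ 1‖ < δ ∧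
      C8 e.1 e.2.2.1 e.2.2.2 ≠ 0} ∈ 𝓝 (G8 e₀) := by
    rw [← hmap]
    exact image_mem_map hev
  rw [hG0] at him
  obtain ⟨δ', hδ', hb⟩ := Metric.mem_nhds_iff.1 him
  refine ⟨δ', hδ', fun π hπ t ht => ?_⟩
  have hmem : ((π, t, 0, 0) : (Fin 9 → L) × L × L × L) ∈
      Metric.ball ((π₀, 0, 0, 0) : (Fin 9 → L) × L × L × L) δ' := by
    rw [Metric.mem_ball, Prod.dist_eq, Prod.dist_eq, Prod.dist_eq]
    refine max_lt ?_ (max_lt ?_ (max_lt ?_ ?_))
    · rw [dist_pi_lt_iff hδ']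
      intro k
      rw [dist_eq_norm]
      exact hπ k
    · rw [dist_eq_norm, sub_zero]
      exact ht
    · rw [dist_self]; exact hδ'
    · rw [dist_self]; exact hδ'
  obtain ⟨⟨π', t', x, Y⟩, ⟨k1, k2, k3⟩, k4⟩ := hb hmem
  dsimp only at k1 k2 k3
  have e1 : π' = π := congrArg Prod.fst k4
  have e2 : t' = t := congrArg (fun z => z.2.1) k4
  subst e1 e2
  have e3 := congrArg (fun z => z.2.2.1) k4
  have e4 := congrArg (fun z => z.2.2.2) k4
  dsimp only [G8] at e3 e4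
  refine ⟨x, Y, k1, k2, ?_, k3, ?_⟩
  · linear_combination e3
  · linear_combination e4

end loc

end Pool.Agent.H436.CB
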