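import Pool.Agent.H436.CB.Loc

/-!
# Moves for given parameters (helper436)
-/

set_option autoImplicit false
set_option linter.unusedVariables false
set_option linter.unusedSectionVars false
set_option linter.deprecated false
set_option linter.unusedSimpArgs false

open Filter Topology Pool.Agent.Y720.MZ

namespace Pool.Agent.H436.CB

section map

variable {K L : Type*} [Field K] [CharZero K] [Field L] [CharZero L] (φ : K →+* L)

lemma fk_map (π : Fin 9 → K) (k : Fin 9) : φ (fk π k) = fk (fun k => φ (π k)) k := by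
  simp only [fk, map_mul, map_pow]

lemma ρ2_map (π : Fin 9 → K) : φ (ρ2 π) = ρ2 (fun k => φ (π k)) := by
  simp only [ρ2, map_div₀, map_add, fk_map, map_ofNat]

lemma cc_map (π : Fin 9 → K) : φ (cc π) = cc (fun k => φ (π k)) := by
  simp only [cc, map_div₀, map_add, map_mul, map_pow, fk_map, map_ofNat]

lemma cd_map (π : Fin 9 → K) : φ (cd π) = cd (fun k => φ (π k)) := by
  simp only [cd, map_div₀, map_add, map_sub, map_mul, map_pow, fk_map, map_ofNat]

lemma ce_map (π : Fin 9 → K) : φ (ce π) = ce (fun k => φ (π k)) := by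
  simp only [ce, map_div₀, map_add, map_sub, map_mul, map_pow, fk_map, ρ2_map, map_ofNat]

lemma th8_map (π : Fin 9 → K) (j : Fin 4) :
    φ ((th8 π).2 j) = (th8 (fun k => φ (π k))).2 j := by
  fin_cases j
  · exact map_zero φ
  · exact cc_map φ π
  · exact cd_map φ π
  · exact ce_map φ π

lemma S3_map (π : Fin 9 → K) (x Y : K) :
    φ (S3 π x Y) = S3 (fun k => φ (π k)) (φ x) (φ Y) := by
  simp only [S3, map_div₀, map_add, map_sub, map_mul, map_pow, fk_map, ρ2_map, map_one]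

lemma R3_map (π : Fin 9 → K) (x : K) :
    φ (R3 π x) = R3 (fun k => φ (π k)) (φ x) := by
  simp only [R3, map_div₀, map_add, map_sub, map_mul, map_pow, fk_map, ρ2_map, map_ofNat]

lemma R4_map (π : Fin 9 → K) (x Y : K) :
    φ (R4 π x Y) = R4 (fun k => φ (π k)) (φ x) (φ Y) := by
  simp only [R4, map_div₀, map_add, map_sub, map_mul, map_pow, fk_map, ρ2_map, S3_map, map_ofNat]

lemma S4_map (π : Fin 9 → K) (x Y : K) :
    φ (S4 π x Y) = S4 (fun k => φ (π k)) (φ x) (φ Y) := by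
  simp only [S4, map_div₀, map_add, map_sub, map_mul, map_pow, fk_map, ρ2_map, S3_map, R3_map,
    map_ofNat]

lemma C7_map (π : Fin 9 → K) (x Y : K) :
    φ (C7 π x Y) = C7 (fun k => φ (π k)) (φ x) (φ Y) := by
  simp only [C7, map_div₀, map_add, map_sub, map_mul, map_pow, fk_map, S3_map, R3_map,
    R4_map, S4_map, map_ofNat]

lemma C8_map (π : Fin 9 → K) (x Y : K) :
    φ (C8 π x Y) = C8 (fun k => φ (π k)) (φ x) (φ Y) := by
  simp only [C8, map_div₀, map_add, map_sub, map_mul, map_pow, fk_map, S3_map, R3_map,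
    R4_map, S4_map, map_ofNat]

end map

section loc

variable {L : Type*} [NontriviallyNormedField L] [CompleteSpace L] [CharZero L]

/-- continuity of the data -/
lemma th8_cont (π₀ : Fin 9 → L) {δ : ℝ} (hδ : 0 < δ) :
    ∃ δ' : ℝ, 0 < δ' ∧ ∀ π : Fin 9 → L, (∀ k, ‖π k - π₀ k‖ < δ') →
      ‖(th8 π).1 - (th8 π₀).1‖ < δ ∧ ∀ j, ‖(th8 π).2 j - (th8 π₀).2 j‖ < δ := by
  have h0 : ∀ j, ∀ᶠ π in 𝓝 π₀, ‖(th8 π).2 j - (th8 π₀).2 j‖ < δ := by
    intro j
    have hc : ContinuousAt (fun π : Fin 9 → L => ‖(th8 π).2 j - (th8 π₀).2 j‖) π₀ := by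
      have h1 : Continuous fun π : Fin 9 → L => (th8 π).2 j := by
        fin_cases j
        · exact continuous_const
        · change Continuous fun π : Fin 9 → L => cc π
          unfold cc fk
          fun_prop
        · change Continuous fun π : Fin 9 → L => cd π
          unfold cd fk
          fun_prop
        · change Continuous fun π : Fin 9 → L => ce π
          unfold ce ρ2 fk
          fun_prop
      exact (h1.sub continuous_const).norm.continuousAt
    exact hc.eventually_lt_const (by dsimp only; rw [sub_self, norm_zero]; exact hδ)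
  obtain ⟨δ', hδ', hb⟩ := Metric.eventually_nhds_iff_ball.1 (eventually_all.2 h0)
  refine ⟨min δ δ', lt_min hδ hδ', fun π hπ =>
    ⟨(hπ 1).trans_le (min_le_left _ _), hb π ?_⟩⟩
  rw [Metric.mem_ball, dist_pi_lt_iff hδ']
  intro k
  rw [dist_eq_norm]
  exact (hπ k).trans_le (min_le_right _ _)

/-- continuity of the new point -/
lemma new_cont {π : Fin 9 → L} (hA : π 1 ≠ 0) {x Y t : L} (hx : x ≠ 0)
    (h8 : C8 π x Y ≠ 0) (ht : t * C8 π x Y = -(π 0 * x * C7 π x Y)) {η : ℝ} (hη : 0 < η) :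
    ∃ δ : ℝ, 0 < δ ∧ ∀ x' Y' : L, ‖x' - x‖ < δ → ‖Y' - Y‖ < δ → x' ≠ 0 ∧ C8 π x' Y' ≠ 0 ∧
      ‖π 0 * (-(x' * C7 π x' Y' / C8 π x' Y')) - t‖ < η := by
  have hemb : Continuous fun e : L × L => ((π, 0, e.1, e.2) : (Fin 9 → L) × L × L × L) := by
    fun_prop
  have c8 : ContinuousAt (fun e : L × L => C8 π e.1 e.2) (x, Y) :=
    ContinuousAt.comp (f := fun e : L × L => ((π, 0, e.1, e.2) : (Fin 9 → L) × L × L × L))
      (g := fun e => C8 e.1 e.2.2.1 e.2.2.2)
      (an_C8 (e₀ := ((π, 0, x, Y) : (Fin 9 → L) × L × L × L)) hA).continuousAt hemb.continuousAt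
  have c7 : ContinuousAt (fun e : L × L => C7 π e.1 e.2) (x, Y) :=
    ContinuousAt.comp (f := fun e : L × L => ((π, 0, e.1, e.2) : (Fin 9 → L) × L × L × L))
      (g := fun e => C7 e.1 e.2.2.1 e.2.2.2)
      (an_C7 (e₀ := ((π, 0, x, Y) : (Fin 9 → L) × L × L × L)) hA).continuousAt hemb.continuousAt
  have c1 : ContinuousAt (fun e : L × L => e.1) (x, Y) := continuousAt_fst
  have cT : ContinuousAt (fun e : L × L =>
      ‖π 0 * (-(e.1 * C7 π e.1 e.2 / C8 π e.1 e.2)) - t‖) (x, Y) :=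
    ((continuousAt_const.mul ((c1.mul c7).div c8 h8).neg).sub continuousAt_const).norm
  have hval : π 0 * (-(x * C7 π x Y / C8 π x Y)) - t = 0 := by
    have : t = -(π 0 * x * C7 π x Y) / C8 π x Y := by
      rw [eq_div_iff h8, ht]
    rw [this]
    field_simp
    ring
  have e1 := c1.eventually_ne (y := 0) hx
  have e2 := c8.eventually_ne (y := 0) h8
  have e3 := cT.eventually_lt_const (u := η) (by
    dsimp only
    rw [hval, norm_zero]; exact hη)
  obtain ⟨δ, hδ, hb⟩ := Metric.eventually_nhds_iff_ball.1 (e1.and (e2.and e3))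
  refine ⟨δ, hδ, fun x' Y' h1 h2 => hb (x', Y') ?_⟩
  rw [Metric.mem_ball, Prod.dist_eq]
  refine max_lt ?_ ?_
  · rw [dist_eq_norm]; exact h1
  · rw [dist_eq_norm]; exact h2

/-- nonzero elements close to a given one -/
lemma near_ne (t : L) {δ η : ℝ} (ht : ‖t‖ < δ) (hη : 0 < η) :
    ∃ t' : L, t' ≠ 0 ∧ ‖t'‖ < δ ∧ ‖t' - t‖ < η := by
  by_cases h : t = 0
  · obtain ⟨u, hu0, hu⟩ := NormedField.exists_norm_lt L (lt_min (lt_of_le_of_lt (norm_nonneg t) ht)
      hη)
    refine ⟨u, norm_pos_iff.1 hu0, hu.trans_le (min_le_left _ _), ?_⟩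
    rw [h, sub_zero]
    exact hu.trans_le (min_le_right _ _)
  · exact ⟨t, h, ht, by rw [sub_self, norm_zero]; exact hη⟩

end loc

section glob

variable {K : Type*} [Field K] [CharZero K] {V : Type*} [Finite V] {L : V → Type*}
  [∀ v, NontriviallyNormedField (L v)] [∀ v, CompleteSpace (L v)] [∀ v, CharZero (L v)]
  {s : ∀ v, K →+* L v}

/-- the value of the polynomial -/
def pv {R : Type*} [CommRing R] (π : Fin 9 → R) (u : R) : R :=
  1 + π 2 * u ^ 2 + π 3 * u ^ 3 + π 4 * u ^ 4 + π 5 * u ^ 5 + π 6 * u ^ 6 + π 7 * u ^ 7 +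
    π 8 * u ^ 8

/-- **Moves for given parameters.** -/
theorem mv_par [Nonempty V] (HWs : HW s) {π₀ : ∀ v, Fin 9 → L v} (hA : ∀ v, π₀ v 1 ≠ 0)
    (hτ : ∀ v, π₀ v 0 ≠ 0) (hIO : ∀ v, IOt (th8 (π₀ v))) :
    ∃ δ : ℝ, 0 < δ ∧ ∀ π : Fin 9 → K, (∀ v k, ‖s v (π k) - π₀ v k‖ < δ) →
      ∀ t : ∀ v, L v, (∀ v, ‖t v‖ < δ) → ∀ η : ℝ, 0 < η →
      ∃ u R S : K, R ^ 2 - π 1 * S ^ 2 = pv π u ∧ ∀ v, ‖s v u - t v‖ < η := by
  obtain ⟨δ₁, hδ₁, hW⟩ := HWs (fun v => th8 (π₀ v)) hA hIO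
  choose δc hδc hc using fun v => th8_cont (π₀ v) hδ₁
  choose δl hδl hl using fun v => loc_fill (hA v) (hτ v) hδ₁
  obtain ⟨δ₂, hδ₂, hm₂⟩ := fin_min hδc
  obtain ⟨δ₃, hδ₃, hm₃⟩ := fin_min hδl
  obtain ⟨δ₄, hδ₄, hm₄⟩ := fin_min (f := fun v : V => ‖π₀ v 1‖) fun v => norm_pos_iff.2 (hA v)
  refine ⟨min δ₂ (min δ₃ δ₄), lt_min hδ₂ (lt_min hδ₃ hδ₄), fun π hπ t ht η hη => ?_⟩
  have hA' : ∀ v, s v (π 1) ≠ 0 := by
    intro v h0
    have h1 := (hπ v 1).trans_le ((min_le_right _ _).trans ((min_le_right _ _).trans (hm₄ v)))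
    rw [h0, zero_sub, norm_neg] at h1
    exact lt_irrefl _ h1
  choose t' h0 h1 h2 using fun v => near_ne (t v) (ht v) (half_pos hη)
  choose x Y g1 g2 g3 g4 g5 using fun v => hl v (fun k => s v (π k))
    (fun k => (hπ v k).trans_le ((min_le_right _ _).trans ((min_le_left _ _).trans (hm₃ v)))) (t' v)
    ((h1 v).trans_le ((min_le_right _ _).trans ((min_le_left _ _).trans (hm₃ v))))
  have hx : ∀ v, x v ≠ 0 := by
    intro v hx0
    refine mul_ne_zero (h0 v) (g4 v) ?_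
    rw [g5 v, hx0]
    ring
  choose δn hδn hn using fun v => new_cont (π := fun k => s v (π k)) (hA' v) (hx v) (g4 v) (g5 v)
    (half_pos hη)
  obtain ⟨η₁, hη₁, hmη⟩ := fin_min hδn
  have hcv : ∀ v, _ := fun v => hc v (fun k => s v (π k))
    (fun k => (hπ v k).trans_le ((min_le_left _ _).trans (hm₂ v)))
  obtain ⟨X, Z, k1, k2⟩ := hW (th8 π) (fun v => (hcv v).1)
    (fun v j => by
      rw [th8_map]
      exact (hcv v).2 j)
    x Y g1 g2 (fun v => by
      have e : (fun j => s v ((th8 π).2 j)) = (th8 (fun k => s v (π k))).2 := by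
        funext j
        exact th8_map (s v) π j
      rw [e, g3 v]
      have e2 : qv (s v (th8 π).1) (th8 fun k => s v (π k)).2 (x v) = (s v (π 1)) ^ 2 + 0 * x v +
          cc (fun k => s v (π k)) * x v ^ 2 + cd (fun k => s v (π k)) * x v ^ 3 +
          ce (fun k => s v (π k)) * x v ^ 4 := rfl
      rw [e2]
      ring) η₁ hη₁
  have hq : ∀ v, _ := fun v => hn v (s v X) (s v Z) ((k2 v).1.trans_le (hmη v))
    ((k2 v).2.trans_le (hmη v))
  obtain ⟨v₀⟩ := ‹Nonempty V›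
  have hX : X ≠ 0 := by
    intro h
    apply (hq v₀).1
    rw [h, map_zero]
  have h8 : C8 π X Z ≠ 0 := by
    intro h
    apply (hq v₀).2.1
    rw [← C8_map, h, map_zero]
  have hπ1 : π 1 ≠ 0 := (map_ne_zero (s v₀)).1 (hA' v₀)
  have hZ : Z ^ 2 = π 1 ^ 2 + cc π * X ^ 2 + cd π * X ^ 3 + ce π * X ^ 4 := by
    rw [k1]
    change π 1 ^ 2 + 0 * X + cc _ * X ^ 2 + cd _ * X ^ 3 + ce _ * X ^ 4 = _
    ring
  obtain ⟨R, S, hRS⟩ := new_pt hπ1 hX hZ h8 rfl
  refine ⟨π 0 * (-(X * C7 π X Z / C8 π X Z)), R, S, ?_, fun v => ?_⟩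
  · rw [hRS]
    simp only [fk, pv]
    simp only [Fin.isValue, show ((2 : Fin 9) : ℕ) = 2 from rfl,
      show ((3 : Fin 9) : ℕ) = 3 from rfl, show ((4 : Fin 9) : ℕ) = 4 from rfl,
      show ((5 : Fin 9) : ℕ) = 5 from rfl, show ((6 : Fin 9) : ℕ) = 6 from rfl,
      show ((7 : Fin 9) : ℕ) = 7 from rfl, show ((8 : Fin 9) : ℕ) = 8 from rfl]
    ring
  · have e1 : s v (π 0 * (-(X * C7 π X Z / C8 π X Z))) = (fun k => s v (π k)) 0 *
        (-(s v X * C7 (fun k => s v (π k)) (s v X) (s v Z) /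
          C8 (fun k => s v (π k)) (s v X) (s v Z))) := by
      simp only [map_mul, map_neg, map_div₀, C7_map, C8_map]
    rw [e1]
    have h3 := (hq v).2.2
    have h4 := h2 v
    have h5 := norm_sub_le_norm_sub_add_norm_sub ((fun k => s v (π k)) 0 *
        (-(s v X * C7 (fun k => s v (π k)) (s v X) (s v Z) /
          C8 (fun k => s v (π k)) (s v X) (s v Z)))) (t' v) (t v)
    linarith

end glob

end Pool.Agent.H436.CB
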