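import Pool.Agent.H436.CB.Mv44

/-!
# Moves for one condition of degree four and two of degree two (helper436)
-/

set_option autoImplicit false
set_option linter.unusedVariables false
set_option linter.unusedSectionVars false
set_option linter.deprecated false
set_option linter.unusedSimpArgs false

open Filter Topology Pool.Agent.Y720.MZ

namespace Pool.Agent.H436.CB

section alg

variable {F : Type*} [Field F] [CharZero F]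

/-- the pull back of a polynomial of degree two along a quadratic map -/
def pu2 (p1 p2 q0 q1 q2 : F) (g : Fin 10 → F) : Fin 10 → F :=
  ![q0 ^ 2 * g 0,
    p1 * q0 * g 1 + 2 * q0 * q1 * g 0,
    p1 ^ 2 * g 2 + p1 * q1 * g 1 + p2 * q0 * g 1 + 2 * q0 * q2 * g 0 + q1 ^ 2 * g 0,
    2 * p1 * p2 * g 2 + p1 * q2 * g 1 + p2 * q1 * g 1 + 2 * q1 * q2 * g 0,
    p2 ^ 2 * g 2 + p2 * q2 * g 1 + q2 ^ 2 * g 0, 0, 0, 0, 0, g 9]

lemma pu2_Dl (p1 p2 q0 q1 q2 : F) (g : Fin 10 → F) : Dl 4 (pu2 p1 p2 q0 q1 q2 g) := by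
  intro k h1 h2
  fin_cases k
  all_goals first | rfl | (exfalso; revert h1 h2; decide)

lemma pu2_gv {p1 p2 q0 q1 q2 : F} {g : Fin 10 → F} {y : F} :
    gv (pu2 p1 p2 q0 q1 q2 g) y =
      g 0 * (q0 + q1 * y + q2 * y ^ 2) ^ 2 +
      g 1 * (y * (p1 + p2 * y)) * (q0 + q1 * y + q2 * y ^ 2) +
      g 2 * (y * (p1 + p2 * y)) ^ 2 := by
  obtain ⟨h, hh⟩ : ∃ h, h = pu2 p1 p2 q0 q1 q2 g := ⟨_, rfl⟩
  have h0 : h 0 = q0 ^ 2 * g 0 := by rw [hh]; rfl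
  have h1 : h 1 = p1 * q0 * g 1 + 2 * q0 * q1 * g 0 := by rw [hh]; rfl
  have h2 : h 2 = p1 ^ 2 * g 2 + p1 * q1 * g 1 + p2 * q0 * g 1 + 2 * q0 * q2 * g 0 +
    q1 ^ 2 * g 0 := by rw [hh]; rfl
  have h3 : h 3 = 2 * p1 * p2 * g 2 + p1 * q2 * g 1 + p2 * q1 * g 1 + 2 * q1 * q2 * g 0 := by
    rw [hh]; rfl
  have h4 : h 4 = p2 ^ 2 * g 2 + p2 * q2 * g 1 + q2 ^ 2 * g 0 := by rw [hh]; rfl
  have h5 : h 5 = 0 := by rw [hh]; rfl
  have h6 : h 6 = 0 := by rw [hh]; rfl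
  have h7 : h 7 = 0 := by rw [hh]; rfl
  have h8 : h 8 = 0 := by rw [hh]; rfl
  rw [← hh, gv, h0, h1, h2, h3, h4, h5, h6, h7, h8]
  ring

/-- the solution of a condition of degree two -/
lemma pu2_sol {p1 p2 q0 q1 q2 : F} {g : Fin 10 → F} (hd : Dl 2 g) {y : F}
    (hq : q0 + q1 * y + q2 * y ^ 2 ≠ 0) (h : Sol (pu2 p1 p2 q0 q1 q2 g) y) :
    Sol g (y * (p1 + p2 * y) / (q0 + q1 * y + q2 * y ^ 2)) := by
  obtain ⟨R, S, h⟩ := h
  rw [pu2_gv, show pu2 p1 p2 q0 q1 q2 g 0 = q0 ^ 2 * g 0 from rfl,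
    show pu2 p1 p2 q0 q1 q2 g 9 = g 9 from rfl] at h
  obtain ⟨q, hqd⟩ : ∃ q, q = q0 + q1 * y + q2 * y ^ 2 := ⟨_, rfl⟩
  rw [← hqd] at hq h ⊢
  refine ⟨q0 * R / q, q0 * S / q, ?_⟩
  rw [gv, hd 3 (by decide) (by decide), hd 4 (by decide) (by decide), hd 5 (by decide) (by decide),
    hd 6 (by decide) (by decide), hd 7 (by decide) (by decide), hd 8 (by decide) (by decide)]
  have hq4 : q ^ 2 ≠ 0 := pow_ne_zero 2 hq
  apply mul_left_cancel₀ hq4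
  have e1 : q ^ 2 * (g 0 * ((q0 * R / q) ^ 2 - g 9 * (q0 * S / q) ^ 2)) =
      q0 ^ 2 * g 0 * (R ^ 2 - g 9 * S ^ 2) := by
    field_simp
  rw [e1, h]
  field_simp
  ring

/-- the covariant of the pull back -/
lemma pu2_T {c g : Fin 10 → F} {σ : F} :
    Tg (pu2 (P1 c σ) (P2 c) (c 9) (Q1 c σ) (Q2 c σ) g) =
      -2048 * c 9 ^ 5 * c 0 ^ 2 * σ * Dg g *
        (g 0 * Tg c + c 9 * σ ^ 2 * (2 * c 0 * g 1 - c 1 * g 0)) := by
  have h0 : pu2 (P1 c σ) (P2 c) (c 9) (Q1 c σ) (Q2 c σ) g 0 = c 9 ^ 2 * g 0 := rfl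
  have h1 : pu2 (P1 c σ) (P2 c) (c 9) (Q1 c σ) (Q2 c σ) g 1 =
    P1 c σ * c 9 * g 1 + 2 * c 9 * Q1 c σ * g 0 := rfl
  have h2 : pu2 (P1 c σ) (P2 c) (c 9) (Q1 c σ) (Q2 c σ) g 2 =
    P1 c σ ^ 2 * g 2 + P1 c σ * Q1 c σ * g 1 + P2 c * c 9 * g 1 + 2 * c 9 * Q2 c σ * g 0 +
    Q1 c σ ^ 2 * g 0 := rfl
  have h3 : pu2 (P1 c σ) (P2 c) (c 9) (Q1 c σ) (Q2 c σ) g 3 =
    2 * P1 c σ * P2 c * g 2 + P1 c σ * Q2 c σ * g 1 + P2 c * Q1 c σ * g 1 +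
      2 * Q1 c σ * Q2 c σ * g 0 := rfl
  rw [Tg, h0, h1, h2, h3]
  unfold P1 P2 Q1 Q2 F4c rr Hg Tg Dg
  ring

/-- the Hessian of the pull back -/
lemma pu2_H {c g : Fin 10 → F} {σ : F} :
    Hg (pu2 (P1 c σ) (P2 c) (c 9) (Q1 c σ) (Q2 c σ) g) = c 9 ^ 3 *
      (-64 * c 9 ^ 2 * g 0 ^ 2 * σ ^ 4 +
      c 9 * (2048 * c 0 ^ 2 * g 0 * g 2 - 768 * c 0 ^ 2 * g 1 ^ 2 + 256 * c 0 * c 1 * g 0 * g 1 -
        512 * c 0 * c 2 * g 0 ^ 2 + 128 * c 1 ^ 2 * g 0 ^ 2) * σ ^ 2 +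
      (-2048 * c 0 ^ 3 * c 3 * g 0 * g 1 + 4096 * c 0 ^ 3 * c 4 * g 0 ^ 2 +
        1024 * c 0 ^ 2 * c 1 * c 2 * g 0 * g 1 - 1024 * c 0 ^ 2 * c 2 ^ 2 * g 0 ^ 2 -
        256 * c 0 * c 1 ^ 3 * g 0 * g 1 + 512 * c 0 * c 1 ^ 2 * c 2 * g 0 ^ 2 -
        64 * c 1 ^ 4 * g 0 ^ 2)) := by
  have h0 : pu2 (P1 c σ) (P2 c) (c 9) (Q1 c σ) (Q2 c σ) g 0 = c 9 ^ 2 * g 0 := rfl
  have h1 : pu2 (P1 c σ) (P2 c) (c 9) (Q1 c σ) (Q2 c σ) g 1 =
    P1 c σ * c 9 * g 1 + 2 * c 9 * Q1 c σ * g 0 := rfl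
  have h2 : pu2 (P1 c σ) (P2 c) (c 9) (Q1 c σ) (Q2 c σ) g 2 =
    P1 c σ ^ 2 * g 2 + P1 c σ * Q1 c σ * g 1 + P2 c * c 9 * g 1 + 2 * c 9 * Q2 c σ * g 0 +
    Q1 c σ ^ 2 * g 0 := rfl
  rw [Hg, h0, h1, h2]
  unfold P1 P2 Q1 Q2 F4c rr Hg Tg
  ring

end alg

section map

variable {K L : Type*} [Field K] [CharZero K] [Field L] [CharZero L] (φ : K →+* L)

lemma pu2_map (p1 p2 q0 q1 q2 : K) (g : Fin 10 → K) (k : Fin 10) :
    φ (pu2 p1 p2 q0 q1 q2 g k) =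
      pu2 (φ p1) (φ p2) (φ q0) (φ q1) (φ q2) (fun k => φ (g k)) k := by
  fin_cases k
  all_goals
    dsimp only [pu2]
    simp [map_add, map_mul, map_pow, map_ofNat]

end map

section loc

variable {L : Type*} [NontriviallyNormedField L] [CharZero L]

lemma pu2_cont {X : Type*} [TopologicalSpace X] {p1 p2 q0 q1 q2 : X → L} {g : X → Fin 10 → L}
    (h1 : Continuous p1) (h2 : Continuous p2) (h3 : Continuous q0) (h4 : Continuous q1)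
    (h5 : Continuous q2) (hg : ∀ k, Continuous fun x => g x k) (k : Fin 10) :
    Continuous fun x => pu2 (p1 x) (p2 x) (q0 x) (q1 x) (q2 x) (g x) k := by
  have g0 := hg 0
  have g1 := hg 1
  have g2 := hg 2
  have g9 := hg 9
  fin_cases k
  all_goals
    dsimp only [pu2]
    try simp only [Matrix.cons_val]
    fun_prop

end loc

section glob

variable {K : Type*} [Field K] [CharZero K] {V : Type*} [Finite V] {L : V → Type*}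
  [∀ v, NontriviallyNormedField (L v)] [∀ v, CompleteSpace (L v)] [∀ v, CharZero (L v)]
  {s : ∀ v, K →+* L v}

/-- three conditions -/
def Sy3 (d e f : ℕ) (θ : Fin 3 × Fin 10 → K) (u : K) : Prop :=
  Dl d (row θ 0) → Dl e (row θ 1) → Dl f (row θ 2) →
    Sol (row θ 0) u ∧ Sol (row θ 1) u ∧ Sol (row θ 2) u

/-- the pulled back system -/
def φ422 {F : Type*} [Field F] (σ : F) (θ : Fin 3 × Fin 10 → F) : Fin 2 × Fin 10 → F :=
  fun ik => if ik.1 = 0 then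
    pu2 (P1 (row θ 0) σ) (P2 (row θ 0)) (row θ 0 9) (Q1 (row θ 0) σ) (Q2 (row θ 0) σ)
      (row θ 1) ik.2
    else pu2 (P1 (row θ 0) σ) (P2 (row θ 0)) (row θ 0 9) (Q1 (row θ 0) σ) (Q2 (row θ 0) σ)
      (row θ 2) ik.2

lemma φ422_zero {F : Type*} [Field F] (σ : F) (θ : Fin 3 × Fin 10 → F) :
    row (φ422 σ θ) 0 = pu2 (P1 (row θ 0) σ) (P2 (row θ 0)) (row θ 0 9) (Q1 (row θ 0) σ)
      (Q2 (row θ 0) σ) (row θ 1) := rfl

lemma φ422_one {F : Type*} [Field F] (σ : F) (θ : Fin 3 × Fin 10 → F) :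
    row (φ422 σ θ) 1 = pu2 (P1 (row θ 0) σ) (P2 (row θ 0)) (row θ 0 9) (Q1 (row θ 0) σ)
      (Q2 (row θ 0) σ) (row θ 2) := rfl

/-- **Moves for one condition of degree four and two of degree two.** -/
theorem mv422 [Nonempty V] (h8 : M8 s) {θ₀ : ∀ v, Fin 3 × Fin 10 → L v}
    (c9 : ∀ v, row (θ₀ v) 0 9 ≠ 0) (c0 : ∀ v, row (θ₀ v) 0 0 ≠ 0)
    (cT : ∀ v, Tg (row (θ₀ v) 0) ≠ 0)
    (g9 : ∀ v, row (θ₀ v) 1 9 ≠ 0) (g0 : ∀ v, row (θ₀ v) 1 0 ≠ 0)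
    (gD : ∀ v, Dg (row (θ₀ v) 1) ≠ 0)
    (h9 : ∀ v, row (θ₀ v) 2 9 ≠ 0) (h0 : ∀ v, row (θ₀ v) 2 0 ≠ 0) :
    Mv s (Sy3 4 2 2) θ₀ := by
  obtain ⟨σ, hσ0, hσ⟩ := exists_good (s := s) (fun v =>
    (Polynomial.C (row (θ₀ v) 1 0 * Tg (row (θ₀ v) 0)) +
      Polynomial.C (row (θ₀ v) 0 9 * (2 * row (θ₀ v) 0 0 * row (θ₀ v) 1 1 -
        row (θ₀ v) 0 1 * row (θ₀ v) 1 0)) * Polynomial.X ^ 2) *
    (Polynomial.C (-64 * row (θ₀ v) 0 9 ^ 2 * row (θ₀ v) 2 0 ^ 2) * Polynomial.X ^ 4 +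
      (Polynomial.C (row (θ₀ v) 0 9 * (2048 * row (θ₀ v) 0 0 ^ 2 * row (θ₀ v) 2 0 *
        row (θ₀ v) 2 2 - 768 * row (θ₀ v) 0 0 ^ 2 * row (θ₀ v) 2 1 ^ 2 +
        256 * row (θ₀ v) 0 0 * row (θ₀ v) 0 1 * row (θ₀ v) 2 0 * row (θ₀ v) 2 1 -
        512 * row (θ₀ v) 0 0 * row (θ₀ v) 0 2 * row (θ₀ v) 2 0 ^ 2 +
        128 * row (θ₀ v) 0 1 ^ 2 * row (θ₀ v) 2 0 ^ 2)) * Polynomial.X ^ 2 +
      Polynomial.C (-2048 * row (θ₀ v) 0 0 ^ 3 * row (θ₀ v) 0 3 * row (θ₀ v) 2 0 *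
        row (θ₀ v) 2 1 + 4096 * row (θ₀ v) 0 0 ^ 3 * row (θ₀ v) 0 4 * row (θ₀ v) 2 0 ^ 2 +
        1024 * row (θ₀ v) 0 0 ^ 2 * row (θ₀ v) 0 1 * row (θ₀ v) 0 2 * row (θ₀ v) 2 0 *
        row (θ₀ v) 2 1 - 1024 * row (θ₀ v) 0 0 ^ 2 * row (θ₀ v) 0 2 ^ 2 * row (θ₀ v) 2 0 ^ 2 -
        256 * row (θ₀ v) 0 0 * row (θ₀ v) 0 1 ^ 3 * row (θ₀ v) 2 0 * row (θ₀ v) 2 1 +
        512 * row (θ₀ v) 0 0 * row (θ₀ v) 0 1 ^ 2 * row (θ₀ v) 0 2 * row (θ₀ v) 2 0 ^ 2 -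
        64 * row (θ₀ v) 0 1 ^ 4 * row (θ₀ v) 2 0 ^ 2)))) (fun v => by
      refine mul_ne_zero (fun h => ?_) (fun h => ?_)
      · have h1 := congrArg (Polynomial.eval 0) h
        simp only [Polynomial.eval_add, Polynomial.eval_mul, Polynomial.eval_C,
          Polynomial.eval_pow, Polynomial.eval_X, Polynomial.eval_zero] at h1
        apply mul_ne_zero (g0 v) (cT v)
        linear_combination h1
      · have h1 := congrArg (fun p => Polynomial.coeff p 4) h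
        simp only [Polynomial.coeff_add, Polynomial.coeff_C_mul, Polynomial.coeff_X_pow,
          Polynomial.coeff_C, Polynomial.coeff_zero] at h1
        apply mul_ne_zero (mul_ne_zero (show (-64 : L v) ≠ 0 by norm_num)
          (pow_ne_zero 2 (c9 v))) (pow_ne_zero 2 (h0 v))
        simpa using h1)
  refine pull (Q' := Sy2 4 4) (φ422 σ) (fun v => φ422 (s v σ)) ?_
    (fun θ y => P1 (row θ 0) σ + P2 (row θ 0) * y)
    (fun θ y => row θ 0 9 + Q1 (row θ 0) σ * y + Q2 (row θ 0) σ * y ^ 2)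
    (fun v e => P1 (row e.1 0) (s v σ) + P2 (row e.1 0) * e.2)
    (fun v e => row e.1 0 9 + Q1 (row e.1 0) (s v σ) * e.2 + Q2 (row e.1 0) (s v σ) * e.2 ^ 2)
    ?_ ?_ ?_ ?_ ?_ ?_ ?_ ?_ ?_
  · rintro v θ ⟨i, k⟩
    fin_cases i
    · change s v (pu2 _ _ _ _ _ _ k) = pu2 _ _ _ _ _ _ k
      rw [pu2_map, P1_map, P2_map, Q1_map, Q2_map]
      rfl
    · change s v (pu2 _ _ _ _ _ _ k) = pu2 _ _ _ _ _ _ k
      rw [pu2_map, P1_map, P2_map, Q1_map, Q2_map]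
      rfl
  · intro v θ y
    rw [map_add, map_mul, P1_map, P2_map]
    rfl
  · intro v θ y
    rw [map_add, map_add, map_mul, map_mul, map_pow, Q1_map, Q2_map]
    rfl
  · rintro v ⟨i, k⟩
    fin_cases i
    · exact (pu2_cont (P1_cont 0 _) (P2_cont 0) (row_cont 0 9) (Q1_cont 0 _) (Q2_cont 0 _)
        (fun k => row_cont 1 k) k).continuousAt
    · exact (pu2_cont (P1_cont 0 _) (P2_cont 0) (row_cont 0 9) (Q1_cont 0 _) (Q2_cont 0 _)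
        (fun k => row_cont 2 k) k).continuousAt
  · exact fun v e => an_P 0 (s v σ) e
  · exact fun v e => an_q 0 (s v σ) e
  · intro v
    dsimp only
    rw [mul_zero, add_zero, P1]
    exact mul_ne_zero (mul_ne_zero (mul_ne_zero (by norm_num) (c9 v))
      ((map_ne_zero (s v)).2 hσ0)) (c0 v)
  · intro v
    dsimp only
    rw [mul_zero, zero_pow two_ne_zero, mul_zero, add_zero, add_zero]
    exact c9 v
  · intro θ y hq h hd0 hd1 hd2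
    obtain ⟨k1, k2⟩ := h (by rw [φ422_zero]; exact pu2_Dl _ _ _ _ _ _)
      (by rw [φ422_one]; exact pu2_Dl _ _ _ _ _ _)
    rw [φ422_zero] at k1
    rw [φ422_one] at k2
    exact ⟨t4_sol hd0 σ hq, pu2_sol hd1 hq k1, pu2_sol hd2 hq k2⟩
  · have hk := fun v => Polynomial.eval_mul (R := L v) ▸ hσ v
    refine mv44 h8 (fun v => ?_) (fun v => ?_) (fun v => ?_) (fun v => ?_) (fun v => ?_)
      (fun v => ?_)
    · exact g9 v
    · exact mul_ne_zero (pow_ne_zero 2 (c9 v)) (g0 v)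
    · rw [φ422_zero, pu2_T]
      have h1 := left_ne_zero_of_mul (hk v)
      simp only [Polynomial.eval_add, Polynomial.eval_mul, Polynomial.eval_C,
        Polynomial.eval_pow, Polynomial.eval_X] at h1
      refine mul_ne_zero (mul_ne_zero (mul_ne_zero (mul_ne_zero (mul_ne_zero (by norm_num)
        (pow_ne_zero 5 (c9 v))) (pow_ne_zero 2 (c0 v))) ((map_ne_zero (s v)).2 hσ0)) (gD v)) ?_
      intro h2
      apply h1
      linear_combination h2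
    · exact h9 v
    · exact mul_ne_zero (pow_ne_zero 2 (c9 v)) (h0 v)
    · rw [φ422_one, pu2_H]
      have h1 := right_ne_zero_of_mul (hk v)
      simp only [Polynomial.eval_add, Polynomial.eval_mul, Polynomial.eval_C,
        Polynomial.eval_pow, Polynomial.eval_X] at h1
      refine mul_ne_zero (pow_ne_zero 3 (c9 v)) ?_
      intro h2
      apply h1
      linear_combination h2

end glob

end Pool.Agent.H436.CB
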