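import Pool.Agent.H436.CB.T44

/-!
# Moves for two conditions of degree four (helper436)
-/

set_option autoImplicit false
set_option linter.unusedVariables false
set_option linter.unusedSectionVars false
set_option linter.deprecated false
set_option linter.unusedSimpArgs false

open Filter Topology Pool.Agent.Y720.MZ

namespace Pool.Agent.H436.CB

/-- a row of a system -/
def row {F : Type*} {m : ℕ} (θ : Fin m × Fin 10 → F) (i : Fin m) : Fin 10 → F :=
  fun k => θ (i, k)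

/-- the degree of a condition is at most `d` -/
def Dl {F : Type*} [Zero F] (d : ℕ) (g : Fin 10 → F) : Prop :=
  ∀ k : Fin 10, d < (k : ℕ) → (k : ℕ) < 9 → g k = 0

section loc

variable {L : Type*} [NontriviallyNormedField L] [CharZero L] {m : ℕ}

lemma row_cont (i : Fin m) (k : Fin 10) :
    Continuous fun θ : Fin m × Fin 10 → L => row θ i k := continuous_apply (i, k)

lemma an_row (e₀ : (Fin m × Fin 10 → L) × L) (i : Fin m) (k : Fin 10) :
    AnalyticAt L (fun e : (Fin m × Fin 10 → L) × L => row e.1 i k) e₀ := an_e e₀ (i, k)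

lemma Tg_cont (i : Fin m) : Continuous fun θ : Fin m × Fin 10 → L => Tg (row θ i) := by
  have := row_cont (L := L) i
  unfold Tg
  fun_prop

lemma P1_cont (i : Fin m) (σ : L) :
    Continuous fun θ : Fin m × Fin 10 → L => P1 (row θ i) σ := by
  have := row_cont (L := L) i
  unfold P1
  fun_prop

lemma P2_cont (i : Fin m) : Continuous fun θ : Fin m × Fin 10 → L => P2 (row θ i) := by
  have := row_cont (L := L) i
  unfold P2 Tg
  fun_prop

lemma Q1_cont (i : Fin m) (σ : L) :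
    Continuous fun θ : Fin m × Fin 10 → L => Q1 (row θ i) σ := by
  have := row_cont (L := L) i
  unfold Q1
  fun_prop

lemma Q2_cont (i : Fin m) (σ : L) :
    Continuous fun θ : Fin m × Fin 10 → L => Q2 (row θ i) σ := by
  have := row_cont (L := L) i
  unfold Q2 F4c rr Hg Tg
  fun_prop

lemma an_P (i : Fin m) (σ : L) (e₀ : (Fin m × Fin 10 → L) × L) :
    AnalyticAt L (fun e : (Fin m × Fin 10 → L) × L =>
      P1 (row e.1 i) σ + P2 (row e.1 i) * e.2) e₀ := by
  have a0 := an_row e₀ i 0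
  have a1 := an_row e₀ i 1
  have a2 := an_row e₀ i 2
  have a3 := an_row e₀ i 3
  have a9 := an_row e₀ i 9
  have ay := an_y e₀
  unfold P1 P2 Tg
  fun_prop

lemma an_q (i : Fin m) (σ : L) (e₀ : (Fin m × Fin 10 → L) × L) :
    AnalyticAt L (fun e : (Fin m × Fin 10 → L) × L =>
      row e.1 i 9 + Q1 (row e.1 i) σ * e.2 + Q2 (row e.1 i) σ * e.2 ^ 2) e₀ := by
  have a0 := an_row e₀ i 0
  have a1 := an_row e₀ i 1
  have a2 := an_row e₀ i 2
  have a3 := an_row e₀ i 3
  have a4 := an_row e₀ i 4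
  have a9 := an_row e₀ i 9
  have ay := an_y e₀
  unfold Q1 Q2 F4c rr Hg Tg
  fun_prop

end loc

section glob

variable {K : Type*} [Field K] [CharZero K] {V : Type*} [Finite V] {L : V → Type*}
  [∀ v, NontriviallyNormedField (L v)] [∀ v, CompleteSpace (L v)] [∀ v, CharZero (L v)]
  {s : ∀ v, K →+* L v}

/-- two conditions -/
def Sy2 (d e : ℕ) (θ : Fin 2 × Fin 10 → K) (u : K) : Prop :=
  Dl d (row θ 0) → Dl e (row θ 1) → Sol (row θ 0) u ∧ Sol (row θ 1) u

/-- **Moves for two conditions of degree four.** -/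
theorem mv44 [Nonempty V] (h8 : M8 s) {θ₀ : ∀ v, Fin 2 × Fin 10 → L v}
    (c9 : ∀ v, row (θ₀ v) 0 9 ≠ 0) (c0 : ∀ v, row (θ₀ v) 0 0 ≠ 0)
    (cT : ∀ v, Tg (row (θ₀ v) 0) ≠ 0)
    (g9 : ∀ v, row (θ₀ v) 1 9 ≠ 0) (g0 : ∀ v, row (θ₀ v) 1 0 ≠ 0)
    (gH : ∀ v, Hg (row (θ₀ v) 1) ≠ 0) : Mv s (Sy2 4 4) θ₀ := by
  obtain ⟨σ, hσ0, hσ⟩ := exists_good (s := s) (fun v =>
    Polynomial.C (row (θ₀ v) 0 9 * (row (θ₀ v) 0 0 * Φg (row (θ₀ v) 1) +
      row (θ₀ v) 0 1 * row (θ₀ v) 1 0 * Hg (row (θ₀ v) 1))) * Polynomial.X ^ 2 -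
    Polynomial.C (Tg (row (θ₀ v) 0) * row (θ₀ v) 1 0 * Hg (row (θ₀ v) 1))) (fun v h => by
      have h1 := congrArg (Polynomial.eval 0) h
      simp only [Polynomial.eval_sub, Polynomial.eval_mul, Polynomial.eval_C, Polynomial.eval_pow,
        Polynomial.eval_X, Polynomial.eval_zero] at h1
      apply mul_ne_zero (mul_ne_zero (cT v) (g0 v)) (gH v)
      linear_combination -h1)
  refine pull (Q' := Sol)
    (fun θ => pu4 (P1 (row θ 0) σ) (P2 (row θ 0)) (row θ 0 9) (Q1 (row θ 0) σ)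
      (Q2 (row θ 0) σ) (row θ 1))
    (fun v θ => pu4 (P1 (row θ 0) (s v σ)) (P2 (row θ 0)) (row θ 0 9) (Q1 (row θ 0) (s v σ))
      (Q2 (row θ 0) (s v σ)) (row θ 1))
    ?_
    (fun θ y => P1 (row θ 0) σ + P2 (row θ 0) * y)
    (fun θ y => row θ 0 9 + Q1 (row θ 0) σ * y + Q2 (row θ 0) σ * y ^ 2)
    (fun v e => P1 (row e.1 0) (s v σ) + P2 (row e.1 0) * e.2)
    (fun v e => row e.1 0 9 + Q1 (row e.1 0) (s v σ) * e.2 + Q2 (row e.1 0) (s v σ) * e.2 ^ 2)
    ?_ ?_ ?_ ?_ ?_ ?_ ?_ ?_ ?_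
  · intro v θ k
    rw [pu4_map, P1_map, P2_map, Q1_map, Q2_map]
    rfl
  · intro v θ y
    rw [map_add, map_mul, P1_map, P2_map]
    rfl
  · intro v θ y
    rw [map_add, map_add, map_mul, map_mul, map_pow, Q1_map, Q2_map]
    rfl
  · intro v k
    exact (pu4_cont (P1_cont 0 _) (P2_cont 0) (row_cont 0 9) (Q1_cont 0 _) (Q2_cont 0 _)
      (fun k => row_cont 1 k) k).continuousAt
  · exact fun v e => an_P 0 (s v σ) e
  · exact fun v e => an_q 0 (s v σ) e
  · intro v
    dsimp only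
    rw [mul_zero, add_zero, P1]
    exact mul_ne_zero (mul_ne_zero (mul_ne_zero (by norm_num) (c9 v))
      ((map_ne_zero (s v)).2 hσ0)) (c0 v)
  · intro v
    dsimp only
    rw [mul_zero, zero_pow two_ne_zero, mul_zero, add_zero, add_zero]
    exact c9 v
  · intro θ y hq h hd0 hd1
    exact ⟨t4_sol hd0 σ hq, pu4_sol hd1 hq h⟩
  · refine h8 _ (fun v => g9 v) (fun v => ?_) (fun v => ?_)
    · exact mul_ne_zero (pow_ne_zero 4 (c9 v)) (g0 v)
    · rw [pu4_Φ]
      refine mul_ne_zero (mul_ne_zero (mul_ne_zero (mul_ne_zero (by norm_num)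
        (pow_ne_zero 11 (c9 v))) ((map_ne_zero (s v)).2 hσ0)) (pow_ne_zero 2 (c0 v))) ?_
      have h1 := hσ v
      simp only [Polynomial.eval_sub, Polynomial.eval_mul, Polynomial.eval_C, Polynomial.eval_pow,
        Polynomial.eval_X] at h1
      intro h2
      apply h1
      linear_combination h2

end glob

end Pool.Agent.H436.CB
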