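import Pool.Agent.H436.CB.Mv422

/-!
# Moves for one condition of degree six and one of degree two (helper436)
-/

set_option autoImplicit false
set_option linter.unusedVariables false
set_option linter.unusedSectionVars false
set_option linter.deprecated false
set_option linter.unusedSimpArgs false

open Filter Topology Pool.Agent.Y720.MZ

namespace Pool.Agent.H436.CB

section alg

variable {F : Type*} [Field F] [CharZero F]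

/-- a coefficient -/
def r6 (c : Fin 10 → F) (σ : F) : F := (36 * c 0 * c 2 - 15 * c 1 ^ 2 + c 9 * σ ^ 2) / 2
/-- a coefficient -/
def F64 (c : Fin 10 → F) : F := -45 * c 1 ^ 4 + 216 * c 0 * c 1 ^ 2 * c 2 -
  648 * c 0 ^ 2 * c 1 * c 3 + 1296 * c 0 ^ 3 * c 4
/-- a coefficient -/
def F65 (c : Fin 10 → F) : F := 24 * c 1 ^ 5 - 144 * c 0 * c 1 ^ 3 * c 2 +
  648 * c 0 ^ 2 * c 1 ^ 2 * c 3 - 2592 * c 0 ^ 3 * c 1 * c 4 + 7776 * c 0 ^ 4 * c 5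
/-- a coefficient -/
def F66 (c : Fin 10 → F) : F := -5 * c 1 ^ 6 + 36 * c 0 * c 1 ^ 4 * c 2 -
  216 * c 0 ^ 2 * c 1 ^ 3 * c 3 + 1296 * c 0 ^ 3 * c 1 ^ 2 * c 4 - 7776 * c 0 ^ 4 * c 1 * c 5 +
  46656 * c 0 ^ 5 * c 6
/-- a coefficient -/
def E2 (c : Fin 10 → F) (σ : F) : F := r6 c σ ^ 2 - F64 c - 2 * c 9 * σ ^ 2 * r6 c σ
/-- a coefficient -/
def E3 (c : Fin 10 → F) (σ : F) : F := σ * (F65 c - 8 * r6 c σ * Ψg c)
/-- a coefficient -/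
def p61 (c : Fin 10 → F) (σ : F) : F := 24 * c 9 ^ 2 * σ * c 0
/-- a coefficient -/
def p63 (c : Fin 10 → F) (σ : F) : F := -24 * c 9 * σ * c 0 * E2 c σ
/-- a coefficient -/
def p64 (c : Fin 10 → F) (σ : F) : F := -24 * c 9 * σ * c 0 * E3 c σ
/-- a coefficient -/
def q60 (c : Fin 10 → F) : F := c 9 ^ 2
/-- a coefficient -/
def q61 (c : Fin 10 → F) (σ : F) : F := -4 * c 9 ^ 2 * σ * c 1
/-- a coefficient -/
def q62 (c : Fin 10 → F) (σ : F) : F := -4 * c 9 ^ 3 * σ ^ 4 - 2 * c 9 * (r6 c σ ^ 2 - F64 c)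
/-- a coefficient -/
def q63 (c : Fin 10 → F) (σ : F) : F :=
  -32 * c 9 ^ 2 * σ ^ 3 * Ψg c + 4 * c 9 * σ * c 1 * E2 c σ
/-- a coefficient -/
def q64 (c : Fin 10 → F) (σ : F) : F := 4 * c 9 * σ ^ 2 * F66 c - 64 * c 9 * σ ^ 2 * Ψg c ^ 2 +
  (r6 c σ ^ 2 - F64 c) ^ 2 + 4 * c 9 * σ * c 1 * E3 c σ

lemma t6_aux1 {c0 c1 c2 c3 c4 c5 c6 X Z : F} :
    c0 * (Z - c1 * X) ^ 6 + c1 * (6 * c0 * X) * (Z - c1 * X) ^ 5 +
      c2 * (6 * c0 * X) ^ 2 * (Z - c1 * X) ^ 4 + c3 * (6 * c0 * X) ^ 3 * (Z - c1 * X) ^ 3 +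
      c4 * (6 * c0 * X) ^ 4 * (Z - c1 * X) ^ 2 + c5 * (6 * c0 * X) ^ 5 * (Z - c1 * X) +
      c6 * (6 * c0 * X) ^ 6 =
    c0 * (Z ^ 6 + (36 * c0 * c2 - 15 * c1 ^ 2) * X ^ 2 * Z ^ 4 +
      8 * (5 * c1 ^ 3 - 18 * c0 * c1 * c2 + 27 * c0 ^ 2 * c3) * X ^ 3 * Z ^ 3 +
      (-45 * c1 ^ 4 + 216 * c0 * c1 ^ 2 * c2 - 648 * c0 ^ 2 * c1 * c3 + 1296 * c0 ^ 3 * c4) *
        X ^ 4 * Z ^ 2 +
      (24 * c1 ^ 5 - 144 * c0 * c1 ^ 3 * c2 + 648 * c0 ^ 2 * c1 ^ 2 * c3 -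
        2592 * c0 ^ 3 * c1 * c4 + 7776 * c0 ^ 4 * c5) * X ^ 5 * Z +
      (-5 * c1 ^ 6 + 36 * c0 * c1 ^ 4 * c2 - 216 * c0 ^ 2 * c1 ^ 3 * c3 +
        1296 * c0 ^ 3 * c1 ^ 2 * c4 - 7776 * c0 ^ 4 * c1 * c5 + 46656 * c0 ^ 5 * c6) *
        X ^ 6) := by
  ring

lemma t6_aux2 {a σ y F2 F3 F4 F5 F6 r R3 S3 E C5 X Z : F} (hr : F2 = 2 * r - a * σ ^ 2)
    (hR : 2 * R3 = F3 * y + 2 * a * σ) (hS : S3 = (r ^ 2 - F4) * y ^ 2 - a)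
    (hE : E = σ * (F5 * y ^ 3 - 2 * r * y ^ 2 * R3) + S3) (hC : C5 = 4 * a * σ * E)
    (hX : X = -(y * C5)) (hZ : Z = 4 * a * σ ^ 2 * (F6 * y ^ 4 - y ^ 2 * R3 ^ 2) + S3 ^ 2) :
    Z ^ 6 + F2 * X ^ 2 * Z ^ 4 + F3 * X ^ 3 * Z ^ 3 + F4 * X ^ 4 * Z ^ 2 + F5 * X ^ 5 * Z +
      F6 * X ^ 6 =
      (Z ^ 3 + r * X ^ 2 * Z - R3 * y ^ 2 * C5 ^ 3) ^ 2 -
        a * (-(σ * y * C5 * Z ^ 2) + y * C5 ^ 2 * Z - 2 * y * C5 ^ 2 * E * S3) ^ 2 := by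
  have h3 : F3 * y = 2 * R3 - 2 * a * σ := by linear_combination -hR
  have h4 : F4 * y ^ 2 = r ^ 2 * y ^ 2 - a - S3 := by rw [hS]; ring
  have h5 : σ * (F5 * y ^ 3) = E - S3 + 2 * σ * r * y ^ 2 * R3 := by rw [hE]; ring
  have h6 : 4 * a * σ ^ 2 * (F6 * y ^ 4) = Z - S3 ^ 2 + 4 * a * σ ^ 2 * y ^ 2 * R3 ^ 2 := by
    rw [hZ]; ring
  rw [hr, hX]
  have e5 : F5 * (y * C5) ^ 5 * Z = y ^ 2 * (4 * a * E) * C5 ^ 4 * Z * (σ * (F5 * y ^ 3)) := by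
    rw [show (y * C5) ^ 5 = y ^ 5 * C5 ^ 4 * C5 by ring]
    nth_rewrite 2 [hC]
    ring
  have e6 : F6 * (y * C5) ^ 6 = y ^ 2 * (4 * a * E ^ 2) * C5 ^ 4 *
      (4 * a * σ ^ 2 * (F6 * y ^ 4)) := by
    rw [show (y * C5) ^ 6 = y ^ 6 * C5 ^ 4 * C5 ^ 2 by ring]
    nth_rewrite 2 [hC]
    ring
  have e3 : F3 * (y * C5) ^ 3 * Z ^ 3 = y ^ 2 * C5 ^ 3 * Z ^ 3 * (F3 * y) := by ring
  have e4 : F4 * (y * C5) ^ 4 * Z ^ 2 = y ^ 2 * C5 ^ 4 * Z ^ 2 * (F4 * y ^ 2) := by ring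
  have e0 : Z ^ 6 + (2 * r - a * σ ^ 2) * (-(y * C5)) ^ 2 * Z ^ 4 + F3 * (-(y * C5)) ^ 3 * Z ^ 3 +
      F4 * (-(y * C5)) ^ 4 * Z ^ 2 + F5 * (-(y * C5)) ^ 5 * Z + F6 * (-(y * C5)) ^ 6 =
      Z ^ 6 + (2 * r - a * σ ^ 2) * (y * C5) ^ 2 * Z ^ 4 - F3 * (y * C5) ^ 3 * Z ^ 3 +
      F4 * (y * C5) ^ 4 * Z ^ 2 - F5 * (y * C5) ^ 5 * Z + F6 * (y * C5) ^ 6 := by ring
  rw [e0, e3, e4, e5, e6, h3, h4, h5, h6]
  have hC2 : C5 * C5 = C5 * (4 * a * σ * E) := by rw [← hC]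
  have hC3 : C5 ^ 2 = (4 * a * σ * E) ^ 2 := by rw [← hC]
  rw [hC]
  ring

/-- the solution of the first condition -/
lemma t6_sol {c : Fin 10 → F} (hd : Dl 6 c) (σ : F) {y : F}
    (hq : q60 c + q61 c σ * y + q62 c σ * y ^ 2 + q63 c σ * y ^ 3 + q64 c σ * y ^ 4 ≠ 0) :
    Sol c (y * (p61 c σ + p63 c σ * y ^ 2 + p64 c σ * y ^ 3) /
      (q60 c + q61 c σ * y + q62 c σ * y ^ 2 + q63 c σ * y ^ 3 + q64 c σ * y ^ 4)) := by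
  obtain ⟨R3, hR3⟩ : ∃ R3, R3 = 4 * Ψg c * y + c 9 * σ := ⟨_, rfl⟩
  obtain ⟨S3, hS3⟩ : ∃ S3, S3 = (r6 c σ ^ 2 - F64 c) * y ^ 2 - c 9 := ⟨_, rfl⟩
  obtain ⟨E, hE⟩ : ∃ E, E = σ * (F65 c * y ^ 3 - 2 * r6 c σ * y ^ 2 * R3) + S3 := ⟨_, rfl⟩
  obtain ⟨C5, hC5⟩ : ∃ C5, C5 = 4 * c 9 * σ * E := ⟨_, rfl⟩
  obtain ⟨X, hX⟩ : ∃ X, X = -(y * C5) := ⟨_, rfl⟩
  obtain ⟨Z, hZ⟩ : ∃ Z, Z = 4 * c 9 * σ ^ 2 * (F66 c * y ^ 4 - y ^ 2 * R3 ^ 2) + S3 ^ 2 := ⟨_, rfl⟩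
  have hp : y * (p61 c σ + p63 c σ * y ^ 2 + p64 c σ * y ^ 3) = 6 * c 0 * X := by
    rw [p61, p63, p64, hX, hC5, hE, hS3, hR3, E2, E3]; ring
  have hqq : q60 c + q61 c σ * y + q62 c σ * y ^ 2 + q63 c σ * y ^ 3 + q64 c σ * y ^ 4 =
      Z - c 1 * X := by
    rw [q60, q61, q62, q63, q64, hZ, hX, hC5, hE, hS3, hR3, E2, E3]; ring
  rw [hqq] at hq
  rw [hp, hqq]
  obtain ⟨q, hqd⟩ : ∃ q, q = Z - c 1 * X := ⟨_, rfl⟩
  rw [← hqd] at hq ⊢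
  refine ⟨(Z ^ 3 + r6 c σ * X ^ 2 * Z - R3 * y ^ 2 * C5 ^ 3) / q ^ 3,
    (-(σ * y * C5 * Z ^ 2) + y * C5 ^ 2 * Z - 2 * y * C5 ^ 2 * E * S3) / q ^ 3, ?_⟩
  have e1 := t6_aux2 (a := c 9) (σ := σ) (y := y) (F2 := 36 * c 0 * c 2 - 15 * c 1 ^ 2)
    (F3 := 8 * Ψg c) (F4 := F64 c) (F5 := F65 c) (F6 := F66 c) (r := r6 c σ) (R3 := R3) (S3 := S3)
    (E := E) (C5 := C5) (X := X) (Z := Z) (by rw [r6]; ring) (by rw [hR3]; ring) hS3 hE hC5 hX hZ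
  have e2 := t6_aux1 (c0 := c 0) (c1 := c 1) (c2 := c 2) (c3 := c 3) (c4 := c 4) (c5 := c 5)
    (c6 := c 6) (X := X) (Z := Z)
  rw [← hqd] at e2
  have e3 : c 0 * (Z ^ 6 + (36 * c 0 * c 2 - 15 * c 1 ^ 2) * X ^ 2 * Z ^ 4 +
      8 * (5 * c 1 ^ 3 - 18 * c 0 * c 1 * c 2 + 27 * c 0 ^ 2 * c 3) * X ^ 3 * Z ^ 3 +
      (-45 * c 1 ^ 4 + 216 * c 0 * c 1 ^ 2 * c 2 - 648 * c 0 ^ 2 * c 1 * c 3 +
        1296 * c 0 ^ 3 * c 4) * X ^ 4 * Z ^ 2 +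
      (24 * c 1 ^ 5 - 144 * c 0 * c 1 ^ 3 * c 2 + 648 * c 0 ^ 2 * c 1 ^ 2 * c 3 -
        2592 * c 0 ^ 3 * c 1 * c 4 + 7776 * c 0 ^ 4 * c 5) * X ^ 5 * Z +
      (-5 * c 1 ^ 6 + 36 * c 0 * c 1 ^ 4 * c 2 - 216 * c 0 ^ 2 * c 1 ^ 3 * c 3 +
        1296 * c 0 ^ 3 * c 1 ^ 2 * c 4 - 7776 * c 0 ^ 4 * c 1 * c 5 + 46656 * c 0 ^ 5 * c 6) *
        X ^ 6) =
      c 0 * (Z ^ 6 + (36 * c 0 * c 2 - 15 * c 1 ^ 2) * X ^ 2 * Z ^ 4 +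
        (8 * Ψg c) * X ^ 3 * Z ^ 3 + F64 c * X ^ 4 * Z ^ 2 + F65 c * X ^ 5 * Z +
        F66 c * X ^ 6) := rfl
  rw [e3, e1] at e2
  rw [gv, hd 7 (by decide) (by decide), hd 8 (by decide) (by decide)]
  have hq6 : q ^ 6 ≠ 0 := pow_ne_zero 6 hq
  apply mul_left_cancel₀ hq6
  obtain ⟨U, hU⟩ : ∃ U, U = Z ^ 3 + r6 c σ * X ^ 2 * Z - R3 * y ^ 2 * C5 ^ 3 := ⟨_, rfl⟩
  obtain ⟨W, hW⟩ : ∃ W, W = -(σ * y * C5 * Z ^ 2) + y * C5 ^ 2 * Z - 2 * y * C5 ^ 2 * E * S3 :=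
    ⟨_, rfl⟩
  rw [← hU, ← hW] at e2 ⊢
  have e4 : q ^ 6 * (c 0 * ((U / q ^ 3) ^ 2 - c 9 * (W / q ^ 3) ^ 2)) =
      c 0 * (U ^ 2 - c 9 * W ^ 2) := by
    field_simp
  rw [e4, ← e2]
  field_simp
  ring

/-- the pull back of a polynomial of degree two along a quartic map -/
def pu6 (p1 p3 p4 q0 q1 q2 q3 q4 : F) (g : Fin 10 → F) : Fin 10 → F :=
  ![q0 ^ 2 * g 0,
    p1 * q0 * g 1 + 2 * q0 * q1 * g 0,
    p1 ^ 2 * g 2 + p1 * q1 * g 1 + 2 * q0 * q2 * g 0 + q1 ^ 2 * g 0,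
    p1 * q2 * g 1 + p3 * q0 * g 1 + 2 * q0 * q3 * g 0 + 2 * q1 * q2 * g 0,
    2 * p1 * p3 * g 2 + p1 * q3 * g 1 + p3 * q1 * g 1 + p4 * q0 * g 1 + 2 * q0 * q4 * g 0 +
      2 * q1 * q3 * g 0 + q2 ^ 2 * g 0,
    2 * p1 * p4 * g 2 + p1 * q4 * g 1 + p3 * q2 * g 1 + p4 * q1 * g 1 + 2 * q1 * q4 * g 0 +
      2 * q2 * q3 * g 0,
    p3 ^ 2 * g 2 + p3 * q3 * g 1 + p4 * q2 * g 1 + 2 * q2 * q4 * g 0 + q3 ^ 2 * g 0,
    2 * p3 * p4 * g 2 + p3 * q4 * g 1 + p4 * q3 * g 1 + 2 * q3 * q4 * g 0,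
    p4 ^ 2 * g 2 + p4 * q4 * g 1 + q4 ^ 2 * g 0, g 9]

lemma pu6_gv {p1 p3 p4 q0 q1 q2 q3 q4 : F} {g : Fin 10 → F} {y : F} :
    gv (pu6 p1 p3 p4 q0 q1 q2 q3 q4 g) y =
      g 0 * (q0 + q1 * y + q2 * y ^ 2 + q3 * y ^ 3 + q4 * y ^ 4) ^ 2 +
      g 1 * (y * (p1 + p3 * y ^ 2 + p4 * y ^ 3)) *
        (q0 + q1 * y + q2 * y ^ 2 + q3 * y ^ 3 + q4 * y ^ 4) +
      g 2 * (y * (p1 + p3 * y ^ 2 + p4 * y ^ 3)) ^ 2 := by
  obtain ⟨h, hh⟩ : ∃ h, h = pu6 p1 p3 p4 q0 q1 q2 q3 q4 g := ⟨_, rfl⟩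
  have h0 : h 0 = q0 ^ 2 * g 0 := by rw [hh]; rfl
  have h1 : h 1 = p1 * q0 * g 1 + 2 * q0 * q1 * g 0 := by rw [hh]; rfl
  have h2 : h 2 = p1 ^ 2 * g 2 + p1 * q1 * g 1 + 2 * q0 * q2 * g 0 + q1 ^ 2 * g 0 := by
    rw [hh]; rfl
  have h3 : h 3 = p1 * q2 * g 1 + p3 * q0 * g 1 + 2 * q0 * q3 * g 0 + 2 * q1 * q2 * g 0 := by
    rw [hh]; rfl
  have h4 : h 4 = 2 * p1 * p3 * g 2 + p1 * q3 * g 1 + p3 * q1 * g 1 + p4 * q0 * g 1 +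
      2 * q0 * q4 * g 0 + 2 * q1 * q3 * g 0 + q2 ^ 2 * g 0 := by rw [hh]; rfl
  have h5 : h 5 = 2 * p1 * p4 * g 2 + p1 * q4 * g 1 + p3 * q2 * g 1 + p4 * q1 * g 1 +
      2 * q1 * q4 * g 0 + 2 * q2 * q3 * g 0 := by rw [hh]; rfl
  have h6 : h 6 = p3 ^ 2 * g 2 + p3 * q3 * g 1 + p4 * q2 * g 1 + 2 * q2 * q4 * g 0 +
      q3 ^ 2 * g 0 := by rw [hh]; rfl
  have h7 : h 7 = 2 * p3 * p4 * g 2 + p3 * q4 * g 1 + p4 * q3 * g 1 + 2 * q3 * q4 * g 0 := by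
    rw [hh]; rfl
  have h8 : h 8 = p4 ^ 2 * g 2 + p4 * q4 * g 1 + q4 ^ 2 * g 0 := by rw [hh]; rfl
  rw [← hh, gv, h0, h1, h2, h3, h4, h5, h6, h7, h8]
  ring

/-- the solution of a condition of degree two -/
lemma pu6_sol {p1 p3 p4 q0 q1 q2 q3 q4 : F} {g : Fin 10 → F} (hd : Dl 2 g) {y : F}
    (hq : q0 + q1 * y + q2 * y ^ 2 + q3 * y ^ 3 + q4 * y ^ 4 ≠ 0)
    (h : Sol (pu6 p1 p3 p4 q0 q1 q2 q3 q4 g) y) :
    Sol g (y * (p1 + p3 * y ^ 2 + p4 * y ^ 3) /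
      (q0 + q1 * y + q2 * y ^ 2 + q3 * y ^ 3 + q4 * y ^ 4)) := by
  obtain ⟨R, S, h⟩ := h
  rw [pu6_gv, show pu6 p1 p3 p4 q0 q1 q2 q3 q4 g 0 = q0 ^ 2 * g 0 from rfl,
    show pu6 p1 p3 p4 q0 q1 q2 q3 q4 g 9 = g 9 from rfl] at h
  obtain ⟨q, hqd⟩ : ∃ q, q = q0 + q1 * y + q2 * y ^ 2 + q3 * y ^ 3 + q4 * y ^ 4 := ⟨_, rfl⟩
  obtain ⟨p, hpd⟩ : ∃ p, p = y * (p1 + p3 * y ^ 2 + p4 * y ^ 3) := ⟨_, rfl⟩
  rw [← hqd, ← hpd] at h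
  rw [← hqd] at hq
  rw [← hqd, ← hpd]
  refine ⟨q0 * R / q, q0 * S / q, ?_⟩
  rw [gv, hd 3 (by decide) (by decide), hd 4 (by decide) (by decide), hd 5 (by decide) (by decide),
    hd 6 (by decide) (by decide), hd 7 (by decide) (by decide), hd 8 (by decide) (by decide)]
  have hq4 : q ^ 2 ≠ 0 := pow_ne_zero 2 hq
  apply mul_left_cancel₀ hq4
  have e1 : q ^ 2 * (g 0 * ((q0 * R / q) ^ 2 - g 9 * (q0 * S / q) ^ 2)) =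
      q0 ^ 2 * g 0 * (R ^ 2 - g 9 * S ^ 2) := by
    field_simp
  rw [e1, h]
  field_simp
  ring

/-- the covariant of the pull back -/
lemma pu6_Φ {c g : Fin 10 → F} {σ : F} :
    Φg (pu6 (p61 c σ) (p63 c σ) (p64 c σ) (q60 c) (q61 c σ) (q62 c σ) (q63 c σ) (q64 c σ) g) =
      c 9 ^ 12 * σ ^ 3 * ((-331776 * c 0 ^ 3 * g 0 * g 1 * g 2 + 96768 * c 0 ^ 3 * g 1 ^ 3 +
        110592 * c 0 ^ 2 * c 1 * g 0 ^ 2 * g 2 - 41472 * c 0 ^ 2 * c 1 * g 0 * g 1 ^ 2 +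
        27648 * c 0 ^ 2 * c 2 * g 0 ^ 2 * g 1 - 55296 * c 0 ^ 2 * c 3 * g 0 ^ 3 -
        6912 * c 0 * c 1 ^ 2 * g 0 ^ 2 * g 1 + 27648 * c 0 * c 1 * c 2 * g 0 ^ 3 -
        6912 * c 1 ^ 3 * g 0 ^ 3) +
        c 9 * (2304 * c 0 * g 0 ^ 2 * g 1 - 768 * c 1 * g 0 ^ 3) * σ ^ 2) := by
  obtain ⟨h, hh⟩ : ∃ h, h = pu6 (p61 c σ) (p63 c σ) (p64 c σ) (q60 c) (q61 c σ) (q62 c σ)
    (q63 c σ) (q64 c σ) g := ⟨_, rfl⟩
  have h0 : h 0 = q60 c ^ 2 * g 0 := by rw [hh]; rfl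
  have h1 : h 1 = p61 c σ * q60 c * g 1 + 2 * q60 c * q61 c σ * g 0 := by rw [hh]; rfl
  have h2 : h 2 = p61 c σ ^ 2 * g 2 + p61 c σ * q61 c σ * g 1 + 2 * q60 c * q62 c σ * g 0 +
    q61 c σ ^ 2 * g 0 := by rw [hh]; rfl
  have h3 : h 3 = p61 c σ * q62 c σ * g 1 + p63 c σ * q60 c * g 1 + 2 * q60 c * q63 c σ * g 0 +
    2 * q61 c σ * q62 c σ * g 0 := by rw [hh]; rfl
  rw [← hh, Φg, h0, h1, h2, h3]
  unfold p61 p63 q60 q61 q62 q63 E2 Ψg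
  generalize F64 c = x4
  obtain ⟨r, hr⟩ : ∃ r, r = r6 c σ := ⟨_, rfl⟩
  have h5 : c 0 * c 2 = (2 * r + 15 * c 1 ^ 2 - c 9 * σ ^ 2) / 36 := by rw [hr, r6]; ring
  rw [← hr]
  have e5 : r = (36 * c 0 * c 2 - 15 * c 1 ^ 2 + c 9 * σ ^ 2) / 2 := hr
  rw [e5]
  ring

end alg

section map

variable {K L : Type*} [Field K] [CharZero K] [Field L] [CharZero L] (φ : K →+* L)

lemma Ψg_map (c : Fin 10 → K) : φ (Ψg c) = Ψg (fun k => φ (c k)) := by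
  simp only [Ψg, map_add, map_sub, map_mul, map_pow, map_ofNat]

lemma r6_map (c : Fin 10 → K) (σ : K) : φ (r6 c σ) = r6 (fun k => φ (c k)) (φ σ) := by
  simp only [r6, map_add, map_sub, map_mul, map_pow, map_ofNat, map_div₀]

lemma F64_map (c : Fin 10 → K) : φ (F64 c) = F64 (fun k => φ (c k)) := by
  simp only [F64, map_add, map_sub, map_mul, map_pow, map_ofNat, map_neg]

lemma F65_map (c : Fin 10 → K) : φ (F65 c) = F65 (fun k => φ (c k)) := by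
  simp only [F65, map_add, map_sub, map_mul, map_pow, map_ofNat, map_neg]

lemma F66_map (c : Fin 10 → K) : φ (F66 c) = F66 (fun k => φ (c k)) := by
  simp only [F66, map_add, map_sub, map_mul, map_pow, map_ofNat, map_neg]

lemma E2_map (c : Fin 10 → K) (σ : K) : φ (E2 c σ) = E2 (fun k => φ (c k)) (φ σ) := by
  simp only [E2, map_add, map_sub, map_mul, map_pow, map_ofNat, r6_map, F64_map]

lemma E3_map (c : Fin 10 → K) (σ : K) : φ (E3 c σ) = E3 (fun k => φ (c k)) (φ σ) := by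
  simp only [E3, map_add, map_sub, map_mul, map_pow, map_ofNat, r6_map, F65_map, Ψg_map]

lemma p61_map (c : Fin 10 → K) (σ : K) : φ (p61 c σ) = p61 (fun k => φ (c k)) (φ σ) := by
  simp only [p61, map_mul, map_pow, map_ofNat]

lemma p63_map (c : Fin 10 → K) (σ : K) : φ (p63 c σ) = p63 (fun k => φ (c k)) (φ σ) := by
  simp only [p63, map_mul, map_pow, map_ofNat, map_neg, E2_map]

lemma p64_map (c : Fin 10 → K) (σ : K) : φ (p64 c σ) = p64 (fun k => φ (c k)) (φ σ) := by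
  simp only [p64, map_mul, map_pow, map_ofNat, map_neg, E3_map]

lemma q60_map (c : Fin 10 → K) : φ (q60 c) = q60 (fun k => φ (c k)) := by
  simp only [q60, map_pow]

lemma q61_map (c : Fin 10 → K) (σ : K) : φ (q61 c σ) = q61 (fun k => φ (c k)) (φ σ) := by
  simp only [q61, map_mul, map_pow, map_ofNat, map_neg]

lemma q62_map (c : Fin 10 → K) (σ : K) : φ (q62 c σ) = q62 (fun k => φ (c k)) (φ σ) := by
  simp only [q62, map_add, map_sub, map_mul, map_pow, map_ofNat, map_neg, r6_map, F64_map]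

lemma q63_map (c : Fin 10 → K) (σ : K) : φ (q63 c σ) = q63 (fun k => φ (c k)) (φ σ) := by
  simp only [q63, map_add, map_sub, map_mul, map_pow, map_ofNat, map_neg, Ψg_map, E2_map]

lemma q64_map (c : Fin 10 → K) (σ : K) : φ (q64 c σ) = q64 (fun k => φ (c k)) (φ σ) := by
  simp only [q64, map_add, map_sub, map_mul, map_pow, map_ofNat, map_neg, Ψg_map, E3_map,
    F66_map, r6_map, F64_map]

lemma pu6_map (p1 p3 p4 q0 q1 q2 q3 q4 : K) (g : Fin 10 → K) (k : Fin 10) :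
    φ (pu6 p1 p3 p4 q0 q1 q2 q3 q4 g k) =
      pu6 (φ p1) (φ p3) (φ p4) (φ q0) (φ q1) (φ q2) (φ q3) (φ q4) (fun k => φ (g k)) k := by
  fin_cases k
  all_goals
    dsimp only [pu6]
    simp [map_add, map_mul, map_pow, map_ofNat]

end map

section loc

variable {L : Type*} [NontriviallyNormedField L] [CharZero L]

lemma pu6_cont {X : Type*} [TopologicalSpace X] {p1 p3 p4 q0 q1 q2 q3 q4 : X → L}
    {g : X → Fin 10 → L}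
    (h1 : Continuous p1) (h2 : Continuous p3) (h3 : Continuous p4) (h4 : Continuous q0)
    (h5 : Continuous q1) (h6 : Continuous q2) (h7 : Continuous q3) (h8 : Continuous q4)
    (hg : ∀ k, Continuous fun x => g x k) (k : Fin 10) :
    Continuous fun x => pu6 (p1 x) (p3 x) (p4 x) (q0 x) (q1 x) (q2 x) (q3 x) (q4 x) (g x) k := by
  have g0 := hg 0
  have g1 := hg 1
  have g2 := hg 2
  have g9 := hg 9
  fin_cases k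
  all_goals
    dsimp only [pu6]
    try simp only [Matrix.cons_val]
    fun_prop

variable {m : ℕ}

lemma cont6 (i : Fin m) (σ : L) :
    Continuous (fun θ : Fin m × Fin 10 → L => p61 (row θ i) σ) ∧
    Continuous (fun θ : Fin m × Fin 10 → L => p63 (row θ i) σ) ∧
    Continuous (fun θ : Fin m × Fin 10 → L => p64 (row θ i) σ) ∧
    Continuous (fun θ : Fin m × Fin 10 → L => q60 (row θ i)) ∧
    Continuous (fun θ : Fin m × Fin 10 → L => q61 (row θ i) σ) ∧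
    Continuous (fun θ : Fin m × Fin 10 → L => q62 (row θ i) σ) ∧
    Continuous (fun θ : Fin m × Fin 10 → L => q63 (row θ i) σ) ∧
    Continuous (fun θ : Fin m × Fin 10 → L => q64 (row θ i) σ) := by
  have := row_cont (L := L) i
  unfold p61 p63 p64 q60 q61 q62 q63 q64 E2 E3 r6 F64 F65 F66 Ψg
  refine ⟨?_, ?_, ?_, ?_, ?_, ?_, ?_, ?_⟩
  all_goals fun_prop

lemma an_P6 (i : Fin m) (σ : L) (e₀ : (Fin m × Fin 10 → L) × L) :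
    AnalyticAt L (fun e : (Fin m × Fin 10 → L) × L =>
      p61 (row e.1 i) σ + p63 (row e.1 i) σ * e.2 ^ 2 + p64 (row e.1 i) σ * e.2 ^ 3) e₀ := by
  have a0 := an_row e₀ i 0
  have a1 := an_row e₀ i 1
  have a2 := an_row e₀ i 2
  have a3 := an_row e₀ i 3
  have a4 := an_row e₀ i 4
  have a5 := an_row e₀ i 5
  have a9 := an_row e₀ i 9
  have ay := an_y e₀
  unfold p61 p63 p64 E2 E3 r6 F64 F65 Ψg
  simp only [div_eq_mul_inv]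
  fun_prop

lemma an_q6 (i : Fin m) (σ : L) (e₀ : (Fin m × Fin 10 → L) × L) :
    AnalyticAt L (fun e : (Fin m × Fin 10 → L) × L =>
      q60 (row e.1 i) + q61 (row e.1 i) σ * e.2 + q62 (row e.1 i) σ * e.2 ^ 2 +
        q63 (row e.1 i) σ * e.2 ^ 3 + q64 (row e.1 i) σ * e.2 ^ 4) e₀ := by
  have a0 := an_row e₀ i 0
  have a1 := an_row e₀ i 1
  have a2 := an_row e₀ i 2
  have a3 := an_row e₀ i 3
  have a4 := an_row e₀ i 4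
  have a5 := an_row e₀ i 5
  have a6 := an_row e₀ i 6
  have a9 := an_row e₀ i 9
  have ay := an_y e₀
  unfold q60 q61 q62 q63 q64 E2 E3 r6 F64 F65 F66 Ψg
  simp only [div_eq_mul_inv]
  fun_prop

end loc

section glob

variable {K : Type*} [Field K] [CharZero K] {V : Type*} [Finite V] {L : V → Type*}
  [∀ v, NontriviallyNormedField (L v)] [∀ v, CompleteSpace (L v)] [∀ v, CharZero (L v)]
  {s : ∀ v, K →+* L v}

/-- **Moves for one condition of degree six and one of degree two.** -/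
theorem mv62 [Nonempty V] (h8 : M8 s) {θ₀ : ∀ v, Fin 2 × Fin 10 → L v}
    (c9 : ∀ v, row (θ₀ v) 0 9 ≠ 0) (c0 : ∀ v, row (θ₀ v) 0 0 ≠ 0)
    (cΨ : ∀ v, Ψg (row (θ₀ v) 0) ≠ 0)
    (g9 : ∀ v, row (θ₀ v) 1 9 ≠ 0) (g0 : ∀ v, row (θ₀ v) 1 0 ≠ 0) :
    Mv s (Sy2 6 2) θ₀ := by
  obtain ⟨A, hA⟩ : ∃ A : ∀ v, L v, A = fun v =>
    -331776 * row (θ₀ v) 0 0 ^ 3 * row (θ₀ v) 1 0 * row (θ₀ v) 1 1 * row (θ₀ v) 1 2 +
    96768 * row (θ₀ v) 0 0 ^ 3 * row (θ₀ v) 1 1 ^ 3 +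
    110592 * row (θ₀ v) 0 0 ^ 2 * row (θ₀ v) 0 1 * row (θ₀ v) 1 0 ^ 2 * row (θ₀ v) 1 2 -
    41472 * row (θ₀ v) 0 0 ^ 2 * row (θ₀ v) 0 1 * row (θ₀ v) 1 0 * row (θ₀ v) 1 1 ^ 2 +
    27648 * row (θ₀ v) 0 0 ^ 2 * row (θ₀ v) 0 2 * row (θ₀ v) 1 0 ^ 2 * row (θ₀ v) 1 1 -
    55296 * row (θ₀ v) 0 0 ^ 2 * row (θ₀ v) 0 3 * row (θ₀ v) 1 0 ^ 3 -
    6912 * row (θ₀ v) 0 0 * row (θ₀ v) 0 1 ^ 2 * row (θ₀ v) 1 0 ^ 2 * row (θ₀ v) 1 1 +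
    27648 * row (θ₀ v) 0 0 * row (θ₀ v) 0 1 * row (θ₀ v) 0 2 * row (θ₀ v) 1 0 ^ 3 -
    6912 * row (θ₀ v) 0 1 ^ 3 * row (θ₀ v) 1 0 ^ 3 := ⟨_, rfl⟩
  obtain ⟨B, hB⟩ : ∃ B : ∀ v, L v, B = fun v =>
    row (θ₀ v) 0 9 * (2304 * row (θ₀ v) 0 0 * row (θ₀ v) 1 0 ^ 2 * row (θ₀ v) 1 1 -
      768 * row (θ₀ v) 0 1 * row (θ₀ v) 1 0 ^ 3) := ⟨_, rfl⟩
  have hAB : ∀ v, A v ≠ 0 ∨ B v ≠ 0 := by
    intro v
    by_contra hcon
    push Not at hcon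
    obtain ⟨h1, h2⟩ := hcon
    rw [hA] at h1
    rw [hB] at h2
    dsimp only at h1 h2
    have h3 := (mul_eq_zero.1 h2).resolve_left (c9 v)
    have hg := g0 v
    have h4 : 3 * row (θ₀ v) 0 0 * row (θ₀ v) 1 1 = row (θ₀ v) 0 1 * row (θ₀ v) 1 0 := by
      have h5 : (768 * row (θ₀ v) 1 0 ^ 2) * (3 * row (θ₀ v) 0 0 * row (θ₀ v) 1 1 -
        row (θ₀ v) 0 1 * row (θ₀ v) 1 0) = 0 := by linear_combination h3
      have h6 := (mul_eq_zero.1 h5).resolve_left (mul_ne_zero (by norm_num) (pow_ne_zero 2 hg))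
      linear_combination h6
    have h5 : row (θ₀ v) 1 1 = row (θ₀ v) 0 1 * row (θ₀ v) 1 0 / (3 * row (θ₀ v) 0 0) := by
      have := c0 v
      field_simp
      linear_combination h4
    apply mul_ne_zero (mul_ne_zero (show (-2048 : L v) ≠ 0 by norm_num) (cΨ v))
      (pow_ne_zero 3 hg)
    rw [← h1, h5, Ψg]
    have := c0 v
    field_simp
    ring
  obtain ⟨σ, hσ0, hσ⟩ := exists_good (s := s) (fun v => Polynomial.C (A v) +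
    Polynomial.C (B v) * Polynomial.X ^ 2) (fun v h => by
      rcases hAB v with h1 | h1
      · apply h1
        have h2 := congrArg (fun p => Polynomial.coeff p 0) h
        simpa using h2
      · apply h1
        have h2 := congrArg (fun p => Polynomial.coeff p 2) h
        simp only [Polynomial.coeff_add, Polynomial.coeff_C_mul, Polynomial.coeff_X_pow,
          Polynomial.coeff_C, Polynomial.coeff_zero] at h2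
        simpa using h2)
  refine pull (Q' := Sol)
    (fun θ => pu6 (p61 (row θ 0) σ) (p63 (row θ 0) σ) (p64 (row θ 0) σ) (q60 (row θ 0))
      (q61 (row θ 0) σ) (q62 (row θ 0) σ) (q63 (row θ 0) σ) (q64 (row θ 0) σ) (row θ 1))
    (fun v θ => pu6 (p61 (row θ 0) (s v σ)) (p63 (row θ 0) (s v σ)) (p64 (row θ 0) (s v σ))
      (q60 (row θ 0)) (q61 (row θ 0) (s v σ)) (q62 (row θ 0) (s v σ)) (q63 (row θ 0) (s v σ))
      (q64 (row θ 0) (s v σ)) (row θ 1))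
    ?_
    (fun θ y => p61 (row θ 0) σ + p63 (row θ 0) σ * y ^ 2 + p64 (row θ 0) σ * y ^ 3)
    (fun θ y => q60 (row θ 0) + q61 (row θ 0) σ * y + q62 (row θ 0) σ * y ^ 2 +
      q63 (row θ 0) σ * y ^ 3 + q64 (row θ 0) σ * y ^ 4)
    (fun v e => p61 (row e.1 0) (s v σ) + p63 (row e.1 0) (s v σ) * e.2 ^ 2 +
      p64 (row e.1 0) (s v σ) * e.2 ^ 3)
    (fun v e => q60 (row e.1 0) + q61 (row e.1 0) (s v σ) * e.2 +
      q62 (row e.1 0) (s v σ) * e.2 ^ 2 + q63 (row e.1 0) (s v σ) * e.2 ^ 3 +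
      q64 (row e.1 0) (s v σ) * e.2 ^ 4)
    ?_ ?_ ?_ ?_ ?_ ?_ ?_ ?_ ?_
  · intro v θ k
    rw [pu6_map, p61_map, p63_map, p64_map, q60_map, q61_map, q62_map, q63_map, q64_map]
    rfl
  · intro v θ y
    simp only [map_add, map_mul, map_pow, p61_map, p63_map, p64_map]
    rfl
  · intro v θ y
    simp only [map_add, map_mul, map_pow, q60_map, q61_map, q62_map, q63_map, q64_map]
    rfl
  · intro v k
    obtain ⟨d1, d2, d3, d4, d5, d6, d7, d8⟩ := cont6 (L := L v) (m := 2) 0 (s v σ)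
    exact (pu6_cont d1 d2 d3 d4 d5 d6 d7 d8 (fun k => row_cont 1 k) k).continuousAt
  · exact fun v e => an_P6 0 (s v σ) e
  · exact fun v e => an_q6 0 (s v σ) e
  · intro v
    dsimp only
    rw [zero_pow two_ne_zero, zero_pow three_ne_zero, mul_zero, mul_zero, add_zero, add_zero, p61]
    exact mul_ne_zero (mul_ne_zero (mul_ne_zero (by norm_num) (pow_ne_zero 2 (c9 v)))
      ((map_ne_zero (s v)).2 hσ0)) (c0 v)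
  · intro v
    dsimp only
    rw [zero_pow two_ne_zero, zero_pow three_ne_zero, zero_pow four_ne_zero, mul_zero, mul_zero,
      mul_zero, mul_zero, add_zero, add_zero, add_zero, add_zero, q60]
    exact pow_ne_zero 2 (c9 v)
  · intro θ y hq h hd0 hd1
    exact ⟨t6_sol hd0 σ hq, pu6_sol hd1 hq h⟩
  · refine h8 _ (fun v => g9 v) (fun v => ?_) (fun v => ?_)
    · exact mul_ne_zero (pow_ne_zero 2 (pow_ne_zero 2 (c9 v))) (g0 v)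
    · rw [pu6_Φ]
      refine mul_ne_zero (mul_ne_zero (pow_ne_zero 12 (c9 v))
        (pow_ne_zero 3 ((map_ne_zero (s v)).2 hσ0))) ?_
      have h1 := hσ v
      simp only [Polynomial.eval_add, Polynomial.eval_mul, Polynomial.eval_C, Polynomial.eval_pow,
        Polynomial.eval_X, hA, hB] at h1
      exact h1

end glob

end Pool.Agent.H436.CB
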