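import Pool.Agent.H436.CB.Mv62
import Pool.Graph.R_seed8.Y720.WL.Np

/-!
# The polynomials with vanishing covariants are powers (helper436)
-/

set_option autoImplicit false
set_option linter.unusedVariables false
set_option linter.unusedSectionVars false
set_option linter.deprecated false
set_option linter.unusedSimpArgs false

open Filter Topology Polynomial Pool.Agent.Y720.MZ

namespace Pool.Agent.H436.CB

section ode

variable {F : Type*} [Field F] [CharZero F]

/-- the differential expression -/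
noncomputable def Ed (a b c : F) (y : Polynomial F) : Polynomial F :=
  C a * derivative y ^ 3 + C b * y * derivative y * derivative (derivative y) +
    C c * y ^ 2 * derivative (derivative (derivative y))

lemma der_pow_mul (m : ℕ) (H : Polynomial F) : derivative (X ^ (m + 1) * H) =
    X ^ m * (((m + 1 : ℕ) : Polynomial F) * H + X * derivative H) := by
  rw [derivative_mul, derivative_X_pow]
  simp only [Nat.add_sub_cancel, map_natCast]
  ring

lemma ode_unique {a b c : F} (hc : c ≠ 0) {g G : Polynomial F} (hg : Ed a b c g = 0)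
    (hG : Ed a b c G = 0) (h0 : g.eval 0 ≠ 0) (h : X ^ 3 ∣ g - G) : g = G := by
  by_contra hne
  have hD : g - G ≠ 0 := sub_ne_zero.2 hne
  obtain ⟨H, hH, hnd⟩ := Polynomial.exists_eq_pow_rootMultiplicity_mul_and_not_dvd (g - G) hD 0
  rw [C_0, sub_zero] at hH hnd
  have hH0 : H.eval 0 ≠ 0 := by
    intro h1
    apply hnd
    rw [← coeff_zero_eq_eval_zero] at h1
    exact X_dvd_iff.2 h1
  have hn : 3 ≤ rootMultiplicity 0 (g - G) := by
    rw [Polynomial.le_rootMultiplicity_iff hD, C_0, sub_zero]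
    exact h
  obtain ⟨m, hm⟩ : ∃ m, rootMultiplicity 0 (g - G) = m + 3 := ⟨_, (Nat.sub_add_cancel hn).symm⟩
  rw [hm] at hH
  obtain ⟨D, hDd⟩ : ∃ D, D = g - G := ⟨_, rfl⟩
  rw [← hDd] at hH
  obtain ⟨A1, hA1⟩ : ∃ A1, A1 = ((m + 2 + 1 : ℕ) : Polynomial F) * H + X * derivative H := ⟨_, rfl⟩
  obtain ⟨A2, hA2⟩ : ∃ A2, A2 = ((m + 1 + 1 : ℕ) : Polynomial F) * A1 + X * derivative A1 :=
    ⟨_, rfl⟩
  obtain ⟨A3, hA3⟩ : ∃ A3, A3 = ((m + 1 : ℕ) : Polynomial F) * A2 + X * derivative A2 := ⟨_, rfl⟩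
  have d1 : derivative D = X ^ (m + 2) * A1 := by
    rw [hH, der_pow_mul, hA1]
  have d2 : derivative (derivative D) = X ^ (m + 1) * A2 := by
    rw [d1, der_pow_mul, hA2]
  have d3 : derivative (derivative (derivative D)) = X ^ m * A3 := by
    rw [d2, der_pow_mul, hA3]
  have e0 : A3.eval 0 ≠ 0 := by
    rw [hA3, hA2, hA1]
    simp only [eval_add, eval_mul, eval_natCast, eval_X, zero_mul, add_zero]
    refine mul_ne_zero (Nat.cast_ne_zero.2 (by omega)) (mul_ne_zero (Nat.cast_ne_zero.2 (by omega))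
      (mul_ne_zero (Nat.cast_ne_zero.2 (by omega)) hH0))
  have hGD : G = g - D := by rw [hDd]; ring
  have hG1 : derivative G = derivative g - X ^ (m + 2) * A1 := by
    rw [hGD, derivative_sub, d1]
  have hG2 : derivative (derivative G) = derivative (derivative g) - X ^ (m + 1) * A2 := by
    rw [hG1, ← d1, derivative_sub, d2]
  have hG3 : derivative (derivative (derivative G)) =
      derivative (derivative (derivative g)) - X ^ m * A3 := by
    rw [hG2, ← d2, derivative_sub, d3]
  unfold Ed at hg hG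
  rw [hG3, hG2, hG1] at hG
  have hG0 : G = g - X ^ (m + 3) * H := by rw [hGD, hH]
  rw [hG0] at hG
  generalize derivative (derivative (derivative g)) = g3 at hg hG
  generalize derivative (derivative g) = g2 at hg hG
  generalize derivative g = g1 at hg hG
  have key : X ^ m * (C c * g ^ 2 * A3 + X * (C a * X * A1 * (3 * g1 ^ 2 - 3 * g1 *
      (X ^ (m + 2) * A1) + (X ^ (m + 2) * A1) ^ 2) + C b * (X ^ 2 * H * (g1 - X ^ (m + 2) * A1) *
      (g2 - X ^ (m + 1) * A2) + g * X * A1 * (g2 - X ^ (m + 1) * A2) + g * g1 * A2) +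
      C c * X ^ 2 * H * (2 * g - X ^ (m + 3) * H) * (g3 - X ^ m * A3))) = 0 := by
    linear_combination hg - hG
  have k1 := (mul_eq_zero.1 key).resolve_left (pow_ne_zero m X_ne_zero)
  have k2 := congrArg (Polynomial.eval 0) k1
  simp only [eval_add, eval_mul, eval_pow, eval_X, eval_ofNat, zero_mul, add_zero,
    eval_zero, eval_C] at k2
  exact mul_ne_zero (mul_ne_zero hc (pow_ne_zero 2 h0)) e0 k2

lemma dvd_of_coeff {g G : Polynomial F} (h0 : g.coeff 0 = G.coeff 0) (h1 : g.coeff 1 = G.coeff 1)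
    (h2 : g.coeff 2 = G.coeff 2) : (X : Polynomial F) ^ 3 ∣ g - G := by
  rw [X_pow_dvd_iff]
  intro d hd
  rw [coeff_sub, sub_eq_zero]
  interval_cases d
  · exact h0
  · exact h1
  · exact h2

/-- coefficients of an explicit polynomial -/
lemma cf_aux (a0 a1 a2 : F) (W : Polynomial F) :
    (C a0 + C a1 * X + C a2 * X ^ 2 + X ^ 3 * W).coeff 0 = a0 ∧
    (C a0 + C a1 * X + C a2 * X ^ 2 + X ^ 3 * W).coeff 1 = a1 ∧
    (C a0 + C a1 * X + C a2 * X ^ 2 + X ^ 3 * W).coeff 2 = a2 := by
  refine ⟨?_, ?_, ?_⟩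
  · rw [coeff_add, coeff_X_pow_mul']
    simp [coeff_X, coeff_C, coeff_X_pow]
  · rw [coeff_add, coeff_X_pow_mul']
    simp [coeff_X, coeff_C, coeff_X_pow]
  · rw [coeff_add, coeff_X_pow_mul']
    simp [coeff_X, coeff_C, coeff_X_pow]

/-- the quadratic polynomial -/
noncomputable def qq (α β : F) : Polynomial F := 1 + C α * X + C β * X ^ 2

lemma qq_der (α β : F) : derivative (qq α β) = C α + 2 * C β * X ∧
    derivative (derivative (qq α β)) = 2 * C β ∧
    derivative (derivative (derivative (qq α β))) = 0 := by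
  have q1 : derivative (qq α β) = C α + 2 * C β * X := by
    rw [qq]
    simp
    ring
  have q2 : derivative (derivative (qq α β)) = 2 * C β := by
    rw [q1]
    simp
  have q3 : derivative (derivative (derivative (qq α β))) = 0 := by
    rw [q2]
    simp
  exact ⟨q1, q2, q3⟩

/-- **The solutions are fourth powers.** -/
theorem ode_pow4 {g : Polynomial F} (hg : Ed 21 (-36) 16 g = 0) (h0 : g.eval 0 ≠ 0) :
    ∃ q : Polynomial F, g = C (g.eval 0) * q ^ 4 := by
  obtain ⟨g0, hg0⟩ : ∃ g0, g0 = g.coeff 0 := ⟨_, rfl⟩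
  have he0 : g.eval 0 = g0 := by rw [hg0, coeff_zero_eq_eval_zero]
  rw [he0] at h0 ⊢
  obtain ⟨α, hα⟩ : ∃ α, α = g.coeff 1 / (4 * g0) := ⟨_, rfl⟩
  obtain ⟨β, hβ⟩ : ∃ β, β = (g.coeff 2 / g0 - 6 * α ^ 2) / 4 := ⟨_, rfl⟩
  obtain ⟨q, hq⟩ : ∃ q : Polynomial F, q = qq α β := ⟨_, rfl⟩
  refine ⟨q, ode_unique (by norm_num) hg ?_ (by rw [he0]; exact h0) ?_⟩
  · obtain ⟨p1, hp1⟩ : ∃ p1, p1 = derivative q := ⟨_, rfl⟩
    obtain ⟨p2, hp2⟩ : ∃ p2, p2 = derivative p1 := ⟨_, rfl⟩
    have hp3 : derivative p2 = 0 := by rw [hp2, hp1, hq]; exact (qq_der α β).2.2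
    have e1 : derivative (C g0 * q ^ 4) = C g0 * (4 * q ^ 3 * p1) := by
      rw [derivative_C_mul, derivative_pow, ← hp1, map_natCast]
      push_cast
      ring
    have e2 : derivative (C g0 * (4 * q ^ 3 * p1)) =
        C g0 * (12 * q ^ 2 * p1 ^ 2 + 4 * q ^ 3 * p2) := by
      rw [derivative_C_mul, derivative_mul, derivative_mul, derivative_pow, ← hp1, ← hp2,
        map_natCast]
      simp only [derivative_ofNat]
      push_cast
      ring
    have e3 : derivative (C g0 * (12 * q ^ 2 * p1 ^ 2 + 4 * q ^ 3 * p2)) =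
        C g0 * (24 * q * p1 ^ 3 + 36 * q ^ 2 * p1 * p2) := by
      rw [derivative_C_mul, derivative_add, derivative_mul, derivative_mul, derivative_mul,
        derivative_mul, derivative_pow, derivative_pow, derivative_pow, ← hp1, ← hp2, hp3]
      simp only [derivative_ofNat, map_natCast]
      push_cast
      ring
    unfold Ed
    rw [e1, e2, e3]
    simp only [map_neg, map_ofNat]
    ring
  · have hexp : C g0 * q ^ 4 = C g0 + C (4 * g0 * α) * X + C (g0 * (4 * β + 6 * α ^ 2)) * X ^ 2 +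
        X ^ 3 * (C g0 * (C (12 * α * β + 4 * α ^ 3) + C (6 * β ^ 2 + 12 * α ^ 2 * β + α ^ 4) * X +
        C (12 * α * β ^ 2 + 4 * α ^ 3 * β) * X ^ 2 + C (4 * β ^ 3 + 6 * α ^ 2 * β ^ 2) * X ^ 3 +
        C (4 * α * β ^ 3) * X ^ 4 + C (β ^ 4) * X ^ 5)) := by
      rw [hq, qq]
      simp only [map_add, map_mul, map_pow, map_ofNat]
      ring
    have h4g : 4 * g0 * α = g.coeff 1 := by rw [hα]; field_simp
    have h4b : g0 * (4 * β + 6 * α ^ 2) = g.coeff 2 := by rw [hβ]; field_simp; ring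
    rw [hexp]
    obtain ⟨k0, k1, k2⟩ := cf_aux g0 (4 * g0 * α) (g0 * (4 * β + 6 * α ^ 2))
      (C g0 * (C (12 * α * β + 4 * α ^ 3) + C (6 * β ^ 2 + 12 * α ^ 2 * β + α ^ 4) * X +
        C (12 * α * β ^ 2 + 4 * α ^ 3 * β) * X ^ 2 + C (4 * β ^ 3 + 6 * α ^ 2 * β ^ 2) * X ^ 3 +
        C (4 * α * β ^ 3) * X ^ 4 + C (β ^ 4) * X ^ 5))
    exact dvd_of_coeff (by rw [k0, hg0]) (by rw [k1, h4g]) (by rw [k2, h4b])

/-- **The solutions are third powers.** -/
theorem ode_pow3 {g : Polynomial F} (hg : Ed 10 (-18) 9 g = 0) (h0 : g.eval 0 ≠ 0) :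
    g = C (g.eval 0) * (qq (g.coeff 1 / (3 * g.coeff 0))
      ((g.coeff 2 / g.coeff 0 - 3 * (g.coeff 1 / (3 * g.coeff 0)) ^ 2) / 3)) ^ 3 := by
  obtain ⟨g0, hg0⟩ : ∃ g0, g0 = g.coeff 0 := ⟨_, rfl⟩
  have he0 : g.eval 0 = g0 := by rw [hg0, coeff_zero_eq_eval_zero]
  rw [← hg0]
  rw [he0] at h0 ⊢
  obtain ⟨α, hα⟩ : ∃ α, α = g.coeff 1 / (3 * g0) := ⟨_, rfl⟩
  obtain ⟨β, hβ⟩ : ∃ β, β = (g.coeff 2 / g0 - 3 * α ^ 2) / 3 := ⟨_, rfl⟩
  rw [← hα, ← hβ]
  obtain ⟨q, hq⟩ : ∃ q : Polynomial F, q = qq α β := ⟨_, rfl⟩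
  rw [← hq]
  refine ode_unique (by norm_num) hg ?_ (by rw [he0]; exact h0) ?_
  · obtain ⟨p1, hp1⟩ : ∃ p1, p1 = derivative q := ⟨_, rfl⟩
    obtain ⟨p2, hp2⟩ : ∃ p2, p2 = derivative p1 := ⟨_, rfl⟩
    have hp3 : derivative p2 = 0 := by rw [hp2, hp1, hq]; exact (qq_der α β).2.2
    have e1 : derivative (C g0 * q ^ 3) = C g0 * (3 * q ^ 2 * p1) := by
      rw [derivative_C_mul, derivative_pow, ← hp1, map_natCast]
      push_cast
      ring
    have e2 : derivative (C g0 * (3 * q ^ 2 * p1)) =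
        C g0 * (6 * q * p1 ^ 2 + 3 * q ^ 2 * p2) := by
      rw [derivative_C_mul, derivative_mul, derivative_mul, derivative_pow, ← hp1, ← hp2,
        map_natCast]
      simp only [derivative_ofNat]
      push_cast
      ring
    have e3 : derivative (C g0 * (6 * q * p1 ^ 2 + 3 * q ^ 2 * p2)) =
        C g0 * (6 * p1 ^ 3 + 18 * q * p1 * p2) := by
      rw [derivative_C_mul, derivative_add, derivative_mul, derivative_mul, derivative_mul,
        derivative_mul, derivative_pow, derivative_pow, ← hp1, ← hp2, hp3]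
      simp only [derivative_ofNat, map_natCast]
      push_cast
      ring
    unfold Ed
    rw [e1, e2, e3]
    simp only [map_neg, map_ofNat]
    ring
  · have hexp : C g0 * q ^ 3 = C g0 + C (3 * g0 * α) * X + C (g0 * (3 * β + 3 * α ^ 2)) * X ^ 2 +
        X ^ 3 * (C g0 * (C (6 * α * β + α ^ 3) + C (3 * β ^ 2 + 3 * α ^ 2 * β) * X +
        C (3 * α * β ^ 2) * X ^ 2 + C (β ^ 3) * X ^ 3)) := by
      rw [hq, qq]
      simp only [map_add, map_mul, map_pow, map_ofNat]
      ring
    have h4g : 3 * g0 * α = g.coeff 1 := by rw [hα]; field_simp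
    have h4b : g0 * (3 * β + 3 * α ^ 2) = g.coeff 2 := by rw [hβ]; field_simp; ring
    rw [hexp]
    obtain ⟨k0, k1, k2⟩ := cf_aux g0 (3 * g0 * α) (g0 * (3 * β + 3 * α ^ 2))
      (C g0 * (C (6 * α * β + α ^ 3) + C (3 * β ^ 2 + 3 * α ^ 2 * β) * X +
        C (3 * α * β ^ 2) * X ^ 2 + C (β ^ 3) * X ^ 3))
    exact dvd_of_coeff (by rw [k0, hg0]) (by rw [k1, h4g]) (by rw [k2, h4b])

/-- **The solutions are squares.** -/
theorem ode_pow2 {g : Polynomial F} (hg : Ed 3 (-6) 4 g = 0) (h0 : g.eval 0 ≠ 0) :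
    ∃ q : Polynomial F, g = C (g.eval 0) * q ^ 2 := by
  obtain ⟨g0, hg0⟩ : ∃ g0, g0 = g.coeff 0 := ⟨_, rfl⟩
  have he0 : g.eval 0 = g0 := by rw [hg0, coeff_zero_eq_eval_zero]
  rw [he0] at h0 ⊢
  obtain ⟨α, hα⟩ : ∃ α, α = g.coeff 1 / (2 * g0) := ⟨_, rfl⟩
  obtain ⟨β, hβ⟩ : ∃ β, β = (g.coeff 2 / g0 - α ^ 2) / 2 := ⟨_, rfl⟩
  obtain ⟨q, hq⟩ : ∃ q : Polynomial F, q = qq α β := ⟨_, rfl⟩
  refine ⟨q, ode_unique (by norm_num) hg ?_ (by rw [he0]; exact h0) ?_⟩
  · obtain ⟨p1, hp1⟩ : ∃ p1, p1 = derivative q := ⟨_, rfl⟩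
    obtain ⟨p2, hp2⟩ : ∃ p2, p2 = derivative p1 := ⟨_, rfl⟩
    have hp3 : derivative p2 = 0 := by rw [hp2, hp1, hq]; exact (qq_der α β).2.2
    have e1 : derivative (C g0 * q ^ 2) = C g0 * (2 * q * p1) := by
      rw [derivative_C_mul, derivative_pow, ← hp1, map_natCast]
      push_cast
      ring
    have e2 : derivative (C g0 * (2 * q * p1)) =
        C g0 * (2 * p1 ^ 2 + 2 * q * p2) := by
      rw [derivative_C_mul, derivative_mul, derivative_mul, ← hp1, ← hp2]
      simp only [derivative_ofNat]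
      ring
    have e3 : derivative (C g0 * (2 * p1 ^ 2 + 2 * q * p2)) =
        C g0 * (6 * p1 * p2) := by
      rw [derivative_C_mul, derivative_add, derivative_mul, derivative_mul, derivative_mul,
        derivative_pow, ← hp1, ← hp2, hp3]
      simp only [derivative_ofNat, map_natCast]
      push_cast
      ring
    unfold Ed
    rw [e1, e2, e3]
    simp only [map_neg, map_ofNat]
    ring
  · have hexp : C g0 * q ^ 2 = C g0 + C (2 * g0 * α) * X + C (g0 * (2 * β + α ^ 2)) * X ^ 2 +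
        X ^ 3 * (C g0 * (C (2 * α * β) + C (β ^ 2) * X)) := by
      rw [hq, qq]
      simp only [map_add, map_mul, map_pow, map_ofNat]
      ring
    have h4g : 2 * g0 * α = g.coeff 1 := by rw [hα]; field_simp
    have h4b : g0 * (2 * β + α ^ 2) = g.coeff 2 := by rw [hβ]; field_simp; ring
    rw [hexp]
    obtain ⟨k0, k1, k2⟩ := cf_aux g0 (2 * g0 * α) (g0 * (2 * β + α ^ 2))
      (C g0 * (C (2 * α * β) + C (β ^ 2) * X))
    exact dvd_of_coeff (by rw [k0, hg0]) (by rw [k1, h4g]) (by rw [k2, h4b])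

end ode

section dir

variable {F : Type*} [Field F] [CharZero F] {α : Type*} [Fintype α]

lemma rst_shift (f : MvPolynomial α F) (z e : α → F) (t : F) :
    rst f (fun i => z i + t * e i) e = taylor t (rst f z e) := by
  induction f using MvPolynomial.induction_on with
  | C a => simp [rst]
  | add p q hp hq => simp only [rst, map_add] at *; rw [hp, hq]
  | mul_X p i hp =>
    simp only [rst, map_mul, MvPolynomial.aeval_X] at *
    rw [taylor_mul, ← hp]
    congr 1
    simp
    ring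

/-- the coefficients at a shifted point -/
lemma shift_coeff (f : MvPolynomial α F) (z e : α → F) (t : F) :
    (rst f (fun i => z i + t * e i) e).coeff 0 = (rst f z e).eval t ∧
    (rst f (fun i => z i + t * e i) e).coeff 1 = (derivative (rst f z e)).eval t ∧
    2 * (rst f (fun i => z i + t * e i) e).coeff 2 =
      (derivative (derivative (rst f z e))).eval t ∧
    6 * (rst f (fun i => z i + t * e i) e).coeff 3 =
      (derivative (derivative (derivative (rst f z e)))).eval t := by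
  set g := rst f z e with hg
  have h2 : ∀ k : ℕ, (rst f (fun i => z i + t * e i) e).coeff k = (hasseDeriv k g).eval t := by
    intro k
    rw [rst_shift, taylor_coeff]
  refine ⟨?_, ?_, ?_, ?_⟩
  · rw [h2, hasseDeriv_zero]
    rfl
  · rw [h2, hasseDeriv_one]
  · have h3 := congrFun (factorial_smul_hasseDeriv (R := F) 2) g
    have h4 : (derivative)^[2] g = derivative (derivative g) := rfl
    rw [h4] at h3
    rw [h2, ← h3]
    simp [Nat.factorial]
  · have h3 := congrFun (factorial_smul_hasseDeriv (R := F) 3) g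
    have h4 : (derivative)^[3] g = derivative (derivative (derivative g)) := rfl
    rw [h4] at h3
    rw [h2, ← h3]
    simp [Nat.factorial]

/-- the covariant and the differential expression -/
lemma cov_ode {a b c : F} {f : MvPolynomial α F} {e : α → F}
    (h : ∀ z, a * (rst f z e).coeff 1 ^ 3 + 2 * b * (rst f z e).coeff 0 * (rst f z e).coeff 1 *
      (rst f z e).coeff 2 + 6 * c * (rst f z e).coeff 0 ^ 2 * (rst f z e).coeff 3 = 0)
    (z : α → F) : Ed a b c (rst f z e) = 0 := by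
  have : Infinite F := CharZero.infinite F
  apply Polynomial.funext
  intro t
  obtain ⟨k0, k1, k2, k3⟩ := shift_coeff f z e t
  have h5 := h (fun i => z i + t * e i)
  unfold Ed
  simp only [eval_add, Polynomial.eval_sub, eval_mul, eval_pow, eval_C, eval_zero]
  rw [← k0, ← k1, ← k2, ← k3]
  linear_combination h5

/-- the Hessian and the differential expression -/
lemma hess_ode {f : MvPolynomial α F} {e : α → F}
    (h : ∀ z, 8 * (rst f z e).coeff 0 * (rst f z e).coeff 2 - 3 * (rst f z e).coeff 1 ^ 2 = 0)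
    (z : α → F) : Ed 21 (-36) 16 (rst f z e) = 0 := by
  have : Infinite F := CharZero.infinite F
  have h1 : 4 * rst f z e * derivative (derivative (rst f z e)) -
      3 * derivative (rst f z e) ^ 2 = 0 := by
    apply Polynomial.funext
    intro t
    obtain ⟨k0, k1, k2, k3⟩ := shift_coeff f z e t
    have h5 := h (fun i => z i + t * e i)
    simp only [eval_add, Polynomial.eval_sub, eval_mul, eval_pow, eval_C, eval_zero, eval_ofNat]
    rw [← k0, ← k1, ← k2]
    linear_combination h5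
  obtain ⟨g, hg⟩ : ∃ g, g = rst f z e := ⟨_, rfl⟩
  rw [← hg] at h1 ⊢
  have h2 := congrArg derivative h1
  have h3 : derivative (4 * g * derivative (derivative g) - 3 * derivative g ^ 2) =
      4 * g * derivative (derivative (derivative g)) -
        2 * derivative g * derivative (derivative g) := by
    rw [derivative_sub, derivative_mul, derivative_mul, derivative_mul, derivative_pow]
    simp only [derivative_ofNat, map_natCast]
    push_cast
    ring
  rw [h3, derivative_zero] at h2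
  unfold Ed
  simp only [map_neg, map_ofNat]
  linear_combination 4 * g * h2 - 7 * derivative g * h1

/-- a polynomial with vanishing first coefficients is constant -/
lemma const_of_coeff {f : MvPolynomial α F} {e : α → F}
    (h : ∀ z, (rst f z e).coeff 1 = 0) (z : α → F) :
    rst f z e = C ((rst f z e).eval 0) := by
  have : Infinite F := CharZero.infinite F
  have h1 : derivative (rst f z e) = 0 := by
    apply Polynomial.funext
    intro t
    obtain ⟨k0, k1, k2, k3⟩ := shift_coeff f z e t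
    rw [← k1, h, eval_zero]
  have h2 := natDegree_eq_zero_of_derivative_eq_zero h1
  rw [← coeff_zero_eq_eval_zero]
  exact eq_C_of_natDegree_eq_zero h2

end dir

end Pool.Agent.H436.CB
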