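import Pool.Agent.H436.CB.Sys

/-!
# Coefficients which are products of polynomials in one variable (helper436)
-/

set_option autoImplicit false
set_option linter.unusedVariables false
set_option linter.unusedSectionVars false
set_option linter.deprecated false
set_option linter.unusedSimpArgs false

open Filter Topology Pool.Agent.Y720.MZ

namespace Pool.Agent.H436.CB

universe u w

section alg

variable {F : Type*} [Field F] [CharZero F] {α : Type*} [Fintype α]

/-- a constant times a product of polynomials in one variable -/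
noncomputable def Pr (c : F) (f : α → Polynomial F) : MvPolynomial α F :=
  MvPolynomial.C c * ∏ j, Polynomial.aeval (MvPolynomial.X j) (f j)

lemma eval_aeval_X (z : α → F) (j : α) (g : Polynomial F) :
    MvPolynomial.eval z (Polynomial.aeval (MvPolynomial.X j : MvPolynomial α F) g) =
      g.eval (z j) := by
  have h := Polynomial.aeval_algHom_apply (MvPolynomial.aeval z : MvPolynomial α F →ₐ[F] F)
    (MvPolynomial.X j) g
  rw [← MvPolynomial.aeval_eq_eval, ← h, MvPolynomial.aeval_X, Polynomial.coe_aeval_eq_eval]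

lemma eval_Pr (z : α → F) (c : F) (f : α → Polynomial F) :
    MvPolynomial.eval z (Pr c f) = c * ∏ j, (f j).eval (z j) := by
  simp only [Pr, map_mul, map_prod, MvPolynomial.eval_C, eval_aeval_X]

lemma aeval_X_ne {j : α} {g : Polynomial F} (hg : g ≠ 0) :
    (Polynomial.aeval (MvPolynomial.X j : MvPolynomial α F) g) ≠ 0 := by
  intro h
  have : Infinite F := CharZero.infinite F
  apply hg
  apply Polynomial.funext
  intro x
  have := congrArg (MvPolynomial.eval (fun _ : α => x)) h
  rw [eval_aeval_X, map_zero] at this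
  rw [this, Polynomial.eval_zero]

lemma Pr_ne {c : F} (hc : c ≠ 0) {f : α → Polynomial F} (hf : ∀ j, f j ≠ 0) : Pr c f ≠ 0 := by
  refine mul_ne_zero ?_ (Finset.prod_ne_zero_iff.2 fun j _ => aeval_X_ne (hf j))
  rwa [Ne, MvPolynomial.C_eq_zero]

lemma deg_aeval_X_self (j : α) (g : Polynomial F) :
    (Polynomial.aeval (MvPolynomial.X j : MvPolynomial α F) g).degreeOf j ≤ g.natDegree := by
  classical
  rw [Polynomial.aeval_eq_sum_range]
  refine (MvPolynomial.degreeOf_sum_le _ _ _).trans (Finset.sup_le fun i hi => ?_)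
  rw [Finset.mem_range] at hi
  rw [Algebra.smul_def]
  refine (MvPolynomial.degreeOf_C_mul_le _ _ _).trans ?_
  rw [MvPolynomial.degreeOf_X_self_pow]
  omega

lemma deg_aeval_X_ne {i j : α} (h : i ≠ j) (g : Polynomial F) :
    (Polynomial.aeval (MvPolynomial.X j : MvPolynomial α F) g).degreeOf i = 0 := by
  classical
  rw [Polynomial.aeval_eq_sum_range, ← Nat.le_zero]
  refine (MvPolynomial.degreeOf_sum_le _ _ _).trans (Finset.sup_le fun k hk => ?_)
  rw [Algebra.smul_def]
  refine (MvPolynomial.degreeOf_C_mul_le _ _ _).trans ?_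
  rw [MvPolynomial.degreeOf_X_pow_of_ne k h]

lemma deg_Pr (c : F) (f : α → Polynomial F) (j : α) :
    (Pr c f).degreeOf j ≤ (f j).natDegree := by
  classical
  refine (MvPolynomial.degreeOf_C_mul_le _ _ _).trans
    ((MvPolynomial.degreeOf_prod_le _ _ _).trans ?_)
  rw [← Finset.add_sum_erase _ _ (Finset.mem_univ j), Finset.sum_eq_zero, add_zero]
  · exact deg_aeval_X_self j (f j)
  · intro i hi
    exact deg_aeval_X_ne (Finset.ne_of_mem_erase hi).symm (f i)

/-- the condition, explicitly -/
lemma So_iff {a f : MvPolynomial α F} {z e : α → F} {u : F} (hd : (rst f z e).natDegree ≤ 8) :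
    So a f e z u ↔ (MvPolynomial.eval z f ≠ 0 → ∃ R S : F, MvPolynomial.eval z f *
      (R ^ 2 - MvPolynomial.eval z a * S ^ 2) =
        MvPolynomial.eval (fun i => z i + u * e i) f) := by
  rw [So, Sol]
  simp only [gv_cf hd, evc_zero, evc_nine, rst_ev]

/-- the condition for a product, from the condition in one variable -/
lemma So_Pr [DecidableEq α] {k c : F} {f : α → Polynomial F} {j : α} (hd : (f j).natDegree ≤ 8)
    {z : α → F} {u : F}
    (h : So (MvPolynomial.C k : MvPolynomial Unit F)
      (Polynomial.aeval (MvPolynomial.X ()) (f j)) (Pi.single () 1) (fun _ => z j) u) :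
    So (MvPolynomial.C k) (Pr c f) (Pi.single j 1) z u := by
  rw [So_iff (deg_rst ((deg_aeval_X_self () (f j)).trans hd) _)] at h
  rw [So_iff (deg_rst ((deg_Pr c f j).trans hd) _)]
  intro h0
  rw [eval_Pr] at h0
  have h1 := right_ne_zero_of_mul h0
  have h2 := Finset.prod_ne_zero_iff.1 h1 j (Finset.mem_univ j)
  obtain ⟨R, S, hRS⟩ := h (by rw [eval_aeval_X]; exact h2)
  rw [eval_aeval_X, eval_aeval_X, MvPolynomial.eval_C, Pi.single_eq_same, mul_one] at hRS
  refine ⟨R, S, ?_⟩
  rw [eval_Pr, eval_Pr, MvPolynomial.eval_C, ← Finset.mul_prod_erase _ _ (Finset.mem_univ j),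
    ← Finset.mul_prod_erase _ (fun i => (f i).eval (z i + u * (Pi.single j 1 : α → F) i))
      (Finset.mem_univ j)]
  have e1 : ∏ x ∈ Finset.univ.erase j, (f x).eval (z x + u * (Pi.single j 1 : α → F) x) =
      ∏ x ∈ Finset.univ.erase j, (f x).eval (z x) := by
    refine Finset.prod_congr rfl fun i hi => ?_
    rw [Pi.single_eq_of_ne (Finset.ne_of_mem_erase hi), mul_zero, add_zero]
  rw [e1, Pi.single_eq_same, mul_one, ← hRS]
  ring

/-- the univariate polynomial -/
noncomputable def uni (N : MvPolynomial Unit F) : Polynomial F :=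
  MvPolynomial.aeval (fun _ => Polynomial.X) N

lemma uni_eval {L : Type*} [Field L] (φ : F →+* L) (N : MvPolynomial Unit F) (x : L) :
    ((uni N).map φ).eval x = MvPolynomial.eval (fun _ => x) (MvPolynomial.map φ N) := by
  unfold uni
  induction N using MvPolynomial.induction_on with
  | C a => simp
  | add p q hp hq => simp only [map_add, Polynomial.map_add, Polynomial.eval_add, hp, hq]
  | mul_X p i hp =>
    simp only [map_mul, Polynomial.map_mul, Polynomial.eval_mul, hp, MvPolynomial.aeval_X,
      Polynomial.map_X, Polynomial.eval_X, MvPolynomial.map_X, MvPolynomial.eval_X]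

lemma uni_ne {N : MvPolynomial Unit F} (hN : N ≠ 0) : uni N ≠ 0 := by
  intro h
  have : Infinite F := CharZero.infinite F
  apply hN
  apply MvPolynomial.funext
  intro x
  have h1 := uni_eval (RingHom.id F) N (x ())
  rw [h, Polynomial.map_id, MvPolynomial.map_id, Polynomial.eval_zero] at h1
  rw [map_zero, h1]

end alg

section sys

variable {K : Type u} [Field K] [CharZero K] {α : Type w} [Fintype α] [DecidableEq α]
  {I : Type*} [Fintype I]

/-- the first coefficients -/
noncomputable def PA (κ : I → Bool) (k c : I → K) (f : I → α → Polynomial K) (i : I) :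
    MvPolynomial α K := if κ i then MvPolynomial.C (k i) else Pr (c i) (f i)

/-- the second coefficients -/
noncomputable def PB (κ : I → Bool) (k c : I → K) (f : I → α → Polynomial K) (i : I) :
    MvPolynomial α K := if κ i then Pr (c i) (f i) else MvPolynomial.C (k i)

lemma Tame.mono {d d' : I → ℕ} (h : Tame d) (hd : ∀ i, d' i ≤ d i) : Tame d' := by
  classical
  refine ⟨le_trans (Finset.sum_le_sum fun i _ => ?_) h.1,
    le_trans (Finset.card_le_card fun i hi => ?_) h.2⟩
  · have := hd i
    omega
  · rw [Finset.mem_filter] at hi ⊢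
    have := hd i
    refine ⟨Finset.mem_univ i, ?_⟩
    have := hi.2
    omega

/-- **The closure is open outside a product of divisors in one variable.** -/
theorem prod_int {κ : I → Bool} {k c : I → K} {f : I → α → Polynomial K} (hk : ∀ i, k i ≠ 0)
    (hc : ∀ i, c i ≠ 0) (hf : ∀ i j, f i j ≠ 0) (hT : ∀ j, Tame fun i => (f i j).natDegree) :
    ∃ ν : α → Polynomial K, (∀ j, ν j ≠ 0) ∧ ∀ (V : Type) [Finite V] [Nonempty V] (L : V → Type)
    [∀ v, NontriviallyNormedField (L v)] [∀ v, CompleteSpace (L v)] [∀ v, CharZero (L v)]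
    (s : ∀ v, K →+* L v), M8 s → Dn s → ∀ z₀ : ∀ v, α → L v,
    (∀ v j, ((ν j).map (s v)).eval (z₀ v j) ≠ 0) →
    IntD s (Pz (PA κ k c f) (PB κ k c f)) z₀ ∧
      (∀ v i, MvPolynomial.eval (z₀ v) (MvPolynomial.map (s v) (PA κ k c f i)) ≠ 0) ∧
      (∀ v i, MvPolynomial.eval (z₀ v) (MvPolynomial.map (s v) (PB κ k c f i)) ≠ 0) := by
  have hG : ∀ j, Gm (fun (z : Unit → K) u => ∀ i, So (MvPolynomial.C (k i))
      (Polynomial.aeval (MvPolynomial.X ()) (f i j)) (Pi.single () 1) z u) := by
    intro j
    refine tree_sys (fun i => ?_) (fun i => aeval_X_ne (hf i j)) ?_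
    · rw [Ne, MvPolynomial.C_eq_zero]; exact hk i
    · exact (hT j).mono fun i => deg_aeval_X_self () (f i j)
  choose N hN h using hG
  refine ⟨fun j => uni (N j) * ∏ i, f i j, fun j => mul_ne_zero (uni_ne (hN j))
    (Finset.prod_ne_zero_iff.2 fun i _ => hf i j), ?_⟩
  intro V _ _ L _ _ _ s h8 hden z₀ hz
  have h1 : ∀ v j, MvPolynomial.eval (fun _ => z₀ v j) (MvPolynomial.map (s v) (N j)) ≠ 0 := by
    intro v j
    have := hz v j
    rw [Polynomial.map_mul, Polynomial.eval_mul, uni_eval] at this
    exact left_ne_zero_of_mul this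
  have h2 : ∀ v i j, ((f i j).map (s v)).eval (z₀ v j) ≠ 0 := by
    intro v i j
    have := hz v j
    rw [Polynomial.map_mul, Polynomial.eval_mul, Polynomial.map_prod, Polynomial.eval_prod] at this
    exact Finset.prod_ne_zero_iff.1 (right_ne_zero_of_mul this) i (Finset.mem_univ i)
  have h3 : ∀ v i, MvPolynomial.eval (z₀ v) (MvPolynomial.map (s v) (Pr (c i) (f i))) ≠ 0 := by
    intro v i
    have e1 : MvPolynomial.map (s v) (Pr (c i) (f i)) =
        Pr (s v (c i)) (fun j => (f i j).map (s v)) := by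
      simp only [Pr, map_mul, map_prod, MvPolynomial.map_C]
      congr 1
      refine Finset.prod_congr rfl fun j _ => ?_
      have := Polynomial.map_aeval_eq_aeval_map (S := MvPolynomial α K) (T := L v)
        (U := MvPolynomial α (L v)) (φ := s v) (ψ := MvPolynomial.map (s v)) (by
          ext x
          simp) (f i j) (MvPolynomial.X j)
      rw [this, MvPolynomial.map_X]
    rw [e1, eval_Pr]
    exact mul_ne_zero ((map_ne_zero (s v)).2 (hc i))
      (Finset.prod_ne_zero_iff.2 fun j _ => h2 v i j)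
  have h4 : ∀ v i, MvPolynomial.eval (z₀ v)
      (MvPolynomial.map (s v) (MvPolynomial.C (k i) : MvPolynomial α K)) ≠ 0 := by
    intro v i
    rw [MvPolynomial.map_C, MvPolynomial.eval_C]
    exact (map_ne_zero (s v)).2 (hk i)
  have hA : ∀ v i, MvPolynomial.eval (z₀ v) (MvPolynomial.map (s v) (PA κ k c f i)) ≠ 0 := by
    intro v i
    unfold PA
    split_ifs
    · exact h4 v i
    · exact h3 v i
  have hB : ∀ v i, MvPolynomial.eval (z₀ v) (MvPolynomial.map (s v) (PB κ k c f i)) ≠ 0 := by
    intro v i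
    unfold PB
    split_ifs
    · exact h3 v i
    · exact h4 v i
  refine ⟨int_of_mvD fun j => ?_, hA, hB⟩
  have hCdeg : ∀ i, (MvPolynomial.C (k i) : MvPolynomial α K).degreeOf j = 0 := fun i =>
    MvPolynomial.degreeOf_C _ _
  have hd8 : ∀ i, (f i j).natDegree ≤ 8 := fun i => tame_le (hT j) i
  refine mvD_of (fun i => ?_) (fun i => ?_) hA hB ?_
  · unfold PA PB
    by_cases hi : κ i
    · left; rw [if_pos hi]; exact hCdeg i
    · right; rw [if_neg hi]; exact hCdeg i
  · unfold PA PB
    have hp := (deg_Pr (c i) (f i) j).trans (hd8 i)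
    by_cases hi : κ i
    · rw [if_pos hi, if_pos hi, hCdeg i, zero_add]; exact hp
    · rw [if_neg hi, if_neg hi, hCdeg i, add_zero]; exact hp
  · obtain ⟨δ, hδ, hmv⟩ := h j V L s h8 hden (fun v _ => z₀ v j) fun v => h1 v j
    refine ⟨δ, hδ, fun z hz' t ht η hη => ?_⟩
    obtain ⟨u, hu1, hu2⟩ := hmv (fun _ => z j) (fun v _ => hz' v j) t ht η hη
    refine ⟨u, fun i => ?_, hu2⟩
    have key := So_Pr (c := c i) (hd8 i) (hu1 i)
    unfold PA PB
    by_cases hi : κ i
    · rw [if_pos hi, if_pos hi, if_pos (hCdeg i), if_pos (hCdeg i)]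
      exact key
    · rw [if_neg hi, if_neg hi]
      by_cases h0 : (Pr (c i) (f i)).degreeOf j = 0
      · rw [if_pos h0, if_pos h0]
        exact So_const (deg_rst (hCdeg i).le _) u
      · rw [if_neg h0, if_neg h0]
        exact key

end sys

end Pool.Agent.H436.CB
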