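import Pool.Agent.H436.CB.Real
import Pool.Agent.H436.CB.Fib
import Pool.Graph.R_seed8.Y718.QuartB

/-!
# Semialgebraic closures (helper436)
-/

set_option autoImplicit false
set_option linter.unusedVariables false
set_option linter.unusedSectionVars false
set_option linter.deprecated false
set_option linter.unusedSimpArgs false

open Filter Topology Pool.Agent.TH729.SQ Pool.Agent.Y718 Pool.Agent.H581R2
open Pool.Agent.Y720.MZ (Dn)

namespace Pool.Agent.H436.CB

variable {α : Type} [Fintype α] [DecidableEq α] {I : Type} [Fintype I]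

/-- the rational points of the system -/
def pts (A B : I → MvPolynomial α ℚ) : Set (α ⊕ (I ⊕ I) → ℚ) :=
  {u | ∀ i, u (Sum.inr (Sum.inl i)) ^ 2 - MvPolynomial.eval (fun j => u (Sum.inl j)) (A i) *
    u (Sum.inr (Sum.inr i)) ^ 2 = MvPolynomial.eval (fun j => u (Sum.inl j)) (B i)}

/-- the rational points outside a divisor -/
def gpts (A B : I → MvPolynomial α ℚ) (N : MvPolynomial α ℚ) : Set (α ⊕ (I ⊕ I) → ℚ) :=
  {u | u ∈ pts A B ∧ MvPolynomial.eval (fun j => u (Sum.inl j)) N ≠ 0}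

/-- the real points outside a divisor -/
def rpts (A B : I → MvPolynomial α ℚ) (N : MvPolynomial α ℚ) : Set (α ⊕ (I ⊕ I) → ℝ) :=
  {x | (∀ i, x (Sum.inr (Sum.inl i)) ^ 2 - MvPolynomial.aeval (fun j => x (Sum.inl j)) (A i) *
    x (Sum.inr (Sum.inr i)) ^ 2 = MvPolynomial.aeval (fun j => x (Sum.inl j)) (B i)) ∧
    (MvPolynomial.aeval (fun j => x (Sum.inl j)) N : ℝ) ≠ 0}

lemma ev_sR (f : MvPolynomial α ℚ) (z : α → ℝ) (v : Unit) :
    MvPolynomial.eval z (MvPolynomial.map (sR v) f) = (MvPolynomial.aeval z f : ℝ) := by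
  rw [MvPolynomial.eval_map, MvPolynomial.aeval_def]
  rfl

lemma lim_iff {A B : I → MvPolynomial α ℚ} {x : α ⊕ (I ⊕ I) → ℝ} :
    x ∈ closure (rl (pts A B)) ↔
      Lim sR A B (fun _ j => x (Sum.inl j)) (fun _ i => x (Sum.inr (Sum.inl i)))
        (fun _ i => x (Sum.inr (Sum.inr i))) := by
  rw [Metric.mem_closure_iff, Lim]
  refine forall_congr' fun η => ?_
  rw [gt_iff_lt]
  refine imp_congr_right fun hη => ?_
  constructor
  · rintro ⟨_, ⟨u, hu, rfl⟩, h2⟩
    rw [dist_comm, dist_pi_lt_iff hη] at h2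
    refine ⟨fun j => u (Sum.inl j), fun i => u (Sum.inr (Sum.inl i)),
      fun i => u (Sum.inr (Sum.inr i)), hu, fun _ => ⟨fun j => ?_, fun i => ⟨?_, ?_⟩⟩⟩
    · exact (dist_eq_norm _ _).symm.trans_lt (h2 (Sum.inl j))
    · exact (dist_eq_norm _ _).symm.trans_lt (h2 (Sum.inr (Sum.inl i)))
    · exact (dist_eq_norm _ _).symm.trans_lt (h2 (Sum.inr (Sum.inr i)))
  · rintro ⟨z', R', S', hP, h2⟩
    refine ⟨_, ⟨Sum.elim z' (Sum.elim R' S'), hP, rfl⟩, ?_⟩
    rw [dist_comm, dist_pi_lt_iff hη]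
    rintro (j | i | i)
    · exact (dist_eq_norm _ _).trans_lt ((h2 ()).1 j)
    · exact (dist_eq_norm _ _).trans_lt (((h2 ()).2 i).1)
    · exact (dist_eq_norm _ _).trans_lt (((h2 ()).2 i).2)

/-- a divisor outside of which the closure is open -/
def GoodN (A B : I → MvPolynomial α ℚ) (N : MvPolynomial α ℚ) : Prop :=
  ∀ z₀ : ∀ _ : Unit, α → ℝ, (∀ v, MvPolynomial.eval (z₀ v) (MvPolynomial.map (sR v) N) ≠ 0) →
    IntD sR (Pz A B) z₀ ∧
      (∀ v i, MvPolynomial.eval (z₀ v) (MvPolynomial.map (sR v) (A i)) ≠ 0) ∧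
      (∀ v i, MvPolynomial.eval (z₀ v) (MvPolynomial.map (sR v) (B i)) ≠ 0)

/-- the closure is open and closed outside the divisor -/
theorem lc_of_good {A B : I → MvPolynomial α ℚ} {N : MvPolynomial α ℚ} (h : GoodN A B N) :
    LC (rpts A B N) (rpts A B N ∩ closure (rl (pts A B))) := by
  intro x hx
  have hz0 : ∀ v : Unit, MvPolynomial.eval (fun j => x (Sum.inl j))
      (MvPolynomial.map (sR v) N) ≠ 0 := fun v => by
    rw [ev_sR]; exact hx.2
  obtain ⟨⟨ε, hε, hint⟩, -, -⟩ := h (fun _ j => x (Sum.inl j)) hz0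
  by_cases hxW : x ∈ closure (rl (pts A B))
  · have hball : Metric.ball x ε ∈ 𝓝[rpts A B N] x := nhdsWithin_le_nhds (Metric.ball_mem_nhds x hε)
    filter_upwards [hball, self_mem_nhdsWithin] with y hy hyV
    refine ⟨fun _ => ⟨hx, hxW⟩, fun _ => ⟨hyV, ?_⟩⟩
    have hy0 : ∀ v : Unit, MvPolynomial.eval (fun j => y (Sum.inl j))
        (MvPolynomial.map (sR v) N) ≠ 0 := fun v => by
      rw [ev_sR]; exact hyV.2
    obtain ⟨-, hA, hB⟩ := h (fun _ j => y (Sum.inl j)) hy0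
    obtain ⟨-, hA', hB'⟩ := h (fun _ j => x (Sum.inl j)) hz0
    have hXv : ∀ w : α ⊕ (I ⊕ I) → ℝ, w ∈ rpts A B N → ∀ v : Unit,
        Xv (fun i => MvPolynomial.map (sR v) (A i)) (fun i => MvPolynomial.map (sR v) (B i))
          (fun j => w (Sum.inl j)) (fun i => w (Sum.inr (Sum.inl i)))
          (fun i => w (Sum.inr (Sum.inr i))) := by
      intro w hw v i
      rw [ev_sR, ev_sR]
      exact hw.1 i
    rw [lim_iff, cls_base dn_sR hA hB (hXv y hyV)]
    rw [lim_iff, cls_base dn_sR hA' hB' (hXv x hx)] at hxW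
    intro η hη
    obtain ⟨z₁, hz₁, hn₁⟩ := hxW ε hε
    refine hint z₁ hz₁ hn₁ (fun _ j => y (Sum.inl j)) (fun v j => ?_) η hη
    rw [Metric.mem_ball, dist_pi_lt_iff hε] at hy
    have := hy (Sum.inl j)
    rwa [dist_eq_norm] at this
  · have hc : (closure (rl (pts A B)))ᶜ ∈ 𝓝[rpts A B N] x :=
      nhdsWithin_le_nhds (isClosed_closure.isOpen_compl.mem_nhds hxW)
    filter_upwards [hc] with y hy
    exact ⟨fun hyW => absurd hyW.2 hy, fun hxW' => absurd hxW'.2 hxW⟩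

lemma rpts_SA (A B : I → MvPolynomial α ℚ) (N : MvPolynomial α ℚ) : SA (rpts A B N) := by
  have hc : ∀ f : MvPolynomial α ℚ, PF (fun x : α ⊕ (I ⊕ I) → ℝ =>
      (MvPolynomial.aeval (fun j => x (Sum.inl j)) f : ℝ)) := fun f =>
    (PF.aeval f).comp (φ := fun (x : α ⊕ (I ⊕ I) → ℝ) j => x (Sum.inl j)) fun j => PF.coord _
  refine SAP.and (SAP.forall_fin fun i => ?_) (SAP.eq_zero (hc N)).not
  exact SAP.eq (((PF.coord _).pow 2).sub ((hc (A i)).mul ((PF.coord _).pow 2))) (hc (B i))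

/-- the points outside the divisor -/
lemma closure_gpts (A B : I → MvPolynomial α ℚ) (N : MvPolynomial α ℚ) :
    closure (rl (gpts A B N)) = closure (rpts A B N ∩ closure (rl (pts A B))) := by
  apply Set.Subset.antisymm
  · refine closure_mono ?_
    rintro _ ⟨u, ⟨hu, hN⟩, rfl⟩
    refine ⟨⟨fun i => ?_, ?_⟩, subset_closure ⟨u, hu, rfl⟩⟩
    · have := hu i
      rw [aeval_cast (fun j => u (Sum.inl j)) (A i), aeval_cast (fun j => u (Sum.inl j)) (B i),
        ← this]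
      push_cast
      rfl
    · rw [aeval_cast (fun j => u (Sum.inl j)) N]
      exact_mod_cast hN
  · refine closure_minimal ?_ isClosed_closure
    rintro x ⟨hx, hcl⟩
    have hop : IsOpen {y : α ⊕ (I ⊕ I) → ℝ |
        (MvPolynomial.aeval (fun j => y (Sum.inl j)) N : ℝ) ≠ 0} := by
      refine isOpen_ne_fun ?_ continuous_const
      exact (continuous_aeval N).comp (continuous_pi fun j => continuous_apply (Sum.inl j))
    rw [mem_closure_iff_nhds] at hcl ⊢
    intro t ht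
    obtain ⟨_, ⟨hy1, hy2⟩, ⟨u, hu, rfl⟩⟩ := hcl _ (inter_mem ht (hop.mem_nhds hx.2))
    refine ⟨_, hy1, ⟨u, ⟨hu, ?_⟩, rfl⟩⟩
    intro h0
    apply hy2
    rw [aeval_cast (fun j => u (Sum.inl j)) N, h0, Rat.cast_zero]

/-- **Semialgebraicity outside the divisor.** -/
theorem gpts_SA {A B : I → MvPolynomial α ℚ} {N : MvPolynomial α ℚ} (h : GoodN A B N) :
    SA (closure (rl (gpts A B N))) := by
  rw [closure_gpts]
  exact SA.closure (sa_of_lc _ _ _ (rpts_SA A B N) Set.inter_subset_left (lc_of_good h))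

/-- **Connected sets of real points.** -/
theorem conn_of_good {A B : I → MvPolynomial α ℚ} {N : MvPolynomial α ℚ} (h : GoodN A B N)
    {C : Set (α ⊕ (I ⊕ I) → ℝ)} (hC : IsPreconnected C) (hCV : C ⊆ rpts A B N)
    {x : α ⊕ (I ⊕ I) → ℝ} (hx : x ∈ C) (hxc : x ∈ closure (rl (pts A B))) :
    C ⊆ closure (rl (pts A B)) := by
  intro y hy
  exact (((lc_of_good h).constant hC hCV hx hy).1 ⟨hCV hx, hxc⟩).2

end Pool.Agent.H436.CB
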