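import Pool.Agent.H436.CB.Prod
import Pool.Agent.H436.CB.SAx

/-!
# Semialgebraic closures for separated coefficients (helper436)
-/

set_option autoImplicit false
set_option linter.unusedVariables false
set_option linter.unusedSectionVars false
set_option linter.deprecated false
set_option linter.unusedSimpArgs false

open Filter Topology Pool.Agent.TH729.SQ Pool.Agent.Y718 Pool.Agent.H581R2
open Pool.Agent.Y720.MZ (Dn)

namespace Pool.Agent.H436.CB

/-- closures of products -/
theorem split_SA {ι ι₁ ι₂ : Type} [Finite ι] [Finite ι₁] [Finite ι₂] (e₁ : ι₁ → ι) (e₂ : ι₂ → ι)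
    (hs : ∀ i, (∃ a, e₁ a = i) ∨ ∃ b, e₂ b = i)
    (hg : ∀ (r₁ : ι₁ → ℚ) (r₂ : ι₂ → ℚ), ∃ r : ι → ℚ, (fun a => r (e₁ a)) = r₁ ∧
      (fun b => r (e₂ b)) = r₂)
    {D₁ : Set (ι₁ → ℚ)} {D₂ : Set (ι₂ → ℚ)} (h₁ : SA (closure (rl D₁)))
    (h₂ : SA (closure (rl D₂))) {T : Set (ι → ℚ)}
    (hT : ∀ y, y ∈ T ↔ (fun a => y (e₁ a)) ∈ D₁ ∧ (fun b => y (e₂ b)) ∈ D₂) :
    SA (closure (rl T)) := by
  have := Fintype.ofFinite ι
  have := Fintype.ofFinite ι₁
  have := Fintype.ofFinite ι₂
  have heq : closure (rl T) = {x : ι → ℝ | (fun a => x (e₁ a)) ∈ closure (rl D₁) ∧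
      (fun b => x (e₂ b)) ∈ closure (rl D₂)} := by
    apply Set.Subset.antisymm
    · refine closure_minimal ?_ ?_
      · rintro _ ⟨r, hr, rfl⟩
        obtain ⟨h1, h2⟩ := (hT r).1 hr
        exact ⟨subset_closure ⟨_, h1, rfl⟩, subset_closure ⟨_, h2, rfl⟩⟩
      · refine (isClosed_closure.preimage ?_).inter (isClosed_closure.preimage ?_)
        · fun_prop
        · fun_prop
    · rintro x ⟨hx1, hx2⟩
      rw [Metric.mem_closure_iff] at hx1 hx2 ⊢
      intro η hη
      obtain ⟨_, ⟨r₁, hr₁, rfl⟩, hd₁⟩ := hx1 η hη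
      obtain ⟨_, ⟨r₂, hr₂, rfl⟩, hd₂⟩ := hx2 η hη
      obtain ⟨r, g1, g2⟩ := hg r₁ r₂
      refine ⟨_, ⟨r, (hT r).2 ⟨by rw [g1]; exact hr₁, by rw [g2]; exact hr₂⟩, rfl⟩, ?_⟩
      rw [dist_pi_lt_iff hη] at hd₁ hd₂ ⊢
      intro i
      rcases hs i with ⟨a, rfl⟩ | ⟨b, rfl⟩
      · have := hd₁ a
        rw [← g1] at this
        exact this
      · have := hd₂ b
        rw [← g2] at this
        exact this
  rw [heq]
  refine SAP.and ?_ ?_
  · exact SAP.preimage (p := fun v => v ∈ closure (rl D₁)) h₁ (fun i => PF.coord _)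
  · exact SAP.preimage (p := fun v => v ∈ closure (rl D₂)) h₂ (fun i => PF.coord _)

/-- the closure of the set of the rational points of an affine conic -/
lemma conic_SA (a b : ℚ) : SA (closure (rl {w : Fin 2 → ℚ | w 0 ^ 2 - a * w 1 ^ 2 = b})) := by
  have h := poly_SA (MvPolynomial.X 0 ^ 2 - MvPolynomial.C a * MvPolynomial.X 1 ^ 2 -
    MvPolynomial.C b : MvPolynomial (Fin 2) ℚ) (by
      refine (MvPolynomial.totalDegree_sub _ _).trans (max_le ?_ ?_)
      · refine (MvPolynomial.totalDegree_sub _ _).trans (max_le ?_ ?_)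
        · refine (MvPolynomial.totalDegree_pow _ _).trans ?_
          rw [MvPolynomial.totalDegree_X]
          norm_num
        · refine (MvPolynomial.totalDegree_mul _ _).trans ?_
          rw [MvPolynomial.totalDegree_C, zero_add]
          refine (MvPolynomial.totalDegree_pow _ _).trans ?_
          rw [MvPolynomial.totalDegree_X]
          norm_num
      · rw [MvPolynomial.totalDegree_C]
        norm_num)
  have e : {w : Fin 2 → ℚ | w 0 ^ 2 - a * w 1 ^ 2 = b} = {x : Fin 2 → ℚ | MvPolynomial.eval x
      (MvPolynomial.X 0 ^ 2 - MvPolynomial.C a * MvPolynomial.X 1 ^ 2 -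
        MvPolynomial.C b : MvPolynomial (Fin 2) ℚ) = 0} := by
    ext w
    simp only [Set.mem_setOf_eq, map_sub, map_mul, map_pow, MvPolynomial.eval_X,
      MvPolynomial.eval_C, sub_eq_zero]
  rw [e]
  exact h

lemma Tame.restrict {I : Type} [Fintype I] [DecidableEq I] {d : I → ℕ} (h : Tame d) (i₀ : I) :
    Tame (fun i : {i // i ≠ i₀} => d i.1) := by
  classical
  refine ⟨le_trans ?_ h.1, le_trans ?_ h.2⟩
  · rw [Fintype.sum_eq_add_sum_subtype_ne _ i₀]
    exact Nat.le_add_left _ _
  · refine Finset.card_le_card_of_injOn (fun i => i.1) (fun i hi => ?_) ?_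
    · rw [Finset.mem_coe, Finset.mem_filter] at hi ⊢
      exact ⟨Finset.mem_univ _, hi.2⟩
    · intro i _ j _ hij
      exact Subtype.ext hij

section fiber

variable {α : Type} [Fintype α] [DecidableEq α] {I : Type} [Fintype I]

/-- extension of a vector by a coordinate -/
def ins (j : α) (ρ : ℚ) (z : {i // i ≠ j} → ℚ) : α → ℚ :=
  fun i => if h : i = j then ρ else z ⟨i, h⟩

lemma ins_self (j : α) (ρ : ℚ) (z : {i // i ≠ j} → ℚ) : ins j ρ z j = ρ := by
  rw [ins, dif_pos rfl]

lemma ins_ne {j : α} (ρ : ℚ) (z : {i // i ≠ j} → ℚ) (i : {i // i ≠ j}) :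
    ins j ρ z i.1 = z i := by
  rw [ins, dif_neg i.2]

lemma ins_restrict {j : α} {ρ : ℚ} {z : α → ℚ} (h : z j = ρ) :
    ins j ρ (fun i => z i.1) = z := by
  funext i
  rw [ins]
  split_ifs with hi
  · rw [hi, h]
  · rfl

lemma eval_Pr_ins (c : ℚ) (f : α → Polynomial ℚ) (j : α) (ρ : ℚ) (z : {i // i ≠ j} → ℚ) :
    MvPolynomial.eval (ins j ρ z) (Pr c f) =
      MvPolynomial.eval z (Pr (c * (f j).eval ρ) (fun i => f i.1)) := by
  rw [eval_Pr, eval_Pr, Fintype.prod_eq_mul_prod_subtype_ne _ j, ins_self]
  simp only [ins_ne]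
  ring

lemma mem_pts_ins {κ : I → Bool} {k c : I → ℚ} {f : I → α → Polynomial ℚ} (j : α) (ρ : ℚ)
    (z : {i // i ≠ j} → ℚ) (w : I ⊕ I → ℚ) :
    Sum.elim (ins j ρ z) w ∈ pts (PA κ k c f) (PB κ k c f) ↔
      Sum.elim z w ∈ pts (PA κ k (fun i => c i * (f i j).eval ρ) fun i j' => f i j'.1)
        (PB κ k (fun i => c i * (f i j).eval ρ) fun i j' => f i j'.1) := by
  refine forall_congr' fun i => ?_
  simp only [Sum.elim_inl, Sum.elim_inr]
  unfold PA PB
  split_ifs
  · rw [eval_Pr_ins, MvPolynomial.eval_C, MvPolynomial.eval_C]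
  · rw [eval_Pr_ins, MvPolynomial.eval_C, MvPolynomial.eval_C]

end fiber

/-- **The closure of the set of all rational points, for separated coefficients.** -/
theorem prod_SA : ∀ (m : ℕ) (α : Type) [Fintype α] [DecidableEq α] (I : Type) [Fintype I]
    (κ : I → Bool) (k c : I → ℚ) (f : I → α → Polynomial ℚ),
    Fintype.card α + Fintype.card I = m → (∀ i, k i ≠ 0) → (∀ i j, f i j ≠ 0) →
    (∀ j, Tame fun i => (f i j).natDegree) →
    SA (closure (rl (pts (PA κ k c f) (PB κ k c f)))) := by
  classical
  intro m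
  induction m using Nat.strong_induction_on with
  | _ m ih =>
    intro α _ _ I _ κ k c f hm hk hf hT
    by_cases hc : ∀ i, c i ≠ 0
    · -- the closure of the good points, and the bad hyperplanes
      obtain ⟨ν, hν, hint⟩ := prod_int hk hc hf hT (κ := κ)
      have hgood : GoodN (PA κ k c f) (PB κ k c f) (Pr 1 ν) := by
        intro z₀ hz
        refine hint Unit (fun _ => ℝ) sR M8_real dn_sR z₀ fun v j => ?_
        have h1 := hz v
        have e1 : MvPolynomial.eval (z₀ v) (MvPolynomial.map (sR v) (Pr 1 ν)) =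
            ∏ j, ((ν j).map (sR v)).eval (z₀ v j) := by
          rw [Pr, map_mul, map_mul, MvPolynomial.C_1, map_one, map_one, one_mul, map_prod,
            map_prod]
          refine Finset.prod_congr rfl fun j _ => ?_
          rw [Polynomial.map_aeval_eq_aeval_map (φ := sR v) (ψ := MvPolynomial.map (sR v)) (by
            ext x
            simp) (ν j) (MvPolynomial.X j), MvPolynomial.map_X, eval_aeval_X]
        rw [e1] at h1
        exact Finset.prod_ne_zero_iff.1 h1 j (Finset.mem_univ j)
      have hfin : {e : α × ℚ | (ν e.1).eval e.2 = 0}.Finite := by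
        have h1 : {e : α × ℚ | (ν e.1).eval e.2 = 0} ⊆
            ⋃ j : α, (fun ρ => (j, ρ)) '' ((ν j).roots.toFinset : Set ℚ) := by
          rintro ⟨j, ρ⟩ h
          refine Set.mem_iUnion.2 ⟨j, ρ, ?_, rfl⟩
          rw [Finset.mem_coe, Multiset.mem_toFinset, Polynomial.mem_roots (hν j)]
          exact h
        exact (Set.finite_iUnion fun j => (Finset.finite_toSet _).image _).subset h1
      have hunion : pts (PA κ k c f) (PB κ k c f) =
          gpts (PA κ k c f) (PB κ k c f) (Pr 1 ν) ∪
            ⋃ e ∈ {e : α × ℚ | (ν e.1).eval e.2 = 0},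
              {u | u ∈ pts (PA κ k c f) (PB κ k c f) ∧ u (Sum.inl e.1) = e.2} := by
        ext u
        constructor
        · intro hu
          by_cases h0 : MvPolynomial.eval (fun j => u (Sum.inl j)) (Pr 1 ν) = 0
          · right
            rw [eval_Pr, one_mul, Finset.prod_eq_zero_iff] at h0
            obtain ⟨j, -, hj⟩ := h0
            refine Set.mem_iUnion₂.2 ⟨(j, u (Sum.inl j)), hj, hu, rfl⟩
          · exact Or.inl ⟨hu, h0⟩
        · rintro (h | h)
          · exact h.1
          · obtain ⟨e, -, h1, -⟩ := Set.mem_iUnion₂.1 h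
            exact h1
      rw [hunion]
      refine union_SA (gpts_SA hgood) (biUnion_SA hfin ?_)
      rintro ⟨j, ρ⟩ -
      have hcard : Fintype.card {i // i ≠ j} + Fintype.card I < m := by
        have h1 : Fintype.card {i // i ≠ j} < Fintype.card α := by
          refine Fintype.card_subtype_lt (x := j) ?_
          simp
        omega
      have key := ih _ hcard {i // i ≠ j} I κ k (fun i => c i * (f i j).eval ρ)
        (fun i j' => f i j'.1) rfl hk (fun i j' => hf i j'.1) (fun j' => hT j'.1)
      refine img_SA (κ := Empty) key (q := fun _ => 1) (PQ.const 1)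
        (p := fun s v => Sum.elim (ins j ρ (fun i => v (Sum.inl (Sum.inl i))))
          (fun i => v (Sum.inl (Sum.inr i))) s) (fun s => ?_) fun y => ?_
      · rcases s with i | i
        · simp only [Sum.elim_inl]
          by_cases hi : i = j
          · have : (fun v : ({i // i ≠ j} ⊕ (I ⊕ I)) ⊕ Empty → ℚ =>
                ins j ρ (fun i => v (Sum.inl (Sum.inl i))) i) = fun _ => ρ := by
              funext v
              rw [ins, dif_pos hi]
            rw [this]
            exact PQ.const ρ
          · have : (fun v : ({i // i ≠ j} ⊕ (I ⊕ I)) ⊕ Empty → ℚ =>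
                ins j ρ (fun i => v (Sum.inl (Sum.inl i))) i) =
                fun v => v (Sum.inl (Sum.inl ⟨i, hi⟩)) := by
              funext v
              rw [ins, dif_neg hi]
            rw [this]
            exact PQ.coord _
        · simp only [Sum.elim_inr]
          exact PQ.coord _
      · constructor
        · rintro ⟨hy1, hy2⟩
          have e1 : y = Sum.elim (ins j ρ (fun i => y (Sum.inl i.1))) (fun i => y (Sum.inr i)) := by
            funext s
            rcases s with i | i
            · rw [Sum.elim_inl, ins_restrict (z := fun i => y (Sum.inl i)) hy2]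
            · rfl
          refine ⟨Sum.elim (fun i => y (Sum.inl i.1)) (fun i => y (Sum.inr i)), ?_,
            fun x => x.elim, one_ne_zero, fun s => ?_⟩
          · rw [← mem_pts_ins, ← e1]
            exact hy1
          · rw [div_one]
            conv_lhs => rw [e1]
            rcases s with i | i <;> rfl
        · rintro ⟨x, hx, u, -, hy⟩
          have e1 : y = Sum.elim (ins j ρ (fun i => x (Sum.inl i))) (fun i => x (Sum.inr i)) := by
            funext s
            rw [hy s, div_one]
            rcases s with i | i <;> rfl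
          refine ⟨?_, ?_⟩
          · rw [e1, mem_pts_ins]
            have e2 : Sum.elim (fun i => x (Sum.inl i)) (fun i => x (Sum.inr i)) = x := by
              funext s
              rcases s with i | i <;> rfl
            rw [e2]
            exact hx
          · rw [e1, Sum.elim_inl, ins_self]
    · -- an equation with zero coefficient splits off
      push Not at hc
      obtain ⟨i₀, hi₀⟩ := hc
      have hcard : Fintype.card α + Fintype.card {i // i ≠ i₀} < m := by
        have h1 : Fintype.card {i // i ≠ i₀} < Fintype.card I := by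
          refine Fintype.card_subtype_lt (x := i₀) ?_
          simp
        omega
      have key := ih _ hcard α {i // i ≠ i₀} (fun i => κ i.1) (fun i => k i.1) (fun i => c i.1)
        (fun i j => f i.1 j) rfl (fun i => hk i.1) (fun i j => hf i.1 j)
        (fun j => (hT j).restrict i₀)
      have hcon := conic_SA (if κ i₀ then k i₀ else 0) (if κ i₀ then 0 else k i₀)
      refine split_SA (ι := α ⊕ (I ⊕ I)) (ι₁ := α ⊕ ({i // i ≠ i₀} ⊕ {i // i ≠ i₀}))
        (ι₂ := Fin 2) (Sum.map id (Sum.map Subtype.val Subtype.val))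
        ![Sum.inr (Sum.inl i₀), Sum.inr (Sum.inr i₀)] ?_ ?_ key hcon ?_
      · rintro (j | i | i)
        · exact Or.inl ⟨Sum.inl j, rfl⟩
        · by_cases hi : i = i₀
          · right; exact ⟨0, by rw [hi]; rfl⟩
          · left; exact ⟨Sum.inr (Sum.inl ⟨i, hi⟩), rfl⟩
        · by_cases hi : i = i₀
          · right; exact ⟨1, by rw [hi]; rfl⟩
          · left; exact ⟨Sum.inr (Sum.inr ⟨i, hi⟩), rfl⟩
      · intro r₁ r₂
        refine ⟨Sum.elim (fun j => r₁ (Sum.inl j)) (Sum.elim
          (fun i => if h : i = i₀ then r₂ 0 else r₁ (Sum.inr (Sum.inl ⟨i, h⟩)))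
          (fun i => if h : i = i₀ then r₂ 1 else r₁ (Sum.inr (Sum.inr ⟨i, h⟩)))), ?_, ?_⟩
        · funext s
          rcases s with j | i | i
          · rfl
          · simp only [Sum.map_inr, Sum.map_inl, Sum.elim_inr, Sum.elim_inl]
            rw [dif_neg i.2]
          · simp only [Sum.map_inr, Sum.map_inl, Sum.elim_inr, Sum.elim_inl]
            rw [dif_neg i.2]
        · funext s
          fin_cases s
          · simp
          · simp
      · intro y
        have hval : ∀ z : α → ℚ, MvPolynomial.eval z (Pr (c i₀) (f i₀)) = 0 := by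
          intro z
          rw [eval_Pr, hi₀, zero_mul]
        have h2 : (fun b => y ((![Sum.inr (Sum.inl i₀), Sum.inr (Sum.inr i₀)] :
            Fin 2 → α ⊕ (I ⊕ I)) b)) ∈ {w : Fin 2 → ℚ | w 0 ^ 2 -
              (if κ i₀ then k i₀ else 0) * w 1 ^ 2 = if κ i₀ then 0 else k i₀} ↔
            y (Sum.inr (Sum.inl i₀)) ^ 2 - MvPolynomial.eval (fun j => y (Sum.inl j))
              (PA κ k c f i₀) * y (Sum.inr (Sum.inr i₀)) ^ 2 =
              MvPolynomial.eval (fun j => y (Sum.inl j)) (PB κ k c f i₀) := by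
          unfold PA PB
          simp only [Set.mem_setOf_eq, Matrix.cons_val_zero, Matrix.cons_val_one]
          split_ifs
          · rw [hval, MvPolynomial.eval_C]
          · rw [hval, MvPolynomial.eval_C]
        rw [h2]
        constructor
        · intro hy
          exact ⟨fun i => hy i.1, hy i₀⟩
        · rintro ⟨h3, h4⟩ i
          by_cases hi : i = i₀
          · rw [hi]; exact h4
          · exact h3 ⟨i, hi⟩

end Pool.Agent.H436.CB
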