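import Pool.Agent.H436.CB.Cond

/-!
# Pulling back moves along a rational map (helper436)
-/

set_option autoImplicit false
set_option linter.unusedVariables false
set_option linter.unusedSectionVars false
set_option linter.deprecated false
set_option linter.unusedSimpArgs false

open Filter Topology Pool.Agent.Y720.MZ

namespace Pool.Agent.H436.CB

section loc

variable {L : Type*} [NontriviallyNormedField L] [CompleteSpace L] [CharZero L]

/-- **Small solutions, uniformly in the parameters.** -/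
theorem pull_fill {E : Type*} [NormedAddCommGroup E] [NormedSpace L E] [CompleteSpace E]
    {P q : E × L → L} {e₀ : E} (hP : AnalyticAt L P (e₀, 0)) (hq : AnalyticAt L q (e₀, 0))
    (hP0 : P (e₀, 0) ≠ 0) (hq0 : q (e₀, 0) ≠ 0) {δ : ℝ} (hδ : 0 < δ) :
    ∃ δ' : ℝ, 0 < δ' ∧ ∀ e : E, ‖e - e₀‖ < δ' → ∀ t : L, ‖t‖ < δ' →
      ∃ y : L, ‖y‖ < δ ∧ q (e, y) ≠ 0 ∧ t * q (e, y) = y * P (e, y) := by
  let G : E × L × L → E × L × L := fun e => (e.1, e.2.1, e.2.2 * P (e.1, e.2.2) -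
    e.2.1 * q (e.1, e.2.2))
  let e₁ : E × L × L := (e₀, 0, 0)
  let l1 : (E × L × L) →L[L] E := ContinuousLinearMap.fst L E (L × L)
  let l2 : (E × L × L) →L[L] L :=
    (ContinuousLinearMap.fst L L L).comp (ContinuousLinearMap.snd L E (L × L))
  let l3 : (E × L × L) →L[L] L :=
    (ContinuousLinearMap.snd L L L).comp (ContinuousLinearMap.snd L E (L × L))
  have h1 : HasStrictFDerivAt (fun e : E × L × L => e.1) l1 e₁ := l1.hasStrictFDerivAt
  have h2 : HasStrictFDerivAt (fun e : E × L × L => e.2.1) l2 e₁ := l2.hasStrictFDerivAt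
  have h3 : HasStrictFDerivAt (fun e : E × L × L => e.2.2) l3 e₁ := l3.hasStrictFDerivAt
  have hpr : AnalyticAt L (fun e : E × L × L => (e.1, e.2.2)) e₁ :=
    (l1.prod l3).analyticAt e₁
  have hP' : AnalyticAt L (fun e : E × L × L => P (e.1, e.2.2)) e₁ :=
    AnalyticAt.comp' (f := fun e : E × L × L => (e.1, e.2.2)) (g := P) hP hpr
  have hq' : AnalyticAt L (fun e : E × L × L => q (e.1, e.2.2)) e₁ :=
    AnalyticAt.comp' (f := fun e : E × L × L => (e.1, e.2.2)) (g := q) hq hpr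
  let G' : (E × L × L) →L[L] (E × L × L) :=
    l1.prod (l2.prod (P (e₀, 0) • l3 - q (e₀, 0) • l2))
  have hG'a : ∀ e, G' e = (e.1, e.2.1, P (e₀, 0) * e.2.2 - q (e₀, 0) * e.2.1) := fun e => rfl
  have hG : HasStrictFDerivAt G G' e₁ := by
    have k1 := h1.prodMk (h2.prodMk ((h3.mul hP'.hasStrictFDerivAt).sub
      (h2.mul hq'.hasStrictFDerivAt)))
    refine k1.congr_fderiv (ContinuousLinearMap.ext fun e => ?_)
    rw [hG'a]
    simp only [ContinuousLinearMap.prod_apply, ContinuousLinearMap.add_apply,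
      ContinuousLinearMap.sub_apply, ContinuousLinearMap.smul_apply,
      ContinuousLinearMap.comp_apply, ContinuousLinearMap.coe_fst', ContinuousLinearMap.coe_snd',
      smul_eq_mul, zero_mul, e₁, l1, l2, l3, zero_add, add_zero]
  have hsurj : G'.range = ⊤ := by
    rw [LinearMap.range_eq_top]
    rintro ⟨a, b, c⟩
    refine ⟨(a, b, (c + q (e₀, 0) * b) / P (e₀, 0)), ?_⟩
    change G' _ = _
    rw [hG'a]
    refine Prod.ext rfl (Prod.ext rfl ?_)
    dsimp only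
    field_simp
    ring
  have hmap := hG.map_nhds_eq_of_surj hsurj
  have hG0 : G e₁ = (e₀, 0, 0) := by
    refine Prod.ext rfl (Prod.ext rfl ?_)
    change (0 : L) * _ - 0 * _ = 0
    ring
  have hev : ∀ᶠ e in 𝓝 e₁, ‖e.2.2‖ < δ ∧ q (e.1, e.2.2) ≠ 0 := by
    have c1 : ContinuousAt (fun e : E × L × L => ‖e.2.2‖) e₁ := by fun_prop
    exact (c1.eventually_lt_const (u := δ) (by simpa [e₁] using hδ)).and
      (hq'.continuousAt.eventually_ne hq0)
  have him : G '' {e | ‖e.2.2‖ < δ ∧ q (e.1, e.2.2) ≠ 0} ∈ 𝓝 (G e₁) := by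
    rw [← hmap]
    exact image_mem_map hev
  rw [hG0] at him
  obtain ⟨δ', hδ', hb⟩ := Metric.mem_nhds_iff.1 him
  refine ⟨δ', hδ', fun e he t ht => ?_⟩
  have hmem : ((e, t, 0) : E × L × L) ∈ Metric.ball ((e₀, 0, 0) : E × L × L) δ' := by
    rw [Metric.mem_ball, Prod.dist_eq, Prod.dist_eq]
    refine max_lt ?_ (max_lt ?_ ?_)
    · rw [dist_eq_norm]; exact he
    · rw [dist_eq_norm, sub_zero]; exact ht
    · rw [dist_self]; exact hδ'
  obtain ⟨⟨e', t', y⟩, ⟨k1, k2⟩, k4⟩ := hb hmem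
  dsimp only at k1 k2
  have e1 : e' = e := congrArg Prod.fst k4
  have e2 : t' = t := congrArg (fun z => z.2.1) k4
  subst e1 e2
  have e3 := congrArg (fun z => z.2.2) k4
  dsimp only [G] at e3
  exact ⟨y, k1, k2, by linear_combination -e3⟩

end loc

section glob

variable {K : Type*} [Field K] [CharZero K] {V : Type*} [Finite V] {L : V → Type*}
  [∀ v, NontriviallyNormedField (L v)] [∀ v, CompleteSpace (L v)] [∀ v, CharZero (L v)]
  {s : ∀ v, K →+* L v}

/-- monotonicity -/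
lemma Mv.mono {ι : Type*} {Q Q' : (ι → K) → K → Prop} {θ₀ : ∀ v, ι → L v}
    (h : Mv s Q θ₀) (hQ : ∀ θ u, Q θ u → Q' θ u) : Mv s Q' θ₀ := by
  obtain ⟨δ, hδ, h⟩ := h
  refine ⟨δ, hδ, fun θ hθ t ht η hη => ?_⟩
  obtain ⟨u, h1, h2⟩ := h θ hθ t ht η hη
  exact ⟨u, hQ θ u h1, h2⟩

/-- **Pulling back moves.** -/
theorem pull {ι ι' : Type*} [Fintype ι] [Fintype ι'] [Nonempty V]
    {Q : (ι → K) → K → Prop} {Q' : (ι' → K) → K → Prop}
    (φK : (ι → K) → ι' → K) (φL : ∀ v, (ι → L v) → ι' → L v)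
    (hφ : ∀ v θ k, s v (φK θ k) = φL v (fun i => s v (θ i)) k)
    (PK qK : (ι → K) → K → K) (PL qL : ∀ v, (ι → L v) × L v → L v)
    (hP : ∀ v θ y, s v (PK θ y) = PL v (fun i => s v (θ i), s v y))
    (hq : ∀ v θ y, s v (qK θ y) = qL v (fun i => s v (θ i), s v y))
    {θ₀ : ∀ v, ι → L v} (cφ : ∀ v k, ContinuousAt (fun θ => φL v θ k) (θ₀ v))
    (aP : ∀ v e, AnalyticAt (L v) (PL v) e) (aq : ∀ v e, AnalyticAt (L v) (qL v) e)
    (P0 : ∀ v, PL v (θ₀ v, 0) ≠ 0) (q0 : ∀ v, qL v (θ₀ v, 0) ≠ 0)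
    (hQ : ∀ θ y, qK θ y ≠ 0 → Q' (φK θ) y → Q θ (y * PK θ y / qK θ y))
    (h : Mv s Q' (fun v => φL v (θ₀ v))) : Mv s Q θ₀ := by
  obtain ⟨δ', hδ', hmv⟩ := h
  have c1 : ∀ v, ∃ ρ : ℝ, 0 < ρ ∧ ∀ θ : ι → L v, (∀ k, ‖θ k - θ₀ v k‖ < ρ) →
      ∀ k, ‖φL v θ k - φL v (θ₀ v) k‖ < δ' := by
    intro v
    have h1 : ∀ᶠ θ in 𝓝 (θ₀ v), ∀ k, ‖φL v θ k - φL v (θ₀ v) k‖ < δ' := by
      rw [eventually_all]
      intro k
      exact (((cφ v k).sub continuousAt_const).norm).eventually_lt_const (by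
        dsimp only; rw [Pi.sub_apply, sub_self, norm_zero]; exact hδ')
    obtain ⟨ρ, hρ, hb⟩ := Metric.eventually_nhds_iff_ball.1 h1
    refine ⟨ρ, hρ, fun θ hθ => hb θ ?_⟩
    rw [Metric.mem_ball, dist_pi_lt_iff hρ]
    intro k
    rw [dist_eq_norm]
    exact hθ k
  choose ρ₁ hρ₁ h₁ using c1
  choose ρ₂ hρ₂ h₂ using fun v => pull_fill (aP v (θ₀ v, 0)) (aq v (θ₀ v, 0)) (P0 v) (q0 v) hδ'
  obtain ⟨δ₁, hδ₁, hm₁⟩ := fin_min hρ₁
  obtain ⟨δ₂, hδ₂, hm₂⟩ := fin_min hρ₂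
  refine ⟨min δ₁ δ₂, lt_min hδ₁ hδ₂, fun θ hθ t ht η hη => ?_⟩
  choose y g1 g2 g3 using fun v => h₂ v (fun k => s v (θ k)) (by
    rw [pi_norm_lt_iff (hρ₂ v)]
    intro k
    exact (hθ v k).trans_le ((min_le_right _ _).trans (hm₂ v))) (t v)
    ((ht v).trans_le ((min_le_right _ _).trans (hm₂ v)))
  have c2 : ∀ v, ∃ ρ : ℝ, 0 < ρ ∧ ∀ y' : L v, ‖y' - y v‖ < ρ →
      qL v (fun k => s v (θ k), y') ≠ 0 ∧
      ‖y' * PL v (fun k => s v (θ k), y') / qL v (fun k => s v (θ k), y') - t v‖ < η := by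
    intro v
    have hemb : ContinuousAt (fun y' : L v => ((fun k => s v (θ k)), y')) (y v) := by fun_prop
    have d1 : ContinuousAt (fun y' : L v => PL v (fun k => s v (θ k), y')) (y v) :=
      ContinuousAt.comp (f := fun y' : L v => ((fun k => s v (θ k)), y')) (g := PL v)
        (aP v _).continuousAt hemb
    have d2 : ContinuousAt (fun y' : L v => qL v (fun k => s v (θ k), y')) (y v) :=
      ContinuousAt.comp (f := fun y' : L v => ((fun k => s v (θ k)), y')) (g := qL v)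
        (aq v _).continuousAt hemb
    have d3 := (((continuousAt_id.mul d1).div d2 (g2 v)).sub
      (continuousAt_const (y := t v))).norm
    obtain ⟨ρ, hρ, hb⟩ := Metric.eventually_nhds_iff_ball.1
      ((d2.eventually_ne (g2 v)).and (d3.eventually_lt_const (u := η) (by
        have : y v * PL v (fun k => s v (θ k), y v) / qL v (fun k => s v (θ k), y v) = t v := by
          rw [← g3 v, mul_div_cancel_right₀ _ (g2 v)]
        change ‖y v * PL v (fun k => s v (θ k), y v) / qL v (fun k => s v (θ k), y v) - t v‖ < η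
        rw [this, sub_self, norm_zero]
        exact hη)))
    refine ⟨ρ, hρ, fun y' hy' => hb y' ?_⟩
    rw [Metric.mem_ball, dist_eq_norm]
    exact hy'
  choose ρ₃ hρ₃ h₃ using c2
  obtain ⟨δ₃, hδ₃, hm₃⟩ := fin_min hρ₃
  obtain ⟨u, hu1, hu2⟩ := hmv (φK θ) (fun v k => by
    rw [hφ]
    exact h₁ v _ (fun k => (hθ v k).trans_le ((min_le_left _ _).trans (hm₁ v))) k) y g1 δ₃ hδ₃
  have hk := fun v => h₃ v (s v u) ((hu2 v).trans_le (hm₃ v))
  obtain ⟨v₀⟩ := ‹Nonempty V›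
  have hqu : qK θ u ≠ 0 := by
    intro h0
    apply (hk v₀).1
    rw [← hq, h0, map_zero]
  refine ⟨u * PK θ u / qK θ u, hQ θ u hqu hu1, fun v => ?_⟩
  rw [map_div₀, map_mul, hP, hq]
  exact (hk v).2

/-- good values of a parameter -/
lemma exists_good (P : ∀ v, Polynomial (L v)) (hP : ∀ v, P v ≠ 0) :
    ∃ σ : K, σ ≠ 0 ∧ ∀ v, (P v).eval (s v σ) ≠ 0 := by
  classical
  have : Fintype V := Fintype.ofFinite V
  have : Infinite K := CharZero.infinite K
  have hfin : ({0} ∪ ⋃ v, {x : K | (P v).eval (s v x) = 0}).Finite := by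
    refine (Set.finite_singleton 0).union (Set.finite_iUnion fun v => ?_)
    refine Set.Finite.preimage (f := s v) (Set.injOn_of_injective (s v).injective)
      (s := {x | (P v).eval x = 0}) ?_
    refine (P v).roots.toFinset.finite_toSet.subset fun x hx => ?_
    rw [Finset.mem_coe, Multiset.mem_toFinset, Polynomial.mem_roots (hP v)]
    exact hx
  obtain ⟨σ, hσ⟩ := hfin.infinite_compl.nonempty
  rw [Set.mem_compl_iff, Set.mem_union, not_or] at hσ
  refine ⟨σ, fun h => hσ.1 (by rw [h]; rfl), fun v h => hσ.2 ?_⟩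
  exact Set.mem_iUnion.2 ⟨v, h⟩

end glob

end Pool.Agent.H436.CB
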