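import Pool.Agent.H436.CB.Cond
import Pool.Graph.R_seed8.Y718.Den

/-!
# The moves at the real place alone (helper436)
-/

set_option autoImplicit false
set_option linter.unusedVariables false
set_option linter.unusedSectionVars false
set_option linter.deprecated false
set_option linter.unusedSimpArgs false

open Filter Topology Pool.Agent.Y720.MZ

namespace Pool.Agent.H436.CB

section core

variable {K : Type*} [Field K] [CharZero K] {V : Type*} [Finite V] {L : V → Type*}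
  [∀ v, NontriviallyNormedField (L v)] [∀ v, CompleteSpace (L v)] [∀ v, CharZero (L v)]
  {s : ∀ v, K →+* L v}

/-- moves for given parameters, from the density of the rational points of the curve -/
theorem mv_core [Nonempty V] {π₀ : ∀ v, Fin 9 → L v} (hA : ∀ v, π₀ v 1 ≠ 0)
    (hτ : ∀ v, π₀ v 0 ≠ 0) {δ₁ : ℝ} (hδ₁ : 0 < δ₁) :
    ∃ δ : ℝ, 0 < δ ∧ ∀ π : Fin 9 → K, (∀ v k, ‖s v (π k) - π₀ v k‖ < δ) →
      (∀ x Y : ∀ v, L v, (∀ v, ‖x v‖ < δ₁) → (∀ v, ‖Y v - π₀ v 1‖ < δ₁) →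
        (∀ v, Y v ^ 2 = s v (π 1) ^ 2 + cc (fun k => s v (π k)) * x v ^ 2 +
          cd (fun k => s v (π k)) * x v ^ 3 + ce (fun k => s v (π k)) * x v ^ 4) →
        ∀ η : ℝ, 0 < η → ∃ X Z : K, Z ^ 2 = π 1 ^ 2 + cc π * X ^ 2 + cd π * X ^ 3 + ce π * X ^ 4 ∧
          ∀ v, ‖s v X - x v‖ < η ∧ ‖s v Z - Y v‖ < η) →
      ∀ t : ∀ v, L v, (∀ v, ‖t v‖ < δ) → ∀ η : ℝ, 0 < η →
      ∃ u R S : K, R ^ 2 - π 1 * S ^ 2 = pv π u ∧ ∀ v, ‖s v u - t v‖ < η := by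
  choose δl hδl hl using fun v => loc_fill (hA v) (hτ v) hδ₁
  obtain ⟨δ₃, hδ₃, hm₃⟩ := fin_min hδl
  obtain ⟨δ₄, hδ₄, hm₄⟩ := fin_min (f := fun v : V => ‖π₀ v 1‖) fun v => norm_pos_iff.2 (hA v)
  refine ⟨min δ₃ δ₄, lt_min hδ₃ hδ₄, fun π hπ hW t ht η hη => ?_⟩
  have hA' : ∀ v, s v (π 1) ≠ 0 := by
    intro v h0
    have h1 := (hπ v 1).trans_le ((min_le_right _ _).trans (hm₄ v))
    rw [h0, zero_sub, norm_neg] at h1
    exact lt_irrefl _ h1
  choose t' h0 h1 h2 using fun v => near_ne (t v) (ht v) (half_pos hη)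
  choose x Y g1 g2 g3 g4 g5 using fun v => hl v (fun k => s v (π k))
    (fun k => (hπ v k).trans_le ((min_le_left _ _).trans (hm₃ v))) (t' v)
    ((h1 v).trans_le ((min_le_left _ _).trans (hm₃ v)))
  have hx : ∀ v, x v ≠ 0 := by
    intro v hx0
    refine mul_ne_zero (h0 v) (g4 v) ?_
    rw [g5 v, hx0]
    ring
  choose δn hδn hn using fun v => new_cont (π := fun k => s v (π k)) (hA' v) (hx v) (g4 v) (g5 v)
    (half_pos hη)
  obtain ⟨η₁, hη₁, hmη⟩ := fin_min hδn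
  obtain ⟨X, Z, k1, k2⟩ := hW x Y g1 g2 g3 η₁ hη₁
  have hq : ∀ v, _ := fun v => hn v (s v X) (s v Z) ((k2 v).1.trans_le (hmη v))
    ((k2 v).2.trans_le (hmη v))
  obtain ⟨v₀⟩ := ‹Nonempty V›
  have hX : X ≠ 0 := by
    intro h
    apply (hq v₀).1
    rw [h, map_zero]
  have h8 : C8 π X Z ≠ 0 := by
    intro h
    apply (hq v₀).2.1
    rw [← C8_map, h, map_zero]
  have hπ1 : π 1 ≠ 0 := (map_ne_zero (s v₀)).1 (hA' v₀)
  obtain ⟨R, S, hRS⟩ := new_pt hπ1 hX k1 h8 rfl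
  refine ⟨π 0 * (-(X * C7 π X Z / C8 π X Z)), R, S, ?_, fun v => ?_⟩
  · rw [hRS]
    simp only [fk, pv]
    simp only [Fin.isValue, show ((2 : Fin 9) : ℕ) = 2 from rfl,
      show ((3 : Fin 9) : ℕ) = 3 from rfl, show ((4 : Fin 9) : ℕ) = 4 from rfl,
      show ((5 : Fin 9) : ℕ) = 5 from rfl, show ((6 : Fin 9) : ℕ) = 6 from rfl,
      show ((7 : Fin 9) : ℕ) = 7 from rfl, show ((8 : Fin 9) : ℕ) = 8 from rfl]
    ring
  · have e1 : s v (π 0 * (-(X * C7 π X Z / C8 π X Z))) = (fun k => s v (π k)) 0 *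
        (-(s v X * C7 (fun k => s v (π k)) (s v X) (s v Z) /
          C8 (fun k => s v (π k)) (s v X) (s v Z))) := by
      simp only [map_mul, map_neg, map_div₀, C7_map, C8_map]
    rw [e1]
    have h3 := (hq v).2.2
    have h4 := h2 v
    have h5 := norm_sub_le_norm_sub_add_norm_sub ((fun k => s v (π k)) 0 *
        (-(s v X * C7 (fun k => s v (π k)) (s v X) (s v Z) /
          C8 (fun k => s v (π k)) (s v X) (s v Z)))) (t' v) (t v)
    linarith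

end core

section real

open Polynomial in
/-- the quartic polynomial -/
noncomputable def qp (π : Fin 9 → ℚ) : ℚ[X] :=
  C (π 1 ^ 2) + C (cc π) * X ^ 2 + C (cd π) * X ^ 3 + C (ce π) * X ^ 4

lemma qp_eval (π : Fin 9 → ℚ) (x : ℚ) :
    (qp π).eval x = π 1 ^ 2 + cc π * x ^ 2 + cd π * x ^ 3 + ce π * x ^ 4 := by
  simp [qp]

lemma qp_aeval (π : Fin 9 → ℚ) (x : ℝ) : Polynomial.aeval x (qp π) =
    ((π 1 : ℚ) : ℝ) ^ 2 + cc (fun k => ((π k : ℚ) : ℝ)) * x ^ 2 +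
      cd (fun k => ((π k : ℚ) : ℝ)) * x ^ 3 + ce (fun k => ((π k : ℚ) : ℝ)) * x ^ 4 := by
  have h1 := cc_map (Rat.castHom ℝ) π
  have h2 := cd_map (Rat.castHom ℝ) π
  have h3 := ce_map (Rat.castHom ℝ) π
  simp only [eq_ratCast] at h1 h2 h3
  rw [← h1, ← h2, ← h3, qp]
  simp

lemma qp_deg (π : Fin 9 → ℚ) : (qp π).natDegree ≤ 4 := by
  unfold qp
  compute_degree

/-- infinitely many rational points -/
lemma inf_pts {n : Fin 9 → ℚ} (hA : n 1 ≠ 0) (h3 : n 3 ≠ 0) (τr : ℝ) {ε : ℝ} (hε : 0 < ε) :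
    ∃ τ : ℚ, |(τ : ℝ) - τr| < ε ∧
      (Pool.Agent.Y718.Sq (qp (Function.update n 0 τ))).Infinite := by
  have : Fact (Nat.Prime 2) := ⟨Nat.prime_two⟩
  let p : Unit → ℕ := fun _ => 2
  have : ∀ i, Fact (p i).Prime := fun _ => ⟨Nat.prime_two⟩
  have hinj : Function.Injective p := fun a b _ => Subsingleton.elim a b
  let σ : ∀ i : Unit, ℚ →+* ℚ_[p i] := fun _ => Rat.castHom _
  obtain ⟨τp, hτp, hIO⟩ := io_gen (n := fun k => σ () (n k)) ((map_ne_zero (σ ())).2 hA)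
    ((map_ne_zero (σ ())).2 h3)
  have hA2 : (Function.update (fun k => σ () (n k)) 0 τp) 1 = σ () (n 1) :=
    Function.update_of_ne (by decide) _ _
  obtain ⟨δ₁, hδ₁, hW⟩ := hw_p hinj σ
    (fun _ => th8 (Function.update (fun k => σ () (n k)) 0 τp)) (fun _ => by
      change Function.update (fun k => σ () (n k)) 0 τp 1 ≠ 0
      rw [hA2]
      exact (map_ne_zero (σ ())).2 hA) (fun _ => hIO)
  obtain ⟨δc, hδc, hc⟩ := th8_cont (Function.update (fun k => σ () (n k)) 0 τp) hδ₁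
  obtain ⟨τ, hτ⟩ := dn_all hinj σ (Rat.castHom ℝ) (fun v => match v with
    | none => τr
    | some _ => τp) (min ε δc) (lt_min hε hδc)
  refine ⟨τ, ?_, ?_⟩
  · have := hτ none
    change ‖((τ : ℚ) : ℝ) - τr‖ < _ at this
    rw [Real.norm_eq_abs] at this
    exact this.trans_le (min_le_left _ _)
  have hτ2 : ‖σ () τ - τp‖ < δc := by
    have := hτ (some ())
    exact this.trans_le (min_le_right _ _)
  intro hfin
  obtain ⟨π, hπd⟩ : ∃ π, π = Function.update n 0 τ := ⟨_, rfl⟩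
  rw [← hπd] at hfin
  have hπk : ∀ k, ‖(σ () (π k)) - (Function.update (fun k => σ () (n k)) 0 τp) k‖ < δc := by
    intro k
    rw [hπd]
    by_cases hk : k = 0
    · subst hk
      rw [Function.update_self, Function.update_self]
      exact hτ2
    · rw [Function.update_of_ne hk, Function.update_of_ne hk, sub_self, norm_zero]
      exact hδc
  have hπ1 : π 1 = n 1 := by rw [hπd]; exact Function.update_of_ne (by decide) _ _
  obtain ⟨hc1, hc2⟩ := hc _ hπk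
  -- square roots close to the base point
  obtain ⟨δs, hδs, hs⟩ := exists_sqrt (w := σ () (π 1)) (by
    rw [hπ1]; exact (map_ne_zero (σ ())).2 hA) hδ₁
  have hcont : ContinuousAt (fun x : ℚ_[2] => ‖(σ () (π 1) ^ 2 + cc (fun k => σ () (π k)) * x ^ 2 +
      cd (fun k => σ () (π k)) * x ^ 3 + ce (fun k => σ () (π k)) * x ^ 4) -
        σ () (π 1) ^ 2‖) 0 := by fun_prop
  have hev : ∀ᶠ x : ℚ_[2] in 𝓝 0, ‖x‖ < δ₁ ∧
      ‖(σ () (π 1) ^ 2 + cc (fun k => σ () (π k)) * x ^ 2 +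
      cd (fun k => σ () (π k)) * x ^ 3 + ce (fun k => σ () (π k)) * x ^ 4) -
        σ () (π 1) ^ 2‖ < δs := by
    refine Filter.Eventually.and ?_ (hcont.eventually_lt_const (u := δs) (by simpa using hδs))
    have : ContinuousAt (fun x : ℚ_[2] => ‖x‖) 0 := by fun_prop
    exact this.eventually_lt_const (by simpa using hδ₁)
  -- a local point away from the finitely many rational points
  have hfin2 : ((fun t : ℚ => σ () t) '' (Pool.Agent.Y718.Sq (qp π))).Finite := hfin.image _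
  have hne : (𝓝[≠] (0 : ℚ_[2])).NeBot := inferInstance
  have hev2 : ∀ᶠ x : ℚ_[2] in 𝓝[≠] 0, x ∉ ((fun t : ℚ => σ () t) '' (Pool.Agent.Y718.Sq (qp π))) := by
    have h1 : ((fun t : ℚ => σ () t) '' (Pool.Agent.Y718.Sq (qp π)) \ {0}).Finite :=
      hfin2.subset Set.diff_subset
    have h2 : ((fun t : ℚ => σ () t) '' (Pool.Agent.Y718.Sq (qp π)) \ {0})ᶜ ∈ 𝓝 (0 : ℚ_[2]) :=
      h1.isClosed.isOpen_compl.mem_nhds (by simp)
    rw [eventually_nhdsWithin_iff]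
    filter_upwards [h2] with x hx hx0 hx1
    exact hx ⟨hx1, hx0⟩
  obtain ⟨x, hx1, hx2, hx3⟩ := (hev2.and (hev.filter_mono nhdsWithin_le_nhds)).exists
  obtain ⟨Y, hY1, hY2⟩ := hs _ hx3
  -- the distance to the rational points
  have hcl : ((fun t : ℚ => σ () t) '' (Pool.Agent.Y718.Sq (qp π)))ᶜ ∈ 𝓝 x :=
    hfin2.isClosed.isOpen_compl.mem_nhds hx1
  obtain ⟨η, hη, hball⟩ := Metric.mem_nhds_iff.1 hcl
  obtain ⟨u, Z, hu1, hu2⟩ := hW (th8 π) (fun _ => by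
      have := hc1
      exact this) (fun _ j => by
      rw [th8_map]
      exact hc2 j) (fun _ => x) (fun _ => Y) (fun _ => hx2) (fun _ => by
      change ‖Y - Function.update (fun k => σ () (n k)) 0 τp 1‖ < δ₁
      rw [hA2, ← hπ1]
      exact hY1) (fun _ => by
      rw [hY2]
      have e : (fun j => σ () ((th8 π).2 j)) = (th8 (fun k => σ () (π k))).2 := by
        funext j
        exact th8_map (σ ()) π j
      change _ = qv (σ () (th8 π).1) (fun j => σ () ((th8 π).2 j)) x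
      rw [e]
      change _ = (σ () (π 1)) ^ 2 + 0 * x + cc (fun k => σ () (π k)) * x ^ 2 +
        cd (fun k => σ () (π k)) * x ^ 3 + ce (fun k => σ () (π k)) * x ^ 4
      ring) η hη
  have hmem := hball (show σ () u ∈ Metric.ball x η by
    rw [Metric.mem_ball, dist_eq_norm]
    exact (hu2 ()).1)
  apply hmem
  refine ⟨u, ⟨Z, ?_⟩, rfl⟩
  rw [qp_eval, hu1]
  change π 1 ^ 2 + 0 * u + cc π * u ^ 2 + cd π * u ^ 3 + ce π * u ^ 4 = _
  ring

/-- square roots of nearby numbers with the right sign -/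
lemma sign_near {Y Z : ℝ} (hY : Y ≠ 0) : ∃ Z' : ℝ, (Z' = Z ∨ Z' = -Z) ∧
    |Z' - Y| ≤ |Z ^ 2 - Y ^ 2| / |Y| := by
  have hY' : 0 < |Y| := abs_pos.2 hY
  rcases le_total 0 (Z * Y) with h | h
  · refine ⟨Z, Or.inl rfl, ?_⟩
    rw [le_div_iff₀ hY']
    have h1 : |Y| ≤ |Z + Y| := by
      rw [← sq_le_sq]
      nlinarith [sq_nonneg Z]
    calc |Z - Y| * |Y| ≤ |Z - Y| * |Z + Y| := by gcongr
      _ = |Z ^ 2 - Y ^ 2| := by rw [← abs_mul]; congr 1; ring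
  · refine ⟨-Z, Or.inr rfl, ?_⟩
    rw [le_div_iff₀ hY']
    have h1 : |Y| ≤ |-Z + Y| := by
      rw [← sq_le_sq]
      nlinarith [sq_nonneg Z]
    calc |-Z - Y| * |Y| ≤ |-Z - Y| * |-Z + Y| := by gcongr
      _ = |Z ^ 2 - Y ^ 2| := by rw [← abs_mul]; congr 1; ring

/-- the rational points of the curve are dense close to the base point -/
lemma curve_dense {π : Fin 9 → ℚ} (hA : π 1 ≠ 0)
    (hinf : (Pool.Agent.Y718.Sq (qp π)).Infinite) {ρ : ℝ} (hρ : 0 < ρ)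
    (hpos : ∀ x : ℝ, |x| < ρ → Polynomial.aeval x (qp π) ≠ 0) {x Y : ℝ} (hx : |x| < ρ)
    (hY : Y ^ 2 = Polynomial.aeval x (qp π)) {η : ℝ} (hη : 0 < η) :
    ∃ X Z : ℚ, Z ^ 2 = (qp π).eval X ∧ |(X : ℝ) - x| < η ∧ |(Z : ℝ) - Y| < η := by
  have hY0 : Y ≠ 0 := by
    rintro rfl
    apply hpos x hx
    rw [← hY]
    norm_num
  have h1 : Metric.ball (0 : ℝ) ρ ⊆ Pool.Agent.Y718.rc (Pool.Agent.Y718.Sq (qp π)) := by
    refine Pool.Agent.Y718.den_conn (qp_deg π) hinf (x0 := 0) ?_ ?_ ?_ ?_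
    · rw [Real.ball_eq_Ioo]
      exact isPreconnected_Ioo
    · intro x hx
      apply hpos
      rwa [Metric.mem_ball, Real.dist_eq, sub_zero] at hx
    · exact Metric.mem_ball_self hρ
    · have : ((0 : ℚ) : ℝ) ∈ Pool.Agent.Y718.rc (Pool.Agent.Y718.Sq (qp π)) :=
        Pool.Agent.Y718.mem_rc ⟨π 1, by rw [qp_eval]; ring⟩
      simpa using this
  have h2 : x ∈ Pool.Agent.Y718.rc (Pool.Agent.Y718.Sq (qp π)) := by
    apply h1
    rw [Metric.mem_ball, Real.dist_eq, sub_zero]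
    exact hx
  have hcont : ContinuousAt (fun x' : ℝ => |Polynomial.aeval x' (qp π) - Y ^ 2| / |Y|) x := by
    have : Continuous fun x' : ℝ => Polynomial.aeval x' (qp π) := Polynomial.continuous_aeval _
    fun_prop
  obtain ⟨ρ', hρ', hb⟩ := Metric.eventually_nhds_iff_ball.1
    (hcont.eventually_lt_const (u := η) (by
      dsimp only
      rw [hY, sub_self, abs_zero, zero_div]
      exact hη))
  obtain ⟨_, ⟨X, ⟨Z, hZ⟩, rfl⟩, hX⟩ := Metric.mem_closure_iff.1 h2 (min η ρ') (lt_min hη hρ')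
  dsimp only at hX
  rw [dist_comm, Real.dist_eq] at hX
  have h3 := hb (X : ℝ) (by
    rw [Metric.mem_ball, Real.dist_eq]
    exact hX.trans_le (min_le_right _ _))
  rw [Pool.Agent.Y718.aeval_cast, ← hZ] at h3
  push_cast at h3
  obtain ⟨Z', hZ', hd⟩ := sign_near (Y := Y) (Z := (Z : ℝ)) hY0
  rcases hZ' with rfl | rfl
  · exact ⟨X, Z, hZ, hX.trans_le (min_le_left _ _), hd.trans_lt h3⟩
  · refine ⟨X, -Z, by rw [neg_sq]; exact hZ, hX.trans_le (min_le_left _ _), ?_⟩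
    push_cast
    exact hd.trans_lt h3

/-- the real embedding of the rational numbers -/
noncomputable def sR : ∀ _ : Unit, ℚ →+* ℝ := fun _ => Rat.castHom ℝ

lemma dn_sR : Dn sR := by
  intro m η hη
  obtain ⟨q, h1, h2⟩ := exists_rat_btwn (show m () < m () + η by linarith)
  refine ⟨q, fun _ => ?_⟩
  change ‖((q : ℚ) : ℝ) - m ()‖ < η
  rw [Real.norm_eq_abs, abs_lt]
  constructor <;> linarith

/-- **The moves at the real place.** -/
theorem M8_real : M8 sR := by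
  intro g₀ hA h0 h3
  have h3' : nk (g₀ ()) 3 ≠ 0 := by
    intro h
    apply h3 ()
    rw [← nk_three (h0 ()), h, zero_mul]
  obtain ⟨π₀, hπ₀⟩ : ∃ π₀ : Fin 9 → ℝ, π₀ = Function.update (nk (g₀ ())) 0 1 := ⟨_, rfl⟩
  have hπ1 : π₀ 1 ≠ 0 := by
    rw [hπ₀, Function.update_of_ne (by decide), nk_one]
    exact hA ()
  have hπ00 : π₀ 0 ≠ 0 := by
    rw [hπ₀, Function.update_self]
    exact one_ne_zero
  -- positivity of the quartic close to the base point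
  have hcont : Continuous (fun e : (Fin 9 → ℝ) × ℝ => e.1 1 ^ 2 + cc e.1 * e.2 ^ 2 +
      cd e.1 * e.2 ^ 3 + ce e.1 * e.2 ^ 4) := by
    unfold cc cd ce ρ2 fk
    fun_prop
  have hev : ∀ᶠ e in 𝓝 ((π₀, 0) : (Fin 9 → ℝ) × ℝ), e.1 1 ^ 2 + cc e.1 * e.2 ^ 2 +
      cd e.1 * e.2 ^ 3 + ce e.1 * e.2 ^ 4 ≠ 0 := by
    refine hcont.continuousAt.eventually_ne ?_
    have : π₀ 1 ^ 2 + cc π₀ * 0 ^ 2 + cd π₀ * 0 ^ 3 + ce π₀ * 0 ^ 4 = π₀ 1 ^ 2 := by ring
    change π₀ 1 ^ 2 + cc π₀ * 0 ^ 2 + cd π₀ * 0 ^ 3 + ce π₀ * 0 ^ 4 ≠ 0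
    rw [this]
    exact pow_ne_zero 2 hπ1
  obtain ⟨ρ, hρ, hρb⟩ := Metric.eventually_nhds_iff_ball.1 hev
  obtain ⟨δ₁, hδ₁, hmv⟩ := mv_core (s := sR) (π₀ := fun _ => π₀) (fun _ => hπ1) (fun _ => hπ00) hρ
  obtain ⟨δ₀, hδ₀, hδ₀le⟩ : ∃ δ₀ : ℝ, 0 < δ₀ ∧ δ₀ ≤ δ₁ ∧ δ₀ ≤ ρ ∧ δ₀ ≤ |nk (g₀ ()) 3| :=
    ⟨min δ₁ (min ρ |nk (g₀ ()) 3|), lt_min hδ₁ (lt_min hρ (abs_pos.2 h3')), min_le_left _ _,
      (min_le_right _ _).trans (min_le_left _ _), (min_le_right _ _).trans (min_le_right _ _)⟩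
  obtain ⟨δn, hδn, hn⟩ := norm_unif (h0 ()) hδ₀
  obtain ⟨δ₄, hδ₄, hm₄⟩ : ∃ δ₄ : ℝ, 0 < δ₄ ∧ δ₄ ≤ |g₀ () 9| := ⟨_, abs_pos.2 (hA ()), le_rfl⟩
  refine ⟨min δn δ₄, lt_min hδn hδ₄, fun g hg t ht η hη => ?_⟩
  obtain ⟨j1, j2, j3, j4⟩ := hn (fun k => ((g k : ℚ) : ℝ)) (t ())
    (fun k => (hg () k).trans_le (min_le_left _ _)) ((ht ()).trans_le (min_le_left _ _))
  obtain ⟨δm, hδm, hmc⟩ := mob_cont j3 hη
  have hg0 : g 0 ≠ 0 := by
    intro h
    apply j1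
    rw [h, Rat.cast_zero]
  have hg9 : g 9 ≠ 0 := by
    intro h
    have h1 := (hg () 9).trans_le ((min_le_right _ _).trans hm₄)
    change ‖((g 9 : ℚ) : ℝ) - g₀ () 9‖ < _ at h1
    rw [h, Rat.cast_zero, zero_sub, norm_neg, Real.norm_eq_abs] at h1
    exact lt_irrefl _ h1
  have hnkc : ∀ k, ((nk g k : ℚ) : ℝ) = nk (fun k => ((g k : ℚ) : ℝ)) k := fun k =>
    nk_map (Rat.castHom ℝ) g k
  have hg3 : nk g 3 ≠ 0 := by
    intro h
    have h1 := (j2 3).trans_le hδ₀le.2.2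
    rw [← hnkc, h, Rat.cast_zero, zero_sub, norm_neg, Real.norm_eq_abs] at h1
    exact lt_irrefl _ h1
  obtain ⟨τ, hτ1, hτ2⟩ := inf_pts (n := nk g) (by rw [nk_one]; exact hg9) hg3 1 hδ₀
  obtain ⟨π, hπ⟩ : ∃ π, π = Function.update (nk g) 0 τ := ⟨_, rfl⟩
  rw [← hπ] at hτ2
  have hnear : ∀ k, |((π k : ℚ) : ℝ) - π₀ k| < δ₀ := by
    intro k
    rw [hπ, hπ₀]
    by_cases hk : k = 0
    · subst hk
      rw [Function.update_self, Function.update_self]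
      exact hτ1
    · rw [Function.update_of_ne hk, Function.update_of_ne hk, hnkc]
      exact j2 k
  have hπA : π 1 ≠ 0 := by
    rw [hπ, Function.update_of_ne (by decide), nk_one]
    exact hg9
  obtain ⟨u, R, S, k1, k2⟩ := hmv π (fun _ k => (hnear k).trans_le hδ₀le.1) (by
    intro x Y hx hY hXY η' hη'
    have hpos : ∀ x : ℝ, |x| < ρ → Polynomial.aeval x (qp π) ≠ 0 := by
      intro x hx
      rw [qp_aeval]
      refine hρb ((fun k => ((π k : ℚ) : ℝ)), x) ?_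
      rw [Metric.mem_ball, Prod.dist_eq]
      refine max_lt ?_ ?_
      · rw [dist_pi_lt_iff hρ]
        intro k
        rw [Real.dist_eq]
        exact (hnear k).trans_le hδ₀le.2.1
      · rw [Real.dist_eq, sub_zero]
        exact hx
    obtain ⟨X, Z, l1, l2, l3⟩ := curve_dense hπA hτ2 hρ hpos (x := x ()) (Y := Y ()) (hx ())
      (by rw [qp_aeval]; exact hXY ()) hη'
    refine ⟨X, Z, ?_, fun _ => ⟨l2, l3⟩⟩
    rw [l1, qp_eval])
    (fun _ => t () / (1 - nc (fun k => ((g k : ℚ) : ℝ)) * t ()))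
    (fun _ => j4.trans_le hδ₀le.1) δm hδm
  have hu := hmc ((u : ℚ) : ℝ) (k2 ())
  have hncc : ((nc g : ℚ) : ℝ) = nc (fun k => ((g k : ℚ) : ℝ)) := nc_map (Rat.castHom ℝ) g
  have hcu : 1 + nc g * u ≠ 0 := by
    intro h
    apply hu.1
    rw [← hncc]
    have h5 := congrArg (fun x : ℚ => (x : ℝ)) h
    push_cast at h5
    exact h5
  rw [hπ] at k1
  refine ⟨u / (1 + nc g * u), sol_of_pv hg0 hcu k1, fun _ => ?_⟩
  have h4 := hu.2
  rw [← hncc] at h4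
  change ‖((u / (1 + nc g * u) : ℚ) : ℝ) - t ()‖ < η
  push_cast
  exact h4

end real

end Pool.Agent.H436.CB
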