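import Pool.Agent.H436.CB.Gm

/-!
# Fibre products of conic bundles: moving in the base (helper436)
-/

set_option autoImplicit false
set_option linter.unusedVariables false
set_option linter.unusedSectionVars false
set_option linter.deprecated false
set_option linter.unusedSimpArgs false

open Filter Topology Pool.Agent.Y720.MZ

namespace Pool.Agent.H436.CB

universe u w

section comb

variable {I : Type*} [Fintype I]

/-- the degrees of the conditions in one variable: the sum of the halves, rounded up, is at most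
four, and at most three of them are positive -/
def Tame (d : I → ℕ) : Prop :=
  ∑ i, (d i + 1) / 2 ≤ 4 ∧ (Finset.univ.filter fun i => d i ≠ 0).card ≤ 3

lemma tame_cases {d : I → ℕ} (h : Tame d) :
    (∀ i, d i = 0) ∨ (∃ a, d a ≤ 8 ∧ ∀ i, i ≠ a → d i = 0) ∨
    (∃ a b, a ≠ b ∧ d a ≤ 6 ∧ d b ≤ 2 ∧ ∀ i, i ≠ a → i ≠ b → d i = 0) ∨
    (∃ a b, a ≠ b ∧ d a ≤ 4 ∧ d b ≤ 4 ∧ ∀ i, i ≠ a → i ≠ b → d i = 0) ∨
    (∃ a b c, a ≠ b ∧ a ≠ c ∧ b ≠ c ∧ d a ≤ 4 ∧ d b ≤ 2 ∧ d c ≤ 2 ∧
      ∀ i, i ≠ a → i ≠ b → i ≠ c → d i = 0) := by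
  classical
  obtain ⟨h1, h2⟩ := h
  obtain ⟨S, hS⟩ : ∃ S, S = Finset.univ.filter fun i => d i ≠ 0 := ⟨_, rfl⟩
  have hmem : ∀ i, i ∈ S ↔ d i ≠ 0 := by
    intro i
    rw [hS, Finset.mem_filter]
    simp
  have hsum : ∑ i ∈ S, (d i + 1) / 2 = ∑ i, (d i + 1) / 2 := by
    refine Finset.sum_subset (Finset.subset_univ S) fun i _ hi => ?_
    rw [hmem, not_not] at hi
    rw [hi]
    rfl
  rw [← hsum] at h1
  rw [← hS] at h2
  have h3 : S.card = 0 ∨ S.card = 1 ∨ S.card = 2 ∨ S.card = 3 := by omega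
  rcases h3 with h3 | h3 | h3 | h3
  · left
    intro i
    rw [Finset.card_eq_zero] at h3
    by_contra hi
    have := (hmem i).2 hi
    rw [h3] at this
    exact absurd this (Finset.notMem_empty i)
  · right; left
    obtain ⟨a, ha⟩ := Finset.card_eq_one.1 h3
    rw [ha, Finset.sum_singleton] at h1
    refine ⟨a, by omega, fun i hi => ?_⟩
    by_contra hcon
    have := (hmem i).2 hcon
    rw [ha, Finset.mem_singleton] at this
    exact hi this
  · right; right
    obtain ⟨a, b, hab, hs⟩ := Finset.card_eq_two.1 h3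
    rw [hs, Finset.sum_pair hab] at h1
    have ha : d a ≠ 0 := (hmem a).1 (by rw [hs]; simp)
    have hb : d b ≠ 0 := (hmem b).1 (by rw [hs]; simp)
    have hrest : ∀ i, i ≠ a → i ≠ b → d i = 0 := by
      intro i hia hib
      by_contra hcon
      have := (hmem i).2 hcon
      rw [hs, Finset.mem_insert, Finset.mem_singleton] at this
      rcases this with h | h
      · exact hia h
      · exact hib h
    by_cases h4 : d b ≤ 2
    · left
      exact ⟨a, b, hab, by omega, h4, hrest⟩
    by_cases h5 : d a ≤ 2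
    · left
      exact ⟨b, a, hab.symm, by omega, h5, fun i h6 h7 => hrest i h7 h6⟩
    · right; left
      exact ⟨a, b, hab, by omega, by omega, hrest⟩
  · right; right; right; right
    obtain ⟨a, b, c, hab, hac, hbc, hs⟩ := Finset.card_eq_three.1 h3
    rw [hs, Finset.sum_insert (by simp [hab, hac]), Finset.sum_pair hbc] at h1
    have ha : d a ≠ 0 := (hmem a).1 (by rw [hs]; simp)
    have hb : d b ≠ 0 := (hmem b).1 (by rw [hs]; simp)
    have hc : d c ≠ 0 := (hmem c).1 (by rw [hs]; simp)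
    have hrest : ∀ i, i ≠ a → i ≠ b → i ≠ c → d i = 0 := by
      intro i hia hib hic
      by_contra hcon
      have := (hmem i).2 hcon
      rw [hs, Finset.mem_insert, Finset.mem_insert, Finset.mem_singleton] at this
      rcases this with h | h | h
      · exact hia h
      · exact hib h
      · exact hic h
    by_cases h4 : d b ≤ 2
    · by_cases h5 : d c ≤ 2
      · exact ⟨a, b, c, hab, hac, hbc, by omega, h4, h5, hrest⟩
      · exact ⟨c, a, b, hac.symm, hbc.symm, hab, by omega, by omega, h4,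
          fun i h6 h7 h8 => hrest i h7 h8 h6⟩
    · exact ⟨b, a, c, hab.symm, hbc, hac, by omega, by omega, by omega,
          fun i h6 h7 h8 => hrest i h7 h6 h8⟩

end comb

section alg

variable {F : Type*} [Field F] [CharZero F] {α : Type*} [Fintype α]

/-- a constant polynomial gives a trivial condition -/
lemma So_const {a f : MvPolynomial α F} {z e : α → F} (hd : (rst f z e).natDegree ≤ 0) (u : F) :
    So a f e z u := by
  refine So_sq (hd.trans (by norm_num)) (fun h0 => ⟨1, ?_⟩) u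
  rw [one_pow, mul_one, ← Polynomial.coeff_zero_eq_eval_zero]
  exact Polynomial.eq_C_of_natDegree_le_zero hd

lemma deg0_shift [DecidableEq α] {f : MvPolynomial α F} {j : α} (h : f.degreeOf j = 0)
    (z : α → F) (u : F) :
    MvPolynomial.eval (fun i => z i + u * (Pi.single j 1 : α → F) i) f =
      MvPolynomial.eval z f := by
  have h1 := Polynomial.eq_C_of_natDegree_le_zero (deg_rst (n := 0) (by omega : f.degreeOf j ≤ 0) z)
  have h2 := rst_ev f z (Pi.single j 1) u
  have h3 := rst_ev f z (Pi.single j 1) 0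
  rw [h1, Polynomial.eval_C] at h2 h3
  rw [← h2, h3]
  simp

/-- solubility of the conic is symmetric -/
lemma hs_symm {a b : F} (ha : a ≠ 0) (hb : b ≠ 0) (h : ∃ R S : F, R ^ 2 - a * S ^ 2 = b) :
    ∃ R S : F, R ^ 2 - b * S ^ 2 = a := by
  obtain ⟨R, S, h⟩ := h
  by_cases hS : S = 0
  · have hR : R ≠ 0 := by
      rintro rfl
      apply hb
      rw [← h, hS]
      ring
    have hb' : b = R ^ 2 := by rw [← h, hS]; ring
    refine ⟨(a + 1) / 2, (a - 1) / (2 * R), ?_⟩
    rw [hb']
    field_simp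
    ring
  · refine ⟨R / S, 1 / S, ?_⟩
    field_simp
    linear_combination h

/-- multiplication by a norm -/
lemma hs_mul {a b b' : F} (h : ∃ R S : F, R ^ 2 - a * S ^ 2 = b) {R S : F}
    (h' : b * (R ^ 2 - a * S ^ 2) = b') : ∃ R S : F, R ^ 2 - a * S ^ 2 = b' := by
  obtain ⟨R₀, S₀, h⟩ := h
  refine ⟨R₀ * R + a * S₀ * S, R₀ * S + S₀ * R, ?_⟩
  rw [← h', ← h]
  ring

/-- the points of the base whose conics have rational points -/
def Pz {I : Type*} (A B : I → MvPolynomial α F) (z : α → F) : Prop :=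
  ∀ i, MvPolynomial.eval z (A i) ≠ 0 ∧ MvPolynomial.eval z (B i) ≠ 0 ∧
    ∃ R S : F, R ^ 2 - MvPolynomial.eval z (A i) * S ^ 2 = MvPolynomial.eval z (B i)

end alg

section gm

variable {K : Type u} [Field K] [CharZero K] {α : Type w} [Fintype α] [DecidableEq α]
  {I : Type*} [Fintype I]

/-- generic moves for a tame system of conditions -/
theorem tree_sys {a f : I → MvPolynomial α K} (ha : ∀ i, a i ≠ 0) (hf : ∀ i, f i ≠ 0) {j : α}
    (hT : Tame fun i => (f i).degreeOf j) :
    Gm (fun z u => ∀ i, So (a i) (f i) (Pi.single j 1) z u) := by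
  have hd : ∀ i n, (f i).degreeOf j ≤ n → ∀ z, (rst (f i) z (Pi.single j 1)).natDegree ≤ n :=
    fun i n h z => deg_rst h z
  have h0 : ∀ i, (f i).degreeOf j = 0 → ∀ z u, So (a i) (f i) (Pi.single j 1) z u :=
    fun i h z u => So_const (hd i 0 h.le z) u
  rcases tame_cases hT with h | ⟨x, h1, h⟩ | ⟨x, y, hxy, h1, h2, h⟩ | ⟨x, y, hxy, h1, h2, h⟩ |
    ⟨x, y, t, hxy, hxt, hyt, h1, h2, h3, h⟩
  · exact Gm_triv fun z u i => h0 i (h i) z u
  · refine (tree8 (ha x) (hf x) (hd x 8 h1)).mono' fun z u k i => ?_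
    by_cases hi : i = x
    · rw [hi]; exact k
    · exact h0 i (h i hi) z u
  · refine (tree62 (ha x) (hf x) (ha y) (hf y) (hd x 6 h1) (hd y 2 h2)).mono' fun z u k i => ?_
    by_cases hi : i = x
    · rw [hi]; exact k.1
    by_cases hi' : i = y
    · rw [hi']; exact k.2
    · exact h0 i (h i hi hi') z u
  · refine (tree44 (ha x) (hf x) (ha y) (hf y) (hd x 4 h1) (hd y 4 h2)).mono' fun z u k i => ?_
    by_cases hi : i = x
    · rw [hi]; exact k.1
    by_cases hi' : i = y
    · rw [hi']; exact k.2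
    · exact h0 i (h i hi hi') z u
  · refine (tree422 (ha x) (hf x) (ha y) (hf y) (ha t) (hf t) (hd x 4 h1) (hd y 2 h2)
      (hd t 2 h3)).mono' fun z u k i => ?_
    by_cases hi : i = x
    · rw [hi]; exact k.1
    by_cases hi' : i = y
    · rw [hi']; exact k.2.1
    by_cases hi'' : i = t
    · rw [hi'']; exact k.2.2
    · exact h0 i (h i hi hi' hi'') z u

end gm

section glob

variable {K : Type*} [Field K] [CharZero K] {V : Type*} [Finite V] {L : V → Type*}
  [∀ v, NontriviallyNormedField (L v)] [∀ v, CompleteSpace (L v)] [∀ v, CharZero (L v)]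
  {s : ∀ v, K →+* L v} {α : Type*} [Fintype α]

/-- moves in a direction -/
def MvD (s : ∀ v, K →+* L v) (P : (α → K) → Prop) (e : α → K) (z₀ : ∀ v, α → L v) : Prop :=
  ∃ δ : ℝ, 0 < δ ∧ ∀ z : α → K, P z → (∀ v i, ‖s v (z i) - z₀ v i‖ < δ) →
    ∀ t : ∀ v, L v, (∀ v, ‖t v‖ < δ) → ∀ η : ℝ, 0 < η →
      ∃ u : K, P (fun i => z i + u * e i) ∧ ∀ v, ‖s v u - t v‖ < η

/-- the closure is open at a point -/
def IntD (s : ∀ v, K →+* L v) (P : (α → K) → Prop) (z₀ : ∀ v, α → L v) : Prop :=
  ∃ ε : ℝ, 0 < ε ∧ ∀ z : α → K, P z → (∀ v i, ‖s v (z i) - z₀ v i‖ < ε) →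
    ∀ x : ∀ v, α → L v, (∀ v i, ‖x v i - z₀ v i‖ < ε) → ∀ η : ℝ, 0 < η →
      ∃ z' : α → K, P z' ∧ ∀ v i, ‖s v (z' i) - x v i‖ < η

/-- **Assembly.** -/
theorem int_of_mvD [Nonempty V] [DecidableEq α] {P : (α → K) → Prop} {z₀ : ∀ v, α → L v}
    (hM : ∀ j, MvD s P (Pi.single j 1) z₀) : IntD s P z₀ := by
  classical
  have claim : ∀ T : Finset α, ∃ ε : ℝ, 0 < ε ∧ ∀ z : α → K, P z →
      (∀ v i, ‖s v (z i) - z₀ v i‖ < ε) →
      ∀ x : ∀ v, α → L v, (∀ v i, ‖x v i - z₀ v i‖ < ε) → (∀ v, ∀ i ∉ T, x v i = s v (z i)) →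
      ∀ η : ℝ, 0 < η → ∃ z' : α → K, P z' ∧ ∀ v i, ‖s v (z' i) - x v i‖ < η := by
    intro T
    induction T using Finset.induction_on with
    | empty =>
      refine ⟨1, one_pos, fun z hz _ x _ hx η hη => ⟨z, hz, fun v i => ?_⟩⟩
      rw [hx v i (Finset.notMem_empty i), sub_self, norm_zero]
      exact hη
    | insert j T hj ih =>
      obtain ⟨ε', hε', hcl⟩ := ih
      obtain ⟨δ, hδ, hmv⟩ := hM j
      refine ⟨min (ε' / 2) (δ / 2), lt_min (half_pos hε') (half_pos hδ),
        fun z hz hn x hx hxT η hη => ?_⟩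
      have hn1 : ∀ v i, ‖s v (z i) - z₀ v i‖ < ε' / 2 := fun v i =>
        (hn v i).trans_le (min_le_left _ _)
      have hn2 : ∀ v i, ‖s v (z i) - z₀ v i‖ < δ / 2 := fun v i =>
        (hn v i).trans_le (min_le_right _ _)
      have hx1 : ∀ v i, ‖x v i - z₀ v i‖ < ε' / 2 := fun v i =>
        (hx v i).trans_le (min_le_left _ _)
      have hx2 : ∀ v i, ‖x v i - z₀ v i‖ < δ / 2 := fun v i =>
        (hx v i).trans_le (min_le_right _ _)
      obtain ⟨u, hu1, hu2⟩ := hmv z hz (fun v i => (hn2 v i).trans (half_lt_self hδ))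
        (fun v => x v j - s v (z j)) (fun v => by
          have h1 := hx2 v j
          have h2 := hn2 v j
          have e1 : x v j - s v (z j) = (x v j - z₀ v j) - (s v (z j) - z₀ v j) := by ring
          rw [e1]
          have := norm_sub_le (x v j - z₀ v j) (s v (z j) - z₀ v j)
          linarith) (min (ε' / 2) (η / 2)) (lt_min (half_pos hε') (half_pos hη))
      set z₁ : α → K := fun i => z i + u * (Pi.single j 1 : α → K) i with hz₁
      have hz₁j : z₁ j = z j + u := by simp [hz₁]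
      have hz₁i : ∀ i, i ≠ j → z₁ i = z i := by
        intro i hi
        simp [hz₁, Pi.single_eq_of_ne hi]
      have hj1 : ∀ v, ‖s v (z₁ j) - x v j‖ < min (ε' / 2) (η / 2) := by
        intro v
        have e1 : s v (z₁ j) - x v j = s v u - (x v j - s v (z j)) := by
          rw [hz₁j, map_add]; ring
        rw [e1]
        exact hu2 v
      have hclose : ∀ v i, i ∉ T → ‖s v (z₁ i) - x v i‖ < min (ε' / 2) (η / 2) := by
        intro v i hi
        by_cases hij : i = j
        · subst hij; exact hj1 v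
        · rw [hz₁i i hij, hxT v i (by
            rw [Finset.mem_insert, not_or]
            exact ⟨hij, hi⟩), sub_self, norm_zero]
          exact lt_min (half_pos hε') (half_pos hη)
      obtain ⟨z', hz'1, hz'2⟩ := hcl z₁ hu1 (fun v i => by
        by_cases hij : i = j
        · subst hij
          have h1 := (hj1 v).trans_le (min_le_left _ _)
          have h2 := hx1 v i
          have h3 := norm_sub_le_norm_sub_add_norm_sub (s v (z₁ i)) (x v i) (z₀ v i)
          linarith
        · rw [hz₁i i hij]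
          have := hn1 v i
          linarith) (fun v i => if i ∈ T then x v i else s v (z₁ i)) (fun v i => by
        by_cases hi : i ∈ T
        · rw [if_pos hi]
          have := hx1 v i
          linarith
        · rw [if_neg hi]
          have h1 := (hclose v i hi).trans_le (min_le_left _ _)
          have h2 := hx1 v i
          have h3 := norm_sub_le_norm_sub_add_norm_sub (s v (z₁ i)) (x v i) (z₀ v i)
          linarith) (fun v i hi => by
        rw [if_neg hi]) (η / 2) (half_pos hη)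
      refine ⟨z', hz'1, fun v i => ?_⟩
      have h1 := hz'2 v i
      by_cases hi : i ∈ T
      · rw [if_pos hi] at h1
        linarith
      · rw [if_neg hi] at h1
        have h2 := (hclose v i hi).trans_le (min_le_right _ _)
        have h3 := norm_sub_le_norm_sub_add_norm_sub (s v (z' i)) (s v (z₁ i)) (x v i)
        linarith
  obtain ⟨ε, hε, h⟩ := claim Finset.univ
  exact ⟨ε, hε, fun z hz hn x hx η hη => h z hz hn x hx
    (fun v i hi => absurd (Finset.mem_univ i) hi) η hη⟩

/-- a criterion for moves: the nonvanishing is an open condition -/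
lemma mvD_of [Nonempty V] [DecidableEq α] {I : Type*} [Fintype I] {A B : I → MvPolynomial α K}
    {j : α} (hc : ∀ i, (A i).degreeOf j = 0 ∨ (B i).degreeOf j = 0)
    (hT : ∀ i, (A i).degreeOf j + (B i).degreeOf j ≤ 8) {z₀ : ∀ v, α → L v}
    (hA : ∀ v i, MvPolynomial.eval (z₀ v) (MvPolynomial.map (s v) (A i)) ≠ 0)
    (hB : ∀ v i, MvPolynomial.eval (z₀ v) (MvPolynomial.map (s v) (B i)) ≠ 0)
    (h : Mv s (fun z u => ∀ i, So (if (A i).degreeOf j = 0 then A i else B i)
      (if (A i).degreeOf j = 0 then B i else A i) (Pi.single j 1) z u) z₀) :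
    MvD s (Pz A B) (Pi.single j 1) z₀ := by
  obtain ⟨δ, hδ, h⟩ := h
  obtain ⟨v₀⟩ := ‹Nonempty V›
  have hN : MvPolynomial.eval (z₀ v₀) (MvPolynomial.map (s v₀) (∏ i, A i * B i)) ≠ 0 := by
    rw [map_prod, map_prod]
    refine Finset.prod_ne_zero_iff.2 fun i _ => ?_
    rw [map_mul, map_mul]
    exact mul_ne_zero (hA v₀ i) (hB v₀ i)
  obtain ⟨ρ, hρ, hb⟩ := ne_near (∏ i, A i * B i) hN
  refine ⟨min δ (ρ / 2), lt_min hδ (half_pos hρ), fun z hz hn t ht η hη => ?_⟩
  obtain ⟨u, h1, h2⟩ := h z (fun v i => (hn v i).trans_le (min_le_left _ _)) t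
    (fun v => (ht v).trans_le (min_le_left _ _))
    (min η (ρ / 2 - ‖t v₀‖)) (lt_min hη (by
      have := (ht v₀).trans_le (min_le_right _ _)
      linarith))
  refine ⟨u, ?_, fun v => (h2 v).trans_le (min_le_left _ _)⟩
  have hne : MvPolynomial.eval (fun i => z i + u * (Pi.single j 1 : α → K) i)
      (∏ i, A i * B i) ≠ 0 := by
    intro h0
    have h3 := hb (fun i => s v₀ (z i + u * (Pi.single j 1 : α → K) i)) (fun i => by
      have k1 := (hn v₀ i).trans_le (min_le_right _ _)
      have k2 : ‖s v₀ u‖ < ρ / 2 := by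
        have k3 := (h2 v₀).trans_le (min_le_right _ _)
        have k5 := norm_sub_norm_le (s v₀ u) (t v₀)
        linarith
      by_cases hij : i = j
      · have e1 : s v₀ (z i + u * (Pi.single j 1 : α → K) i) - z₀ v₀ i =
            (s v₀ (z i) - z₀ v₀ i) + s v₀ u := by
          rw [hij, Pi.single_eq_same, mul_one, map_add]; ring
        rw [e1]
        have := norm_add_le (s v₀ (z i) - z₀ v₀ i) (s v₀ u)
        linarith
      · have e1 : s v₀ (z i + u * (Pi.single j 1 : α → K) i) - z₀ v₀ i =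
            (s v₀ (z i) - z₀ v₀ i) := by
          rw [Pi.single_eq_of_ne hij, mul_zero, add_zero]
        rw [e1]
        linarith)
    apply h3
    rw [eval_map_s (s := s) v₀, h0, map_zero]
  rw [map_prod] at hne
  have hne' := fun i => Finset.prod_ne_zero_iff.1 hne i (Finset.mem_univ i)
  intro i
  have hi := hne' i
  rw [map_mul] at hi
  obtain ⟨g1, g2, g3⟩ := hz i
  refine ⟨left_ne_zero_of_mul hi, right_ne_zero_of_mul hi, ?_⟩
  have k1 := h1 i
  by_cases h0 : (A i).degreeOf j = 0
  · rw [if_pos h0, if_pos h0] at k1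
    obtain ⟨R, S, k2⟩ := k1 g2
    have k3 : (B i).degreeOf j ≤ 8 := by have := hT i; omega
    rw [gv_cf (deg_rst k3 z), evc_zero, evc_nine, rst_ev] at k2
    rw [deg0_shift h0]
    exact hs_mul g3 k2
  · rw [if_neg h0, if_neg h0] at k1
    have h0' := (hc i).resolve_left h0
    obtain ⟨R, S, k2⟩ := k1 g1
    have k3 : (A i).degreeOf j ≤ 8 := by have := hT i; omega
    rw [gv_cf (deg_rst k3 z), evc_zero, evc_nine, rst_ev] at k2
    have k4 := hs_mul (hs_symm g1 g2 g3) k2
    have k5 : MvPolynomial.eval (fun i => z i + u * (Pi.single j 1 : α → K) i) (B i) ≠ 0 :=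
      right_ne_zero_of_mul hi
    rw [deg0_shift h0'] at k5 ⊢
    exact hs_symm k5 (left_ne_zero_of_mul hi) k4

end glob

section main

variable {K : Type u} [Field K] [CharZero K] {α : Type w} [Fintype α] [DecidableEq α]
  {I : Type*} [Fintype I]

lemma tame_le {d : I → ℕ} (h : Tame d) (i : I) : d i ≤ 8 := by
  have h1 := Finset.single_le_sum (f := fun i => (d i + 1) / 2) (fun i _ => Nat.zero_le _)
    (Finset.mem_univ i)
  have h2 := h1.trans h.1
  omega

/-- **The closure is open outside a divisor.** -/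
theorem main_int {A B : I → MvPolynomial α K} (hA : ∀ i, A i ≠ 0) (hB : ∀ i, B i ≠ 0)
    (hc : ∀ i j, (A i).degreeOf j = 0 ∨ (B i).degreeOf j = 0)
    (hT : ∀ j, Tame fun i => (A i).degreeOf j + (B i).degreeOf j) :
    ∃ N : MvPolynomial α K, N ≠ 0 ∧ ∀ (V : Type) [Finite V] [Nonempty V] (L : V → Type)
    [∀ v, NontriviallyNormedField (L v)] [∀ v, CompleteSpace (L v)] [∀ v, CharZero (L v)]
    (s : ∀ v, K →+* L v), M8 s → Dn s → ∀ z₀ : ∀ v, α → L v,
    (∀ v, MvPolynomial.eval (z₀ v) (MvPolynomial.map (s v) N) ≠ 0) →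
    IntD s (Pz A B) z₀ ∧ (∀ v i, MvPolynomial.eval (z₀ v) (MvPolynomial.map (s v) (A i)) ≠ 0) ∧
      (∀ v i, MvPolynomial.eval (z₀ v) (MvPolynomial.map (s v) (B i)) ≠ 0) := by
  have hG : ∀ j, Gm (fun z u => ∀ i, So (if (A i).degreeOf j = 0 then A i else B i)
      (if (A i).degreeOf j = 0 then B i else A i) (Pi.single j 1) z u) := by
    intro j
    refine tree_sys (fun i => ?_) (fun i => ?_) ?_
    · by_cases h0 : (A i).degreeOf j = 0
      · rw [if_pos h0]; exact hA i
      · rw [if_neg h0]; exact hB i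
    · by_cases h0 : (A i).degreeOf j = 0
      · rw [if_pos h0]; exact hB i
      · rw [if_neg h0]; exact hA i
    · have e1 : (fun i => (if (A i).degreeOf j = 0 then B i else A i).degreeOf j) =
          fun i => (A i).degreeOf j + (B i).degreeOf j := by
        funext i
        by_cases h0 : (A i).degreeOf j = 0
        · rw [if_pos h0, h0, zero_add]
        · rw [if_neg h0, (hc i j).resolve_left h0, add_zero]
      rw [e1]
      exact hT j
  choose N hN h using hG
  refine ⟨(∏ j, N j) * ∏ i, A i * B i, mul_ne_zero (Finset.prod_ne_zero_iff.2 fun j _ => hN j)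
    (Finset.prod_ne_zero_iff.2 fun i _ => mul_ne_zero (hA i) (hB i)), ?_⟩
  intro V _ _ L _ _ _ s h8 hden z₀ hz
  have h1 : ∀ v j, MvPolynomial.eval (z₀ v) (MvPolynomial.map (s v) (N j)) ≠ 0 := by
    intro v j
    have := (eval_mul_ne (hz v)).1
    rw [map_prod, map_prod] at this
    exact Finset.prod_ne_zero_iff.1 this j (Finset.mem_univ j)
  have h2 : ∀ v i, MvPolynomial.eval (z₀ v) (MvPolynomial.map (s v) (A i * B i)) ≠ 0 := by
    intro v i
    have := (eval_mul_ne (hz v)).2
    rw [map_prod, map_prod] at this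
    exact Finset.prod_ne_zero_iff.1 this i (Finset.mem_univ i)
  have h3 : ∀ v i, MvPolynomial.eval (z₀ v) (MvPolynomial.map (s v) (A i)) ≠ 0 := fun v i =>
    (eval_mul_ne (h2 v i)).1
  have h4 : ∀ v i, MvPolynomial.eval (z₀ v) (MvPolynomial.map (s v) (B i)) ≠ 0 := fun v i =>
    (eval_mul_ne (h2 v i)).2
  exact ⟨int_of_mvD fun j => mvD_of (fun i => hc i j) (tame_le (hT j)) h3 h4
    (h j V L s h8 hden z₀ fun v => h1 v j), h3, h4⟩

end main

end Pool.Agent.H436.CB
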