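import Pool.Agent.H436.CB.Pull

/-!
# Two conditions of degree four (helper436)
-/

set_option autoImplicit false
set_option linter.unusedVariables false
set_option linter.unusedSectionVars false
set_option linter.deprecated false
set_option linter.unusedSimpArgs false

open Filter Topology Pool.Agent.Y720.MZ

namespace Pool.Agent.H436.CB

section alg

variable {F : Type*} [Field F] [CharZero F]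

/-- a coefficient -/
def rr (c : Fin 10 → F) (σ : F) : F := Hg c + 2 * c 9 * σ ^ 2
/-- a coefficient -/
def F4c (c : Fin 10 → F) : F :=
  -3 * c 1 ^ 4 + 16 * c 0 * c 1 ^ 2 * c 2 - 64 * c 0 ^ 2 * c 1 * c 3 + 256 * c 0 ^ 3 * c 4
/-- a coefficient -/
def P1 (c : Fin 10 → F) (σ : F) : F := -16 * c 9 * σ * c 0
/-- a coefficient -/
def P2 (c : Fin 10 → F) : F := -32 * c 0 * Tg c
/-- a coefficient -/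
def Q1 (c : Fin 10 → F) (σ : F) : F := 4 * c 9 * σ * c 1
/-- a coefficient -/
def Q2 (c : Fin 10 → F) (σ : F) : F := F4c c - rr c σ ^ 2 + 8 * c 1 * Tg c

lemma t4_aux1 {c0 c1 c2 c3 c4 X Z : F} :
    c0 * (Z - c1 * X) ^ 4 + c1 * (4 * c0 * X) * (Z - c1 * X) ^ 3 +
      c2 * (4 * c0 * X) ^ 2 * (Z - c1 * X) ^ 2 + c3 * (4 * c0 * X) ^ 3 * (Z - c1 * X) +
      c4 * (4 * c0 * X) ^ 4 =
    c0 * (Z ^ 4 + 2 * (8 * c0 * c2 - 3 * c1 ^ 2) * X ^ 2 * Z ^ 2 +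
      8 * (c1 ^ 3 - 4 * c0 * c1 * c2 + 8 * c0 ^ 2 * c3) * X ^ 3 * Z +
      (-3 * c1 ^ 4 + 16 * c0 * c1 ^ 2 * c2 - 64 * c0 ^ 2 * c1 * c3 + 256 * c0 ^ 3 * c4) *
        X ^ 4) := by
  ring

lemma t4_aux2 {a σ y H T F4 r M X Z : F} (hr : r = H + 2 * a * σ ^ 2)
    (hM : M = 8 * T * y + 4 * a * σ) (hX : X = -(y * M)) (hZ : Z = (F4 - r ^ 2) * y ^ 2 + a) :
    Z ^ 4 + 2 * H * X ^ 2 * Z ^ 2 + 8 * T * X ^ 3 * Z + F4 * X ^ 4 =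
      (Z ^ 2 + r * X ^ 2) ^ 2 - a * (2 * σ * X * Z + y * M ^ 2) ^ 2 := by
  have hH : H = r - 2 * a * σ ^ 2 := by rw [hr]; ring
  rw [hH, hX]
  linear_combination (y ^ 2 * M ^ 3 * Z) * hM - (y ^ 2 * M ^ 4) * hZ

/-- the solution of the first condition -/
lemma t4_sol {c : Fin 10 → F} (hd : ∀ k : Fin 10, 4 < (k : ℕ) → (k : ℕ) < 9 → c k = 0)
    (σ : F) {y : F} (hq : c 9 + Q1 c σ * y + Q2 c σ * y ^ 2 ≠ 0) :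
    Sol c (y * (P1 c σ + P2 c * y) / (c 9 + Q1 c σ * y + Q2 c σ * y ^ 2)) := by
  obtain ⟨M, hM⟩ : ∃ M, M = 8 * Tg c * y + 4 * c 9 * σ := ⟨_, rfl⟩
  obtain ⟨X, hX⟩ : ∃ X, X = -(y * M) := ⟨_, rfl⟩
  obtain ⟨Z, hZ⟩ : ∃ Z, Z = (F4c c - rr c σ ^ 2) * y ^ 2 + c 9 := ⟨_, rfl⟩
  have hp : y * (P1 c σ + P2 c * y) = 4 * c 0 * X := by
    rw [P1, P2, hX, hM]; ring
  have hqq : c 9 + Q1 c σ * y + Q2 c σ * y ^ 2 = Z - c 1 * X := by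
    rw [Q1, Q2, hZ, hX, hM]; ring
  rw [hqq] at hq
  rw [hp, hqq]
  obtain ⟨q, hqd⟩ : ∃ q, q = Z - c 1 * X := ⟨_, rfl⟩
  rw [← hqd] at hq ⊢
  refine ⟨(Z ^ 2 + rr c σ * X ^ 2) / q ^ 2, (2 * σ * X * Z + y * M ^ 2) / q ^ 2, ?_⟩
  have e1 := t4_aux2 (r := rr c σ) (H := Hg c) rfl hM hX hZ
  have e2 := t4_aux1 (c0 := c 0) (c1 := c 1) (c2 := c 2) (c3 := c 3) (c4 := c 4) (X := X) (Z := Z)
  rw [← hqd] at e2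
  have e3 : c 0 * (Z ^ 4 + 2 * (8 * c 0 * c 2 - 3 * c 1 ^ 2) * X ^ 2 * Z ^ 2 +
      8 * (c 1 ^ 3 - 4 * c 0 * c 1 * c 2 + 8 * c 0 ^ 2 * c 3) * X ^ 3 * Z +
      (-3 * c 1 ^ 4 + 16 * c 0 * c 1 ^ 2 * c 2 - 64 * c 0 ^ 2 * c 1 * c 3 +
        256 * c 0 ^ 3 * c 4) * X ^ 4) =
      c 0 * (Z ^ 4 + 2 * Hg c * X ^ 2 * Z ^ 2 + 8 * Tg c * X ^ 3 * Z + F4c c * X ^ 4) := rfl
  rw [e3, e1] at e2
  rw [gv, hd 5 (by decide) (by decide), hd 6 (by decide) (by decide), hd 7 (by decide) (by decide),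
    hd 8 (by decide) (by decide)]
  have hq4 : q ^ 4 ≠ 0 := pow_ne_zero 4 hq
  apply mul_left_cancel₀ hq4
  have e4 : q ^ 4 * (c 0 * (((Z ^ 2 + rr c σ * X ^ 2) / q ^ 2) ^ 2 -
      c 9 * ((2 * σ * X * Z + y * M ^ 2) / q ^ 2) ^ 2)) =
      c 0 * ((Z ^ 2 + rr c σ * X ^ 2) ^ 2 - c 9 * (2 * σ * X * Z + y * M ^ 2) ^ 2) := by
    field_simp
  rw [e4, ← e2]
  field_simp
  ring

/-- the pull back of a polynomial of degree four along a quadratic map -/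
def pu4 (p1 p2 q0 q1 q2 : F) (g : Fin 10 → F) : Fin 10 → F :=
  ![q0 ^ 4 * g 0,
    p1 * q0 ^ 3 * g 1 + 4 * q0 ^ 3 * q1 * g 0,
    p1 ^ 2 * q0 ^ 2 * g 2 + 3 * p1 * q0 ^ 2 * q1 * g 1 + p2 * q0 ^ 3 * g 1 +
      4 * q0 ^ 3 * q2 * g 0 + 6 * q0 ^ 2 * q1 ^ 2 * g 0,
    p1 ^ 3 * q0 * g 3 + 2 * p1 ^ 2 * q0 * q1 * g 2 + 2 * p1 * p2 * q0 ^ 2 * g 2 +
      3 * p1 * q0 ^ 2 * q2 * g 1 + 3 * p1 * q0 * q1 ^ 2 * g 1 + 3 * p2 * q0 ^ 2 * q1 * g 1 +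
      12 * q0 ^ 2 * q1 * q2 * g 0 + 4 * q0 * q1 ^ 3 * g 0,
    p1 ^ 4 * g 4 + p1 ^ 3 * q1 * g 3 + 3 * p1 ^ 2 * p2 * q0 * g 3 + 2 * p1 ^ 2 * q0 * q2 * g 2 +
      p1 ^ 2 * q1 ^ 2 * g 2 + 4 * p1 * p2 * q0 * q1 * g 2 + 6 * p1 * q0 * q1 * q2 * g 1 +
      p1 * q1 ^ 3 * g 1 + p2 ^ 2 * q0 ^ 2 * g 2 + 3 * p2 * q0 ^ 2 * q2 * g 1 +
      3 * p2 * q0 * q1 ^ 2 * g 1 + 6 * q0 ^ 2 * q2 ^ 2 * g 0 + 12 * q0 * q1 ^ 2 * q2 * g 0 +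
      q1 ^ 4 * g 0,
    4 * p1 ^ 3 * p2 * g 4 + p1 ^ 3 * q2 * g 3 + 3 * p1 ^ 2 * p2 * q1 * g 3 +
      2 * p1 ^ 2 * q1 * q2 * g 2 + 3 * p1 * p2 ^ 2 * q0 * g 3 + 4 * p1 * p2 * q0 * q2 * g 2 +
      2 * p1 * p2 * q1 ^ 2 * g 2 + 3 * p1 * q0 * q2 ^ 2 * g 1 + 3 * p1 * q1 ^ 2 * q2 * g 1 +
      2 * p2 ^ 2 * q0 * q1 * g 2 + 6 * p2 * q0 * q1 * q2 * g 1 + p2 * q1 ^ 3 * g 1 +
      12 * q0 * q1 * q2 ^ 2 * g 0 + 4 * q1 ^ 3 * q2 * g 0,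
    6 * p1 ^ 2 * p2 ^ 2 * g 4 + 3 * p1 ^ 2 * p2 * q2 * g 3 + p1 ^ 2 * q2 ^ 2 * g 2 +
      3 * p1 * p2 ^ 2 * q1 * g 3 + 4 * p1 * p2 * q1 * q2 * g 2 + 3 * p1 * q1 * q2 ^ 2 * g 1 +
      p2 ^ 3 * q0 * g 3 + 2 * p2 ^ 2 * q0 * q2 * g 2 + p2 ^ 2 * q1 ^ 2 * g 2 +
      3 * p2 * q0 * q2 ^ 2 * g 1 + 3 * p2 * q1 ^ 2 * q2 * g 1 + 4 * q0 * q2 ^ 3 * g 0 +
      6 * q1 ^ 2 * q2 ^ 2 * g 0,
    4 * p1 * p2 ^ 3 * g 4 + 3 * p1 * p2 ^ 2 * q2 * g 3 + 2 * p1 * p2 * q2 ^ 2 * g 2 +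
      p1 * q2 ^ 3 * g 1 + p2 ^ 3 * q1 * g 3 + 2 * p2 ^ 2 * q1 * q2 * g 2 +
      3 * p2 * q1 * q2 ^ 2 * g 1 + 4 * q1 * q2 ^ 3 * g 0,
    p2 ^ 4 * g 4 + p2 ^ 3 * q2 * g 3 + p2 ^ 2 * q2 ^ 2 * g 2 + p2 * q2 ^ 3 * g 1 +
      q2 ^ 4 * g 0,
    g 9]

lemma pu4_gv {p1 p2 q0 q1 q2 : F} {g : Fin 10 → F} {y : F} :
    gv (pu4 p1 p2 q0 q1 q2 g) y =
      g 0 * (q0 + q1 * y + q2 * y ^ 2) ^ 4 +
      g 1 * (y * (p1 + p2 * y)) * (q0 + q1 * y + q2 * y ^ 2) ^ 3 +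
      g 2 * (y * (p1 + p2 * y)) ^ 2 * (q0 + q1 * y + q2 * y ^ 2) ^ 2 +
      g 3 * (y * (p1 + p2 * y)) ^ 3 * (q0 + q1 * y + q2 * y ^ 2) +
      g 4 * (y * (p1 + p2 * y)) ^ 4 := by
  obtain ⟨h, hh⟩ : ∃ h, h = pu4 p1 p2 q0 q1 q2 g := ⟨_, rfl⟩
  have h0 : h 0 = q0 ^ 4 * g 0 := by rw [hh]; rfl
  have h1 : h 1 = p1 * q0 ^ 3 * g 1 + 4 * q0 ^ 3 * q1 * g 0 := by rw [hh]; rfl
  have h2 : h 2 = p1 ^ 2 * q0 ^ 2 * g 2 + 3 * p1 * q0 ^ 2 * q1 * g 1 + p2 * q0 ^ 3 * g 1 +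
      4 * q0 ^ 3 * q2 * g 0 + 6 * q0 ^ 2 * q1 ^ 2 * g 0 := by rw [hh]; rfl
  have h3 : h 3 = p1 ^ 3 * q0 * g 3 + 2 * p1 ^ 2 * q0 * q1 * g 2 + 2 * p1 * p2 * q0 ^ 2 * g 2 +
      3 * p1 * q0 ^ 2 * q2 * g 1 + 3 * p1 * q0 * q1 ^ 2 * g 1 + 3 * p2 * q0 ^ 2 * q1 * g 1 +
      12 * q0 ^ 2 * q1 * q2 * g 0 + 4 * q0 * q1 ^ 3 * g 0 := by rw [hh]; rfl
  have h4 : h 4 = p1 ^ 4 * g 4 + p1 ^ 3 * q1 * g 3 + 3 * p1 ^ 2 * p2 * q0 * g 3 +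
      2 * p1 ^ 2 * q0 * q2 * g 2 +
      p1 ^ 2 * q1 ^ 2 * g 2 + 4 * p1 * p2 * q0 * q1 * g 2 + 6 * p1 * q0 * q1 * q2 * g 1 +
      p1 * q1 ^ 3 * g 1 + p2 ^ 2 * q0 ^ 2 * g 2 + 3 * p2 * q0 ^ 2 * q2 * g 1 +
      3 * p2 * q0 * q1 ^ 2 * g 1 + 6 * q0 ^ 2 * q2 ^ 2 * g 0 + 12 * q0 * q1 ^ 2 * q2 * g 0 +
      q1 ^ 4 * g 0 := by rw [hh]; rfl
  have h5 : h 5 = 4 * p1 ^ 3 * p2 * g 4 + p1 ^ 3 * q2 * g 3 + 3 * p1 ^ 2 * p2 * q1 * g 3 +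
      2 * p1 ^ 2 * q1 * q2 * g 2 + 3 * p1 * p2 ^ 2 * q0 * g 3 + 4 * p1 * p2 * q0 * q2 * g 2 +
      2 * p1 * p2 * q1 ^ 2 * g 2 + 3 * p1 * q0 * q2 ^ 2 * g 1 + 3 * p1 * q1 ^ 2 * q2 * g 1 +
      2 * p2 ^ 2 * q0 * q1 * g 2 + 6 * p2 * q0 * q1 * q2 * g 1 + p2 * q1 ^ 3 * g 1 +
      12 * q0 * q1 * q2 ^ 2 * g 0 + 4 * q1 ^ 3 * q2 * g 0 := by rw [hh]; rfl
  have h6 : h 6 = 6 * p1 ^ 2 * p2 ^ 2 * g 4 + 3 * p1 ^ 2 * p2 * q2 * g 3 +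
      p1 ^ 2 * q2 ^ 2 * g 2 +
      3 * p1 * p2 ^ 2 * q1 * g 3 + 4 * p1 * p2 * q1 * q2 * g 2 + 3 * p1 * q1 * q2 ^ 2 * g 1 +
      p2 ^ 3 * q0 * g 3 + 2 * p2 ^ 2 * q0 * q2 * g 2 + p2 ^ 2 * q1 ^ 2 * g 2 +
      3 * p2 * q0 * q2 ^ 2 * g 1 + 3 * p2 * q1 ^ 2 * q2 * g 1 + 4 * q0 * q2 ^ 3 * g 0 +
      6 * q1 ^ 2 * q2 ^ 2 * g 0 := by rw [hh]; rfl
  have h7 : h 7 = 4 * p1 * p2 ^ 3 * g 4 + 3 * p1 * p2 ^ 2 * q2 * g 3 +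
      2 * p1 * p2 * q2 ^ 2 * g 2 +
      p1 * q2 ^ 3 * g 1 + p2 ^ 3 * q1 * g 3 + 2 * p2 ^ 2 * q1 * q2 * g 2 +
      3 * p2 * q1 * q2 ^ 2 * g 1 + 4 * q1 * q2 ^ 3 * g 0 := by rw [hh]; rfl
  have h8 : h 8 = p2 ^ 4 * g 4 + p2 ^ 3 * q2 * g 3 + p2 ^ 2 * q2 ^ 2 * g 2 +
      p2 * q2 ^ 3 * g 1 + q2 ^ 4 * g 0 := by rw [hh]; rfl
  rw [← hh, gv, h0, h1, h2, h3, h4, h5, h6, h7, h8]
  ring

/-- the solution of the second condition -/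
lemma pu4_sol {p1 p2 q0 q1 q2 : F} {g : Fin 10 → F}
    (hd : ∀ k : Fin 10, 4 < (k : ℕ) → (k : ℕ) < 9 → g k = 0) {y : F}
    (hq : q0 + q1 * y + q2 * y ^ 2 ≠ 0) (h : Sol (pu4 p1 p2 q0 q1 q2 g) y) :
    Sol g (y * (p1 + p2 * y) / (q0 + q1 * y + q2 * y ^ 2)) := by
  obtain ⟨R, S, h⟩ := h
  rw [pu4_gv, show pu4 p1 p2 q0 q1 q2 g 0 = q0 ^ 4 * g 0 from rfl,
    show pu4 p1 p2 q0 q1 q2 g 9 = g 9 from rfl] at h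
  obtain ⟨q, hqd⟩ : ∃ q, q = q0 + q1 * y + q2 * y ^ 2 := ⟨_, rfl⟩
  rw [← hqd] at hq h ⊢
  refine ⟨q0 ^ 2 * R / q ^ 2, q0 ^ 2 * S / q ^ 2, ?_⟩
  rw [gv, hd 5 (by decide) (by decide), hd 6 (by decide) (by decide), hd 7 (by decide) (by decide),
    hd 8 (by decide) (by decide)]
  have hq4 : q ^ 4 ≠ 0 := pow_ne_zero 4 hq
  apply mul_left_cancel₀ hq4
  have e1 : q ^ 4 * (g 0 * ((q0 ^ 2 * R / q ^ 2) ^ 2 - g 9 * (q0 ^ 2 * S / q ^ 2) ^ 2)) =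
      q0 ^ 4 * g 0 * (R ^ 2 - g 9 * S ^ 2) := by
    field_simp
  rw [e1, h]
  field_simp
  ring

/-- the covariant of the pull back -/
lemma pu4_Φ {c g : Fin 10 → F} {σ : F} :
    Φg (pu4 (P1 c σ) (P2 c) (c 9) (Q1 c σ) (Q2 c σ) g) =
      -4096 * c 9 ^ 11 * σ * c 0 ^ 2 *
        (c 9 * σ ^ 2 * (c 0 * Φg g + c 1 * g 0 * Hg g) - Tg c * g 0 * Hg g) := by
  obtain ⟨p1, hp1⟩ : ∃ p1, p1 = P1 c σ := ⟨_, rfl⟩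
  obtain ⟨p2, hp2⟩ : ∃ p2, p2 = P2 c := ⟨_, rfl⟩
  obtain ⟨q1, hq1⟩ : ∃ q1, q1 = Q1 c σ := ⟨_, rfl⟩
  obtain ⟨q2, hq2⟩ : ∃ q2, q2 = Q2 c σ := ⟨_, rfl⟩
  rw [← hp1, ← hp2, ← hq1, ← hq2]
  have e1 : Φg (pu4 p1 p2 (c 9) q1 q2 g) = p1 * c 9 ^ 9 * (p1 ^ 2 * Φg g -
      4 * p1 * q1 * g 0 * Hg g + 8 * p2 * c 9 * g 0 * Hg g) := by
    have h0 : pu4 p1 p2 (c 9) q1 q2 g 0 = c 9 ^ 4 * g 0 := rfl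
    have h1 : pu4 p1 p2 (c 9) q1 q2 g 1 = p1 * c 9 ^ 3 * g 1 + 4 * c 9 ^ 3 * q1 * g 0 := rfl
    have h2 : pu4 p1 p2 (c 9) q1 q2 g 2 = p1 ^ 2 * c 9 ^ 2 * g 2 + 3 * p1 * c 9 ^ 2 * q1 * g 1 +
      p2 * c 9 ^ 3 * g 1 + 4 * c 9 ^ 3 * q2 * g 0 + 6 * c 9 ^ 2 * q1 ^ 2 * g 0 := rfl
    have h3 : pu4 p1 p2 (c 9) q1 q2 g 3 = p1 ^ 3 * c 9 * g 3 + 2 * p1 ^ 2 * c 9 * q1 * g 2 +
      2 * p1 * p2 * c 9 ^ 2 * g 2 + 3 * p1 * c 9 ^ 2 * q2 * g 1 + 3 * p1 * c 9 * q1 ^ 2 * g 1 +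
      3 * p2 * c 9 ^ 2 * q1 * g 1 + 12 * c 9 ^ 2 * q1 * q2 * g 0 +
      4 * c 9 * q1 ^ 3 * g 0 := rfl
    rw [Φg, h0, h1, h2, h3, Φg, Hg]
    ring
  rw [e1, hp1, hp2, hq1, P1, P2, Q1]
  ring

end alg

section map

variable {K L : Type*} [Field K] [CharZero K] [Field L] [CharZero L] (φ : K →+* L)

lemma Tg_map (c : Fin 10 → K) : φ (Tg c) = Tg (fun k => φ (c k)) := by
  simp only [Tg, map_add, map_sub, map_mul, map_pow, map_ofNat]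

lemma Hg_map (c : Fin 10 → K) : φ (Hg c) = Hg (fun k => φ (c k)) := by
  simp only [Hg, map_add, map_sub, map_mul, map_pow, map_ofNat]

lemma P1_map (c : Fin 10 → K) (σ : K) : φ (P1 c σ) = P1 (fun k => φ (c k)) (φ σ) := by
  simp only [P1, map_neg, map_mul, map_ofNat]

lemma P2_map (c : Fin 10 → K) : φ (P2 c) = P2 (fun k => φ (c k)) := by
  simp only [P2, map_neg, map_mul, map_ofNat, Tg_map]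

lemma Q1_map (c : Fin 10 → K) (σ : K) : φ (Q1 c σ) = Q1 (fun k => φ (c k)) (φ σ) := by
  simp only [Q1, map_neg, map_mul, map_ofNat]

lemma Q2_map (c : Fin 10 → K) (σ : K) : φ (Q2 c σ) = Q2 (fun k => φ (c k)) (φ σ) := by
  simp only [Q2, F4c, rr, map_neg, map_mul, map_ofNat, map_add, map_sub, map_pow, Tg_map, Hg_map]

lemma pu4_map (p1 p2 q0 q1 q2 : K) (g : Fin 10 → K) (k : Fin 10) :
    φ (pu4 p1 p2 q0 q1 q2 g k) =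
      pu4 (φ p1) (φ p2) (φ q0) (φ q1) (φ q2) (fun k => φ (g k)) k := by
  fin_cases k
  all_goals
    dsimp only [pu4]
    simp [map_add, map_mul, map_pow, map_ofNat]

end map

section loc

variable {L : Type*} [NontriviallyNormedField L] [CharZero L]

/-- analyticity of an entry -/
lemma an_e {ι : Type*} [Fintype ι] (e₀ : (ι → L) × L) (k : ι) :
    AnalyticAt L (fun e : (ι → L) × L => e.1 k) e₀ :=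
  ((ContinuousLinearMap.proj (R := L) (φ := fun _ : ι => L) k).comp
    (ContinuousLinearMap.fst L (ι → L) L)).analyticAt e₀

/-- analyticity of the parameter -/
lemma an_y {ι : Type*} [Fintype ι] (e₀ : (ι → L) × L) :
    AnalyticAt L (fun e : (ι → L) × L => e.2) e₀ :=
  (ContinuousLinearMap.snd L (ι → L) L).analyticAt e₀

lemma pu4_cont {X : Type*} [TopologicalSpace X] {p1 p2 q0 q1 q2 : X → L} {g : X → Fin 10 → L}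
    (h1 : Continuous p1) (h2 : Continuous p2) (h3 : Continuous q0) (h4 : Continuous q1)
    (h5 : Continuous q2) (hg : ∀ k, Continuous fun x => g x k) (k : Fin 10) :
    Continuous fun x => pu4 (p1 x) (p2 x) (q0 x) (q1 x) (q2 x) (g x) k := by
  have g0 := hg 0
  have g1 := hg 1
  have g2 := hg 2
  have g3 := hg 3
  have g4 := hg 4
  have g9 := hg 9
  fin_cases k
  all_goals
    dsimp only [pu4]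
    try simp only [Matrix.cons_val]
    fun_prop

end loc

end Pool.Agent.H436.CB
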