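import Pool.Agent.H436.CB.Ode

/-!
# Generic moves for systems of conditions along a direction (helper436)
-/

set_option autoImplicit false
set_option linter.unusedVariables false
set_option linter.unusedSectionVars false
set_option linter.deprecated false
set_option linter.unusedSimpArgs false

open Filter Topology Pool.Agent.Y720.MZ

namespace Pool.Agent.H436.CB

universe u w

section alg

variable {F : Type*} [Field F] [CharZero F] {α : Type*} [Fintype α]

/-- the values of the coefficients of a condition -/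
noncomputable def evc {ι : Type*} (c : ι → MvPolynomial α F) (z : α → F) : ι → F :=
  fun k => MvPolynomial.eval z (c k)

/-- the condition that `f (z + u e) / f z` is a norm -/
noncomputable def cf (a f : MvPolynomial α F) (e : α → F) : Fin 10 → MvPolynomial α F :=
  fun k => if k = 9 then a else gk f e k

lemma evc_cf (a f : MvPolynomial α F) (e z : α → F) {k : Fin 10} (hk : k ≠ 9) :
    evc (cf a f e) z k = (rst f z e).coeff k := by
  rw [evc, cf, if_neg hk, gk_eval]

lemma evc_nine (a f : MvPolynomial α F) (e z : α → F) :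
    evc (cf a f e) z 9 = MvPolynomial.eval z a := rfl

lemma evc_zero (a f : MvPolynomial α F) (e z : α → F) :
    evc (cf a f e) z 0 = MvPolynomial.eval z f := by
  rw [evc_cf a f e z (by decide)]
  change (rst f z e).coeff 0 = _
  rw [Polynomial.coeff_zero_eq_eval_zero, rst_eval]
  simp

lemma gk_zero (f : MvPolynomial α F) (e : α → F) : gk f e 0 = f := by
  have : Infinite F := CharZero.infinite F
  apply MvPolynomial.funext
  intro z
  rw [gk_eval, Polynomial.coeff_zero_eq_eval_zero, rst_eval]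
  simp

lemma rst_ev (f : MvPolynomial α F) (z e : α → F) (u : F) :
    (rst f z e).eval u = MvPolynomial.eval (fun i => z i + u * e i) f := by
  have h1 := rst_eval f z e u
  have h2 : (z + u • e) = fun i => z i + u * e i := by funext i; simp
  rw [h2] at h1
  exact h1

lemma gv_cf {a f : MvPolynomial α F} {z e : α → F} (h : (rst f z e).natDegree ≤ 8) (t : F) :
    gv (evc (cf a f e) z) t = (rst f z e).eval t := by
  conv_rhs => rw [(rst f z e).as_sum_range_C_mul_X_pow' (n := 9) (by omega)]
  simp only [Finset.sum_range_succ, Finset.sum_range_zero, Polynomial.eval_add,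
    Polynomial.eval_mul, Polynomial.eval_C, Polynomial.eval_pow, Polynomial.eval_X,
    Polynomial.eval_zero]
  rw [gv, evc_cf a f e z (by decide), evc_cf a f e z (by decide), evc_cf a f e z (by decide),
    evc_cf a f e z (by decide), evc_cf a f e z (by decide), evc_cf a f e z (by decide),
    evc_cf a f e z (by decide), evc_cf a f e z (by decide), evc_cf a f e z (by decide)]
  simp only [Fin.isValue, show ((0 : Fin 10) : ℕ) = 0 from rfl,
    show ((1 : Fin 10) : ℕ) = 1 from rfl, show ((2 : Fin 10) : ℕ) = 2 from rfl,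
    show ((3 : Fin 10) : ℕ) = 3 from rfl, show ((4 : Fin 10) : ℕ) = 4 from rfl,
    show ((5 : Fin 10) : ℕ) = 5 from rfl, show ((6 : Fin 10) : ℕ) = 6 from rfl,
    show ((7 : Fin 10) : ℕ) = 7 from rfl, show ((8 : Fin 10) : ℕ) = 8 from rfl]
  ring

lemma cf_Dl {a f : MvPolynomial α F} {e : α → F} {d : ℕ}
    (h : ∀ z, (rst f z e).natDegree ≤ d) : Dl d (cf a f e) := by
  intro k h1 h2
  have : Infinite F := CharZero.infinite F
  have hk : k ≠ 9 := by
    intro h3
    rw [h3] at h2
    exact absurd h2 (by decide)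
  rw [cf, if_neg hk]
  apply MvPolynomial.funext
  intro z
  rw [gk_eval, map_zero]
  exact Polynomial.coeff_eq_zero_of_natDegree_lt (lt_of_le_of_lt (h z) h1)

lemma evc_Dl {c : Fin 10 → MvPolynomial α F} {d : ℕ} (h : Dl d c) (z : α → F) :
    Dl d (evc c z) := by
  intro k h1 h2
  rw [evc, h k h1 h2, map_zero]

/-- a condition, for points with nonzero value -/
def So (a f : MvPolynomial α F) (e z : α → F) (u : F) : Prop :=
  MvPolynomial.eval z f ≠ 0 → Sol (evc (cf a f e) z) u

/-- a trivial condition: the values are constant multiples of squares -/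
lemma So_sq {a f : MvPolynomial α F} {z e : α → F} (hd : (rst f z e).natDegree ≤ 8)
    (h : MvPolynomial.eval z f ≠ 0 →
      ∃ q : Polynomial F, rst f z e = Polynomial.C ((rst f z e).eval 0) * q ^ 2) (u : F) :
    So a f e z u := by
  intro h0
  obtain ⟨q, hq⟩ := h h0
  refine ⟨q.eval u, 0, ?_⟩
  rw [gv_cf hd, hq, evc_zero, rst_ev]
  simp only [zero_mul, add_zero, Polynomial.eval_mul, Polynomial.eval_C, Polynomial.eval_pow]
  ring

lemma eval0_ne {f : MvPolynomial α F} {z e : α → F} (h : MvPolynomial.eval z f ≠ 0) :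
    (rst f z e).eval 0 ≠ 0 := by
  rw [rst_ev]
  simpa using h

/-- vanishing of the covariant for degree eight -/
lemma So_Φ {a f : MvPolynomial α F} {e : α → F} (hd : ∀ z, (rst f z e).natDegree ≤ 8)
    (h : Φg (cf a f e) = 0) (z : α → F) (u : F) : So a f e z u := by
  refine So_sq (hd z) (fun h0 => ?_) u
  obtain ⟨q, hq⟩ := ode_pow4 (cov_ode (a := 21) (b := -36) (c := 16) (f := f) (e := e)
    (fun z => by
      have h1 := congrArg (MvPolynomial.eval z) h
      rw [Φg] at h1
      simp only [map_sub, map_add, map_mul, map_pow, map_ofNat, map_zero] at h1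
      have k0 := evc_cf a f e z (k := 0) (by decide)
      have k1 := evc_cf a f e z (k := 1) (by decide)
      have k2 := evc_cf a f e z (k := 2) (by decide)
      have k3 := evc_cf a f e z (k := 3) (by decide)
      simp only [evc] at k0 k1 k2 k3
      rw [k0, k1, k2, k3] at h1
      change 7 * (rst f z e).coeff 1 ^ 3 - 24 * (rst f z e).coeff 0 * (rst f z e).coeff 1 *
        (rst f z e).coeff 2 + 32 * (rst f z e).coeff 0 ^ 2 * (rst f z e).coeff 3 = 0 at h1
      linear_combination 3 * h1) z) (eval0_ne h0)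
  refine ⟨q ^ 2, ?_⟩
  conv_lhs => rw [hq]
  ring

/-- vanishing of the Hessian -/
lemma So_H {a f : MvPolynomial α F} {e : α → F} (hd : ∀ z, (rst f z e).natDegree ≤ 8)
    (h : Hg (cf a f e) = 0) (z : α → F) (u : F) : So a f e z u := by
  refine So_sq (hd z) (fun h0 => ?_) u
  obtain ⟨q, hq⟩ := ode_pow4 (hess_ode (f := f) (e := e)
    (fun z => by
      have h1 := congrArg (MvPolynomial.eval z) h
      rw [Hg] at h1
      simp only [map_sub, map_add, map_mul, map_pow, map_ofNat, map_zero] at h1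
      have k0 := evc_cf a f e z (k := 0) (by decide)
      have k1 := evc_cf a f e z (k := 1) (by decide)
      have k2 := evc_cf a f e z (k := 2) (by decide)
      simp only [evc] at k0 k1 k2
      rw [k0, k1, k2] at h1
      exact h1) z) (eval0_ne h0)
  refine ⟨q ^ 2, ?_⟩
  conv_lhs => rw [hq]
  ring

/-- vanishing of the covariant for degree four -/
lemma So_T {a f : MvPolynomial α F} {e : α → F} (hd : ∀ z, (rst f z e).natDegree ≤ 8)
    (h : Tg (cf a f e) = 0) (z : α → F) (u : F) : So a f e z u := by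
  refine So_sq (hd z) (fun h0 => ?_) u
  exact ode_pow2 (cov_ode (a := 3) (b := -6) (c := 4) (f := f) (e := e)
    (fun z => by
      have h1 := congrArg (MvPolynomial.eval z) h
      rw [Tg] at h1
      simp only [map_sub, map_add, map_mul, map_pow, map_ofNat, map_zero] at h1
      have k0 := evc_cf a f e z (k := 0) (by decide)
      have k1 := evc_cf a f e z (k := 1) (by decide)
      have k2 := evc_cf a f e z (k := 2) (by decide)
      have k3 := evc_cf a f e z (k := 3) (by decide)
      simp only [evc] at k0 k1 k2 k3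
      rw [k0, k1, k2, k3] at h1
      change (rst f z e).coeff 1 ^ 3 - 4 * (rst f z e).coeff 0 * (rst f z e).coeff 1 *
        (rst f z e).coeff 2 + 8 * (rst f z e).coeff 0 ^ 2 * (rst f z e).coeff 3 = 0 at h1
      linear_combination 3 * h1) z) (eval0_ne h0)

/-- vanishing of the discriminant for degree two -/
lemma So_D {a f : MvPolynomial α F} {e : α → F} (hd : ∀ z, (rst f z e).natDegree ≤ 2)
    (h : Dg (cf a f e) = 0) (z : α → F) (u : F) : So a f e z u := by
  refine So_sq ((hd z).trans (by norm_num)) (fun h0 => ?_) u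
  have h1 := congrArg (MvPolynomial.eval z) h
  rw [Dg] at h1
  simp only [map_sub, map_add, map_mul, map_pow, map_ofNat, map_zero] at h1
  have k0 := evc_cf a f e z (k := 0) (by decide)
  have k1 := evc_cf a f e z (k := 1) (by decide)
  have k2 := evc_cf a f e z (k := 2) (by decide)
  simp only [evc] at k0 k1 k2
  rw [k0, k1, k2] at h1
  change (rst f z e).coeff 1 ^ 2 - 4 * (rst f z e).coeff 0 * (rst f z e).coeff 2 = 0 at h1
  have h2 := eval0_ne (e := e) h0
  rw [← Polynomial.coeff_zero_eq_eval_zero] at h2 ⊢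
  obtain ⟨g, hg⟩ : ∃ g, g = rst f z e := ⟨_, rfl⟩
  have hd' := hd z
  rw [← hg] at h1 h2 hd' ⊢
  refine ⟨1 + Polynomial.C (g.coeff 1 / (2 * g.coeff 0)) * Polynomial.X, ?_⟩
  have e1 : g = Polynomial.C (g.coeff 0) + Polynomial.C (g.coeff 1) * Polynomial.X +
      Polynomial.C (g.coeff 2) * Polynomial.X ^ 2 := by
    conv_lhs => rw [g.as_sum_range_C_mul_X_pow' (n := 3) (by omega)]
    simp only [Finset.sum_range_succ, Finset.sum_range_zero]
    ring
  have e2 : g.coeff 2 = g.coeff 0 * (g.coeff 1 / (2 * g.coeff 0)) ^ 2 := by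
    field_simp
    linear_combination -h1
  have e3 : g.coeff 1 = 2 * g.coeff 0 * (g.coeff 1 / (2 * g.coeff 0)) := by
    field_simp
  generalize g.coeff 1 / (2 * g.coeff 0) = x at e2 e3 ⊢
  rw [e3, e2] at e1
  generalize g.coeff 0 = y at e1 ⊢
  rw [e1]
  simp only [Polynomial.C_mul, Polynomial.C_pow, Polynomial.C_ofNat]
  ring

/-- the quadratic polynomial whose third power is the given one -/
noncomputable def cq3 (a f : MvPolynomial α F) (e : α → F) : Fin 10 → MvPolynomial α F :=
  fun k => if k = 9 then a else if k = 0 then 9 * f ^ 2 else if k = 1 then 3 * f * gk f e 1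
    else if k = 2 then 3 * f * gk f e 2 - gk f e 1 ^ 2 else 0

lemma cq3_Dl (a f : MvPolynomial α F) (e : α → F) : Dl 2 (cq3 a f e) := by
  intro k h1 h2
  have k9 : k ≠ 9 := by rintro rfl; exact absurd h2 (by decide)
  have k0 : k ≠ 0 := by rintro rfl; exact absurd h1 (by decide)
  have k1 : k ≠ 1 := by rintro rfl; exact absurd h1 (by decide)
  have k2 : k ≠ 2 := by rintro rfl; exact absurd h1 (by decide)
  rw [cq3, if_neg k9, if_neg k0, if_neg k1, if_neg k2]

lemma Dl_mono {R : Type*} [Zero R] {d d' : ℕ} (hd : d ≤ d') {g : Fin 10 → R} (h : Dl d g) :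
    Dl d' g := fun k h1 h2 => h k (lt_of_le_of_lt hd h1) h2

/-- vanishing of the covariant for degree six -/
lemma rst_cube {a f : MvPolynomial α F} {e : α → F} (h : Ψg (cf a f e) = 0) {z : α → F}
    (h0 : MvPolynomial.eval z f ≠ 0) :
    rst f z e = Polynomial.C ((rst f z e).eval 0) *
      (qq ((rst f z e).coeff 1 / (3 * (rst f z e).coeff 0))
      (((rst f z e).coeff 2 / (rst f z e).coeff 0 -
        3 * ((rst f z e).coeff 1 / (3 * (rst f z e).coeff 0)) ^ 2) / 3)) ^ 3 := by
  refine ode_pow3 (cov_ode (a := 10) (b := -18) (c := 9) (f := f) (e := e)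
    (fun z => ?_) z) (eval0_ne h0)
  have h1 := congrArg (MvPolynomial.eval z) h
  rw [Ψg] at h1
  simp only [map_sub, map_add, map_mul, map_pow, map_ofNat, map_zero] at h1
  have k0 := evc_cf a f e z (k := 0) (by decide)
  have k1 := evc_cf a f e z (k := 1) (by decide)
  have k2 := evc_cf a f e z (k := 2) (by decide)
  have k3 := evc_cf a f e z (k := 3) (by decide)
  simp only [evc] at k0 k1 k2 k3
  rw [k0, k1, k2, k3] at h1
  change 5 * (rst f z e).coeff 1 ^ 3 - 18 * (rst f z e).coeff 0 * (rst f z e).coeff 1 *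
    (rst f z e).coeff 2 + 27 * (rst f z e).coeff 0 ^ 2 * (rst f z e).coeff 3 = 0 at h1
  linear_combination 2 * h1

lemma So_of_cq3 {a f : MvPolynomial α F} {e : α → F} (hd : ∀ z, (rst f z e).natDegree ≤ 8)
    (h : Ψg (cf a f e) = 0) {z : α → F} {u : F} (hs : Sol (evc (cq3 a f e) z) u) :
    So a f e z u := by
  intro h0
  have h3 := rst_cube h h0
  have g0 := eval0_ne (e := e) h0
  obtain ⟨R, S, hs⟩ := hs
  have e0 : evc (cq3 a f e) z 0 = 9 * (rst f z e).coeff 0 ^ 2 := by
    change MvPolynomial.eval z (9 * f ^ 2) = _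
    rw [map_mul, map_pow, map_ofNat, ← gk_eval, gk_zero]
  have e1 : evc (cq3 a f e) z 1 = 3 * (rst f z e).coeff 0 * (rst f z e).coeff 1 := by
    change MvPolynomial.eval z (3 * f * gk f e 1) = _
    rw [map_mul, map_mul, map_ofNat, ← gk_eval, ← gk_eval, gk_zero]
  have e2 : evc (cq3 a f e) z 2 = 3 * (rst f z e).coeff 0 * (rst f z e).coeff 2 -
      (rst f z e).coeff 1 ^ 2 := by
    change MvPolynomial.eval z (3 * f * gk f e 2 - gk f e 1 ^ 2) = _
    rw [map_sub, map_mul, map_mul, map_pow, map_ofNat, ← gk_eval, ← gk_eval, ← gk_eval, gk_zero]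
  have e9 : evc (cq3 a f e) z 9 = MvPolynomial.eval z a := rfl
  have hD := evc_Dl (cq3_Dl a f e) z
  rw [gv, hD 3 (by decide) (by decide), hD 4 (by decide) (by decide),
    hD 5 (by decide) (by decide), hD 6 (by decide) (by decide), hD 7 (by decide) (by decide),
    hD 8 (by decide) (by decide), e0, e1, e2, e9] at hs
  obtain ⟨g, hg⟩ : ∃ g, g = rst f z e := ⟨_, rfl⟩
  obtain ⟨A, hA⟩ : ∃ A, A = MvPolynomial.eval z a := ⟨_, rfl⟩
  refine ⟨R ^ 3 + 3 * A * R * S ^ 2, 3 * R ^ 2 * S + A * S ^ 3, ?_⟩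
  rw [gv_cf (hd z), evc_nine]
  have e4 : evc (cf a f e) z 0 = (rst f z e).eval 0 := by
    rw [evc_zero, rst_ev]
    simp
  rw [e4]
  rw [← hg] at h3 hs g0 ⊢
  rw [← hA] at hs ⊢
  have hc0 : g.coeff 0 ≠ 0 := by rw [Polynomial.coeff_zero_eq_eval_zero]; exact g0
  have h5 : g.eval u = g.coeff 0 * (1 + g.coeff 1 / (3 * g.coeff 0) * u +
      ((g.coeff 2 / g.coeff 0 - 3 * (g.coeff 1 / (3 * g.coeff 0)) ^ 2) / 3) * u ^ 2) ^ 3 := by
    conv_lhs => rw [h3]
    rw [← Polynomial.coeff_zero_eq_eval_zero]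
    simp only [qq, Polynomial.eval_mul, Polynomial.eval_add, Polynomial.eval_pow,
      Polynomial.eval_C, Polynomial.eval_X, Polynomial.eval_one]
  have h6 : 1 + g.coeff 1 / (3 * g.coeff 0) * u +
      ((g.coeff 2 / g.coeff 0 - 3 * (g.coeff 1 / (3 * g.coeff 0)) ^ 2) / 3) * u ^ 2 =
      R ^ 2 - A * S ^ 2 := by
    have h7 : 9 * g.coeff 0 ^ 2 * (1 + g.coeff 1 / (3 * g.coeff 0) * u +
        ((g.coeff 2 / g.coeff 0 - 3 * (g.coeff 1 / (3 * g.coeff 0)) ^ 2) / 3) * u ^ 2) =
        9 * g.coeff 0 ^ 2 * (R ^ 2 - A * S ^ 2) := by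
      rw [hs]
      field_simp
      ring
    exact mul_left_cancel₀ (mul_ne_zero (by norm_num) (pow_ne_zero 2 hc0)) h7
  rw [h5, h6, ← Polynomial.coeff_zero_eq_eval_zero]
  ring

/-- vanishing of the covariant of the quadratic polynomial -/
lemma So_cq3_T {a f : MvPolynomial α F} {e : α → F} (hf : f ≠ 0)
    (hd : ∀ z, (rst f z e).natDegree ≤ 8)
    (h : Ψg (cf a f e) = 0) (hT : Tg (cq3 a f e) = 0) (z : α → F) (u : F) : So a f e z u := by
  have e0 : cq3 a f e 0 = 9 * f ^ 2 := rfl
  have e1 : cq3 a f e 1 = 3 * f * gk f e 1 := rfl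
  have e2 : cq3 a f e 2 = 3 * f * gk f e 2 - gk f e 1 ^ 2 := rfl
  have e3 : cq3 a f e 3 = 0 := rfl
  have h1 : cq3 a f e 1 * (cq3 a f e 1 ^ 2 - 4 * cq3 a f e 0 * cq3 a f e 2) = 0 := by
    rw [Tg, e3] at hT
    linear_combination hT
  rcases mul_eq_zero.1 h1 with h2 | h2
  · rw [e1] at h2
    have h3 : gk f e 1 = 0 :=
      (mul_eq_zero.1 h2).resolve_left (mul_ne_zero (by norm_num) hf)
    refine So_sq (hd z) (fun h0 => ⟨1, ?_⟩) u
    rw [one_pow, mul_one]
    refine const_of_coeff (fun z => ?_) z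
    rw [← gk_eval, h3, map_zero]
  · refine So_sq (hd z) (fun h0 => ?_) u
    have h3 := rst_cube h h0
    have g0 := eval0_ne (e := e) h0
    have h4 := congrArg (MvPolynomial.eval z) h2
    rw [e0, e1, e2] at h4
    simp only [map_sub, map_add, map_mul, map_pow, map_ofNat, map_zero, gk_eval] at h4
    have h5 : MvPolynomial.eval z f = (rst f z e).coeff 0 := by
      rw [← gk_eval, gk_zero]
    rw [h5] at h4
    obtain ⟨g, hg⟩ : ∃ g, g = rst f z e := ⟨_, rfl⟩
    rw [← hg] at h3 h4 g0 ⊢
    have hc0 : g.coeff 0 ≠ 0 := by rw [Polynomial.coeff_zero_eq_eval_zero]; exact g0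
    obtain ⟨x, hx⟩ : ∃ x, x = g.coeff 1 / (3 * g.coeff 0) := ⟨_, rfl⟩
    have h6 : (g.coeff 2 / g.coeff 0 - 3 * x ^ 2) / 3 = (x / 2) ^ 2 := by
      have h7 : g.coeff 0 ^ 2 * (4 * g.coeff 0 * g.coeff 2 * 3 - 5 * g.coeff 1 ^ 2) = 0 := by
        have : (-9 : F) ≠ 0 := by norm_num
        apply mul_left_cancel₀ this
        linear_combination h4
      have h8 := (mul_eq_zero.1 h7).resolve_left (pow_ne_zero 2 hc0)
      rw [hx]
      field_simp
      linear_combination h8
    rw [← hx, h6] at h3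
    refine ⟨(1 + Polynomial.C (x / 2) * Polynomial.X) ^ 3, ?_⟩
    conv_lhs => rw [h3]
    have h7 : qq x ((x / 2) ^ 2) = (1 + Polynomial.C (x / 2) * Polynomial.X) ^ 2 := by
      have : Polynomial.C x = 2 * Polynomial.C (x / 2) := by
        rw [← map_ofNat Polynomial.C 2, ← map_mul]
        congr 1
        field_simp
      rw [qq, this, Polynomial.C_pow]
      ring
    rw [h7]
    ring

end alg

end Pool.Agent.H436.CB
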